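import Mathlib

/-! The norm form of a degree five Kummer extension, as an explicit polynomial. -/

namespace Pool.Agent.BrFive

section

variable {R : Type*} [CommRing R]

/-- The norm of `x0 + x1 T + x2 T^2 + x3 T^3 + x4 T^4`, where `T^5 = s`. -/
def nf (x0 x1 x2 x3 x4 s : R) : R :=
  x0^5 + s*x1^5 - 5*s*x0*x1^3*x2 + 5*s*x0^2*x1*x2^2 + 5*s*x0^2*x1^2*x3 - 5*s*x0^3*x2*x3
    - 5*s*x0^3*x1*x4 + s^2*x2^5 - 5*s^2*x1*x2^3*x3 + 5*s^2*x1^2*x2*x3^2 + 5*s^2*x1^2*x2^2*x4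
    - 5*s^2*x1^3*x3*x4 + 5*s^2*x0*x2^2*x3^2 - 5*s^2*x0*x2^3*x4 - 5*s^2*x0*x1*x3^3
    - 5*s^2*x0*x1*x2*x3*x4 + 5*s^2*x0*x1^2*x4^2 + 5*s^2*x0^2*x3^2*x4 + 5*s^2*x0^2*x2*x4^2
    + s^3*x3^5 - 5*s^3*x2*x3^3*x4 + 5*s^3*x2^2*x3*x4^2 + 5*s^3*x1*x3^2*x4^2
    - 5*s^3*x1*x2*x4^3 - 5*s^3*x0*x3*x4^3 + s^4*x4^5

theorem nf_shift (x0 x1 x2 x3 x4 s : R) :
    nf (s * x0) x1 x2 x3 x4 s = s * nf x1 x2 x3 x4 x0 s := by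
  unfold nf; ring

theorem nf_scale (c x0 x1 x2 x3 x4 s : R) :
    nf (c * x0) (c * x1) (c * x2) (c * x3) (c * x4) s = c^5 * nf x0 x1 x2 x3 x4 s := by
  unfold nf; ring

theorem nf_dvd_sub (x0 x1 x2 x3 x4 s : R) : s ∣ nf x0 x1 x2 x3 x4 s - x0^5 := by
  refine ⟨x1^5 - 5*x0*x1^3*x2 + 5*x0^2*x1*x2^2 + 5*x0^2*x1^2*x3 - 5*x0^3*x2*x3
    - 5*x0^3*x1*x4 + s*x2^5 - 5*s*x1*x2^3*x3 + 5*s*x1^2*x2*x3^2 + 5*s*x1^2*x2^2*x4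
    - 5*s*x1^3*x3*x4 + 5*s*x0*x2^2*x3^2 - 5*s*x0*x2^3*x4 - 5*s*x0*x1*x3^3
    - 5*s*x0*x1*x2*x3*x4 + 5*s*x0*x1^2*x4^2 + 5*s*x0^2*x3^2*x4 + 5*s*x0^2*x2*x4^2
    + s^2*x3^5 - 5*s^2*x2*x3^3*x4 + 5*s^2*x2^2*x3*x4^2 + 5*s^2*x1*x3^2*x4^2
    - 5*s^2*x1*x2*x4^3 - 5*s^2*x0*x3*x4^3 + s^3*x4^5, ?_⟩
  unfold nf; ring

theorem map_nf {S : Type*} [CommRing S] (f : R →+* S) (x0 x1 x2 x3 x4 s : R) :
    f (nf x0 x1 x2 x3 x4 s) = nf (f x0) (f x1) (f x2) (f x3) (f x4) (f s) := by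
  simp [nf, map_add, map_sub, map_mul, map_pow, map_ofNat]

theorem nf_one_sub (c s : R) : nf 1 (-c) 0 0 0 s = 1 - c^5 * s := by
  unfold nf; ring

/-- The product formula for the norm form. -/
theorem nf_prod (ζ T : R) (hζ : 1 + ζ + ζ^2 + ζ^3 + ζ^4 = 0) (x0 x1 x2 x3 x4 : R) :
    (x0 + x1*T + x2*T^2 + x3*T^3 + x4*T^4)
    * (x0 + x1*(ζ*T) + x2*(ζ*T)^2 + x3*(ζ*T)^3 + x4*(ζ*T)^4)
    * (x0 + x1*(ζ^2*T) + x2*(ζ^2*T)^2 + x3*(ζ^2*T)^3 + x4*(ζ^2*T)^4)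
    * (x0 + x1*(ζ^3*T) + x2*(ζ^3*T)^2 + x3*(ζ^3*T)^3 + x4*(ζ^3*T)^4)
    * (x0 + x1*(ζ^4*T) + x2*(ζ^4*T)^2 + x3*(ζ^4*T)^3 + x4*(ζ^4*T)^4)
    = nf x0 x1 x2 x3 x4 (T^5) := by
  have h5 : ζ^5 = 1 := by linear_combination (ζ - 1) * hζ
  set A := x0^2 + x1^2*T^2 + x2^2*T^4 + x3^2*T^6 + x4^2*T^8 with hA
  set B := x0*x1*T + x1*x2*T^3 + x2*x3*T^5 + x3*x4*T^7 + x0*x4*T^4 with hB
  set C := x0*x2*T^2 + x1*x3*T^4 + x2*x4*T^6 + x0*x3*T^3 + x1*x4*T^5 with hC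
  have h6 : ζ^6 = ζ := by linear_combination ζ * h5
  have h8 : ζ^8 = ζ^3 := by linear_combination ζ^3 * h5
  have h9 : ζ^9 = ζ^4 := by linear_combination ζ^4 * h5
  have h12 : ζ^12 = ζ^2 := by linear_combination ζ^2 * (ζ^5 + 1) * h5
  have h16 : ζ^16 = ζ := by linear_combination ζ * (ζ^10 + ζ^5 + 1) * h5
  have P1 : (x0 + x1*(ζ*T) + x2*(ζ*T)^2 + x3*(ζ*T)^3 + x4*(ζ*T)^4)
      * (x0 + x1*(ζ^4*T) + x2*(ζ^4*T)^2 + x3*(ζ^4*T)^3 + x4*(ζ^4*T)^4)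
      = A + (ζ + ζ^4) * B + (ζ^2 + ζ^3) * C := by
    have e1 : (ζ^4*T)^2 = ζ^3*T^2 := by linear_combination T^2 * h8
    have e2 : (ζ^4*T)^3 = ζ^2*T^3 := by linear_combination T^3 * h12
    have e3 : (ζ^4*T)^4 = ζ*T^4 := by linear_combination T^4 * h16
    rw [e1, e2, e3, hA, hB, hC]
    linear_combination (x1^2*T^2 + x2^2*T^4 + x3^2*T^6 + x4^2*T^8 + x1*x2*ζ*T^3 + x2*x3*ζ*T^5
      + x3*x4*ζ*T^7 + x1*x3*ζ^2*T^4 + x2*x4*ζ^2*T^6 + x1*x4*ζ^3*T^5) * h5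
  have P2 : (x0 + x1*(ζ^2*T) + x2*(ζ^2*T)^2 + x3*(ζ^2*T)^3 + x4*(ζ^2*T)^4)
      * (x0 + x1*(ζ^3*T) + x2*(ζ^3*T)^2 + x3*(ζ^3*T)^3 + x4*(ζ^3*T)^4)
      = A + (ζ^2 + ζ^3) * B + (ζ + ζ^4) * C := by
    have e1 : (ζ^2*T)^3 = ζ*T^3 := by linear_combination T^3 * h6
    have e2 : (ζ^2*T)^4 = ζ^3*T^4 := by linear_combination T^4 * h8
    have e3 : (ζ^3*T)^2 = ζ*T^2 := by linear_combination T^2 * h6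
    have e4 : (ζ^3*T)^3 = ζ^4*T^3 := by linear_combination T^3 * h9
    have e5 : (ζ^3*T)^4 = ζ^2*T^4 := by linear_combination T^4 * h12
    rw [e1, e2, e3, e4, e5, hA, hB, hC]
    linear_combination (x1^2*T^2 + x2^2*T^4 + x3^2*T^6 + x4^2*T^8 + x1*x2*ζ^2*T^3
      + x2*x3*ζ^3*T^5 + x1*x3*ζ*T^4 + x1*x4*ζ*T^5 + x2*x4*ζ*T^6 + x3*x4*ζ^2*T^7) * h5
  have hs : ζ + ζ^4 = -1 - (ζ^2 + ζ^3) := by linear_combination hζ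
  have hp : (ζ + ζ^4) * (ζ^2 + ζ^3) = -1 := by
    linear_combination (ζ + ζ^2) * h5 + hζ
  have key : (x0 + x1*T + x2*T^2 + x3*T^3 + x4*T^4) *
      ((A + (ζ + ζ^4) * B + (ζ^2 + ζ^3) * C) * (A + (ζ^2 + ζ^3) * B + (ζ + ζ^4) * C))
      = (x0 + x1*T + x2*T^2 + x3*T^3 + x4*T^4) * (A^2 - A*(B+C) - B^2 - C^2 + 3*B*C) := by
    congr 1
    have hss : (ζ + ζ^4)^2 + (ζ^2 + ζ^3)^2 = 3 := by
      have : (ζ + ζ^4) + (ζ^2+ζ^3) = -1 := by linear_combination hζ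
      linear_combination ((ζ + ζ^4) + (ζ^2+ζ^3) - 1) * this - 2 * hp
    linear_combination (B^2 + C^2) * hp + B*C*hss + A*(B+C)*hs
  calc _ = (x0 + x1*T + x2*T^2 + x3*T^3 + x4*T^4) *
      (((x0 + x1*(ζ*T) + x2*(ζ*T)^2 + x3*(ζ*T)^3 + x4*(ζ*T)^4)
      * (x0 + x1*(ζ^4*T) + x2*(ζ^4*T)^2 + x3*(ζ^4*T)^3 + x4*(ζ^4*T)^4)) *
      ((x0 + x1*(ζ^2*T) + x2*(ζ^2*T)^2 + x3*(ζ^2*T)^3 + x4*(ζ^2*T)^4)
      * (x0 + x1*(ζ^3*T) + x2*(ζ^3*T)^2 + x3*(ζ^3*T)^3 + x4*(ζ^3*T)^4))) := by ring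
    _ = _ := by
      rw [P1, P2, key, hA, hB, hC]
      unfold nf
      ring

end

section

variable {K : Type*} [Field K]

theorem nf_inv (x0 x1 x2 x3 x4 : K) {h : K} (hh : h ≠ 0) :
    nf x0 x1 x2 x3 x4 h = nf x0 (x4*h) (x3*h) (x2*h) (x1*h) h⁻¹ := by
  unfold nf; field_simp; ring

theorem nf_change (x0 x1 x2 x3 x4 y p : K) (hp : p ≠ 0) :
    nf x0 x1 x2 x3 x4 (-(y^5)/p) =
      nf x0 (x4*y^4/p) (-(x3*y^3)/p) (x2*y^2/p) (-(x1*y)/p) p := by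
  unfold nf; field_simp; ring

/-- If `h = c^5` is a fifth power, every element is a value of the norm form. -/
theorem nf_of_pow (c s : K) (hc : c ≠ 0) :
    nf (1 + s) (s / c) (s / c^2) (s / c^3) (s / c^4) (c^5) = 1 + 5 * s := by
  unfold nf; field_simp; ring

end

end Pool.Agent.BrFive
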