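import Mathlib
import Pool.Agent.BrFive.NormForm

/-! Pairs of generators `x, y` with `x^5 = h`, `y^5 = a`, `y x = ζ x y`. -/

namespace Pool.Agent.BrFive

/-- `x, y` is a pair of symbol generators: `x^5 = h`, `y^5 = a` and `y x = ζ x y`. -/
structure IsPair {R A : Type*} [CommRing R] [Ring A] [Algebra R A] (ζ h a : R) (x y : A) :
    Prop where
  x_pow : x ^ 5 = algebraMap R A h
  y_pow : y ^ 5 = algebraMap R A a
  comm : y * x = ζ • (x * y)

section

variable {R : Type*} [CommRing R] {ζ : R}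

theorem zeta_pow_five (hζ : 1 + ζ + ζ^2 + ζ^3 + ζ^4 = 0) : ζ^5 = 1 := by
  linear_combination (ζ - 1) * hζ

theorem zeta_red (hζ : 1 + ζ + ζ^2 + ζ^3 + ζ^4 = 0) (n : ℕ) : ζ ^ n = ζ ^ (n % 5) := by
  conv_lhs => rw [← Nat.div_add_mod n 5, pow_add, pow_mul, zeta_pow_five hζ, one_pow, one_mul]

theorem zeta_congr (hζ : 1 + ζ + ζ^2 + ζ^3 + ζ^4 = 0) {m n : ℕ} (h : m % 5 = n % 5) :
    ζ ^ m = ζ ^ n := by
  rw [zeta_red hζ m, zeta_red hζ n, h]

theorem zeta_sum (hζ : 1 + ζ + ζ^2 + ζ^3 + ζ^4 = 0) (d : ℕ) :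
    ∑ k : Fin 5, ζ ^ (d * (k : ℕ)) = if d % 5 = 0 then 5 else 0 := by
  have h5 := zeta_pow_five hζ
  have h1 : ∀ k : Fin 5, ζ ^ (d * (k : ℕ)) = ζ ^ ((d % 5) * (k : ℕ)) := fun k => by
    apply zeta_congr hζ
    simp [Nat.mul_mod]
  simp only [h1]
  have hd : d % 5 < 5 := Nat.mod_lt _ (by norm_num)
  interval_cases h : d % 5
  · simp
  · simp [Fin.sum_univ_succ]; linear_combination hζ
  · simp [Fin.sum_univ_succ]; linear_combination hζ + (ζ + ζ^3) * h5
  · simp [Fin.sum_univ_succ]; linear_combination hζ + (ζ + ζ^4 + ζ^7 + ζ^2) * h5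
  · simp [Fin.sum_univ_succ]
    linear_combination hζ + (ζ^11 + ζ^6 + ζ + ζ^7 + ζ^2 + ζ^3) * h5

end

section

variable {R A : Type*} [CommRing R] [Ring A] [Algebra R A] {ζ h a : R} {x y : A}

namespace IsPair

theorem y_mul_x_pow (P : IsPair ζ h a x y) (i : ℕ) : y * x ^ i = ζ ^ i • (x ^ i * y) := by
  induction i with
  | zero => simp
  | succ i ih =>
    rw [pow_succ, ← mul_assoc, ih, smul_mul_assoc, mul_assoc, P.comm, mul_smul_comm, smul_smul,
      ← mul_assoc, pow_succ]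

theorem y_pow_mul_x_pow (P : IsPair ζ h a x y) (i j : ℕ) :
    y ^ j * x ^ i = ζ ^ (i * j) • (x ^ i * y ^ j) := by
  induction j with
  | zero => simp
  | succ j ih =>
    rw [pow_succ', mul_assoc, ih, mul_smul_comm, ← mul_assoc, P.y_mul_x_pow, smul_mul_assoc,
      smul_smul, mul_assoc]
    congr 1
    rw [← pow_add, Nat.mul_succ]

theorem mono_mul (P : IsPair ζ h a x y) (i j k l : ℕ) :
    (x ^ i * y ^ j) * (x ^ k * y ^ l) = ζ ^ (k * j) • (x ^ (i + k) * y ^ (j + l)) := by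
  rw [mul_assoc, ← mul_assoc (y ^ j), P.y_pow_mul_x_pow, smul_mul_assoc, mul_smul_comm,
    mul_assoc (x ^ k), ← pow_add, ← mul_assoc, ← pow_add]

theorem x_pow_add_five (P : IsPair ζ h a x y) (n : ℕ) : x ^ (n + 5) = h • x ^ n := by
  rw [pow_add, P.x_pow, ← Algebra.commutes, Algebra.smul_def]

theorem y_pow_add_five (P : IsPair ζ h a x y) (n : ℕ) : y ^ (n + 5) = a • y ^ n := by
  rw [pow_add, P.y_pow, ← Algebra.commutes, Algebra.smul_def]

end IsPair

/-- The monomials `x^i y^j`, `i, j < 5`. -/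
def mono (x y : A) (p : Fin 5 × Fin 5) : A := x ^ (p.1 : ℕ) * y ^ (p.2 : ℕ)

/-- Conjugation of a monomial by monomials, without inverses. -/
theorem IsPair.conj_mono (P : IsPair ζ h a x y) (i j k l : ℕ) (hk : k ≤ 5) (hl : l ≤ 5) :
    (y ^ k * x ^ l) * (x ^ i * y ^ j) * (x ^ (5 - l) * y ^ (5 - k))
      = (h * a * ζ ^ (i * k + j * (5 - l) + 5 * k)) • (x ^ i * y ^ j) := by
  have e1 : (y ^ k * x ^ l) * (x ^ i * y ^ j) * (x ^ (5 - l) * y ^ (5 - k))
      = y ^ k * ((x ^ (l + i) * y ^ j) * (x ^ (5 - l) * y ^ (5 - k))) := by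
    rw [pow_add]; simp only [mul_assoc]
  rw [e1, P.mono_mul, mul_smul_comm]
  have e2 : l + i + (5 - l) = i + 5 := by omega
  rw [e2]
  have e3 : y ^ k * (x ^ (i + 5) * y ^ (j + (5 - k)))
      = ζ ^ ((i + 5) * k) • (x ^ (i + 5) * y ^ (k + (j + (5 - k)))) := by
    have := P.mono_mul 0 k (i + 5) (j + (5 - k))
    simpa using this
  have e4 : k + (j + (5 - k)) = j + 5 := by omega
  rw [e3, e4, P.x_pow_add_five, P.y_pow_add_five]
  simp only [smul_mul_assoc, mul_smul_comm, smul_smul]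
  congr 1
  have e5 : (i + 5) * k = i * k + 5 * k := by ring
  rw [e5, pow_add, pow_add, pow_add]
  have e6 : (5 - l) * j = j * (5 - l) := by ring
  rw [e6]
  ring

/-- The projector onto the monomial `q`, up to a unit. -/
def proj (ζ : R) (x y : A) (q : Fin 5 × Fin 5) (z : A) : A :=
  ∑ k : Fin 5, ∑ l : Fin 5, ζ ^ ((5 - (q.1 : ℕ)) * (k : ℕ) + (q.2 : ℕ) * (l : ℕ)) •
    ((y ^ (k : ℕ) * x ^ (l : ℕ)) * z * (x ^ (5 - (l : ℕ)) * y ^ (5 - (k : ℕ))))

theorem IsPair.proj_mono (hζ : 1 + ζ + ζ^2 + ζ^3 + ζ^4 = 0) (P : IsPair ζ h a x y)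
    (p q : Fin 5 × Fin 5) :
    proj ζ x y q (mono x y p) = if p = q then (25 * h * a) • mono x y p else 0 := by
  obtain ⟨i, j⟩ := p
  obtain ⟨i0, j0⟩ := q
  simp only [proj, mono]
  have step : ∀ k l : Fin 5, ζ ^ ((5 - (i0 : ℕ)) * (k : ℕ) + (j0 : ℕ) * (l : ℕ)) •
      ((y ^ (k : ℕ) * x ^ (l : ℕ)) * (x ^ (i : ℕ) * y ^ (j : ℕ)) *
        (x ^ (5 - (l : ℕ)) * y ^ (5 - (k : ℕ))))
      = (h * a * (ζ ^ ((5 - (i0 : ℕ) + i) * (k : ℕ)) * ζ ^ (((j0 : ℕ) + 4 * j) * (l : ℕ)))) •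
        (x ^ (i : ℕ) * y ^ (j : ℕ)) := by
    intro k l
    rw [P.conj_mono _ _ _ _ (by omega) (by omega), smul_smul]
    congr 1
    rw [← pow_add]
    have : ζ ^ ((5 - (i0 : ℕ)) * (k : ℕ) + (j0 : ℕ) * (l : ℕ)) *
        ζ ^ ((i : ℕ) * k + j * (5 - l) + 5 * k) =
        ζ ^ ((5 - (i0 : ℕ) + i) * (k : ℕ) + ((j0 : ℕ) + 4 * j) * (l : ℕ)) := by
      rw [← pow_add]
      apply zeta_congr hζ
      have hl := l.isLt
      obtain ⟨m, hm⟩ : ∃ m, 5 = (l : ℕ) + m := ⟨5 - l, by omega⟩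
      have hm' : 5 - (l : ℕ) = m := by omega
      rw [hm']
      have e1 : (5 - (i0 : ℕ)) * (k : ℕ) + (j0 : ℕ) * (l : ℕ) + ((i : ℕ) * k + j * m + 5 * k)
          + 5 * (j * l) =
          (5 - (i0 : ℕ) + i) * (k : ℕ) + ((j0 : ℕ) + 4 * j) * (l : ℕ) + 5 * k + j * (l + m) := by
        ring
      rw [← hm] at e1
      omega
    linear_combination (h * a) * this
  simp only [step]
  simp only [← Finset.sum_smul, ← Finset.mul_sum, ← Finset.sum_mul]
  rw [zeta_sum hζ, zeta_sum hζ]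
  by_cases hi : i = i0
  · by_cases hj : j = j0
    · subst hi; subst hj
      have e1 : (5 - (i : ℕ) + i) % 5 = 0 := by omega
      have e2 : ((j : ℕ) + 4 * j) % 5 = 0 := by omega
      simp only [e1, e2, if_true]
      congr 1
      ring
    · have e2 : ¬ ((j0 : ℕ) + 4 * j) % 5 = 0 := by
        intro hh
        apply hj
        apply Fin.ext
        omega
      simp [e2, hj]
  · have e1 : ¬ (5 - (i0 : ℕ) + i) % 5 = 0 := by
      intro hh
      apply hi
      apply Fin.ext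
      omega
    simp [e1, hi]

theorem proj_add (q : Fin 5 × Fin 5) (z w : A) :
    proj ζ x y q (z + w) = proj ζ x y q z + proj ζ x y q w := by
  simp only [proj, mul_add, add_mul, smul_add, Finset.sum_add_distrib]

theorem proj_smul (q : Fin 5 × Fin 5) (c : R) (z : A) :
    proj ζ x y q (c • z) = c • proj ζ x y q z := by
  simp only [proj, mul_smul_comm, smul_mul_assoc, Finset.smul_sum]
  refine Finset.sum_congr rfl fun k _ => Finset.sum_congr rfl fun l _ => ?_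
  rw [smul_comm]

theorem proj_sum {ι : Type*} (s : Finset ι) (q : Fin 5 × Fin 5) (f : ι → A) :
    proj ζ x y q (∑ i ∈ s, f i) = ∑ i ∈ s, proj ζ x y q (f i) := by
  classical
  induction s using Finset.induction_on with
  | empty => simp [proj]
  | insert i s hi ih => rw [Finset.sum_insert hi, Finset.sum_insert hi, proj_add, ih]

/-- Right inverse of a monomial up to the unit `h a`. -/
theorem IsPair.mono_inv (P : IsPair ζ h a x y) (p : Fin 5 × Fin 5) :
    (y ^ (5 - (p.2 : ℕ)) * x ^ (5 - (p.1 : ℕ))) * mono x y p = (h * a) • (1 : A) := by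
  have hi := p.1.isLt
  have hj := p.2.isLt
  unfold mono
  have : (y ^ (5 - (p.2 : ℕ)) * x ^ (5 - (p.1 : ℕ))) * (x ^ (p.1 : ℕ) * y ^ (p.2 : ℕ))
      = y ^ (5 - (p.2 : ℕ)) * (x ^ (5 - (p.1 : ℕ) + (p.1 : ℕ)) * y ^ (p.2 : ℕ)) := by
    rw [pow_add]; simp only [mul_assoc]
  rw [this]
  have e1 : 5 - (p.1 : ℕ) + (p.1 : ℕ) = 5 := by omega
  rw [e1, P.x_pow, ← mul_assoc, ← Algebra.commutes, mul_assoc, ← pow_add]
  have e2 : 5 - (p.2 : ℕ) + (p.2 : ℕ) = 5 := by omega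
  rw [e2, P.y_pow, Algebra.smul_def, mul_one, map_mul]

/-- Linear independence of the monomials. -/
theorem IsPair.linearIndependent (hζ : 1 + ζ + ζ^2 + ζ^3 + ζ^4 = 0) (P : IsPair ζ h a x y)
    (h5 : IsUnit (5 : R)) (hh : IsUnit h) (ha : IsUnit a)
    (hinj : Function.Injective (algebraMap R A)) :
    LinearIndependent R (mono x y) := by
  rw [Fintype.linearIndependent_iff]
  intro c hc q
  have h1 := congrArg (proj ζ x y q) hc
  rw [proj_sum] at h1
  simp only [proj_smul, P.proj_mono hζ] at h1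
  have h0 : proj ζ x y q (0 : A) = 0 := by simp [proj]
  rw [h0] at h1
  simp only [smul_ite, smul_zero, Finset.sum_ite_eq', Finset.mem_univ, if_true] at h1
  have h2 := congrArg (fun z => (y ^ (5 - (q.2 : ℕ)) * x ^ (5 - (q.1 : ℕ))) * z) h1
  simp only [mul_zero, mul_smul_comm, P.mono_inv, smul_smul] at h2
  rw [← Algebra.algebraMap_eq_smul_one] at h2
  have h3 : c q * (25 * h * a) * (h * a) = 0 := hinj (by rw [h2, map_zero])
  have hu : IsUnit ((25 * h * a) * (h * a)) := by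
    have : (25 : R) = 5 * 5 := by norm_num
    rw [this]
    exact (((h5.mul h5).mul hh).mul ha).mul (hh.mul ha)
  rw [mul_assoc] at h3
  exact (hu.mul_left_eq_zero).1 h3

end

end Pool.Agent.BrFive
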