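import Mathlib
import Pool.Agent.BrFive.Pair

/-! An algebra with a basis of monomials in a pair with unit parameters is Azumaya. -/

namespace Pool.Agent.BrFive

open TensorProduct MulOpposite

section

variable {R B : Type*} [CommRing R] [Ring B] [Algebra R B] {ζ h a : R} {x y : B}

/-- The element of `B ⊗ Bᵐᵒᵖ` acting as `proj`. -/
noncomputable def projT (ζ : R) (x y : B) (q : Fin 5 × Fin 5) : B ⊗[R] Bᵐᵒᵖ :=
  ∑ k : Fin 5, ∑ l : Fin 5, ζ ^ ((5 - (q.1 : ℕ)) * (k : ℕ) + (q.2 : ℕ) * (l : ℕ)) •
    ((y ^ (k : ℕ) * x ^ (l : ℕ)) ⊗ₜ[R] op (x ^ (5 - (l : ℕ)) * y ^ (5 - (k : ℕ))))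

theorem mulLeftRight_projT (q : Fin 5 × Fin 5) (z : B) :
    AlgHom.mulLeftRight R B (projT ζ x y q) z = proj ζ x y q z := by
  simp [projT, proj, map_sum, LinearMap.sum_apply, AlgHom.mulLeftRight_apply]

theorem IsPair.isAzumaya [Nontrivial R] (hζ : 1 + ζ + ζ^2 + ζ^3 + ζ^4 = 0)
    (P : IsPair ζ h a x y)
    (h5 : IsUnit (5 : R)) (hh : IsUnit h) (ha : IsUnit a)
    (b : Module.Basis (Fin 5 × Fin 5) R B) (hb : ∀ p, b p = mono x y p) : IsAzumaya R B := by
  have : Module.Free R B := Module.Free.of_basis b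
  have : Module.Finite R B := Module.Finite.of_basis b
  have : Nontrivial B := b.repr.toEquiv.nontrivial
  have hsurj : Function.Surjective (AlgHom.mulLeftRight R B) := by
    intro T
    have hu : IsUnit (25 * (h * a) * (h * a) : R) := by
      have : (25 : R) = 5 * 5 := by norm_num
      rw [this]
      exact (((h5.mul h5).mul (hh.mul ha)).mul (hh.mul ha))
    obtain ⟨u, hu⟩ := hu
    refine ⟨∑ q : Fin 5 × Fin 5, ((T (mono x y q) *
      (y ^ (5 - (q.2 : ℕ)) * x ^ (5 - (q.1 : ℕ)))) ⊗ₜ[R] op (1 : B)) *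
      (((u⁻¹ : Rˣ) : R) • projT ζ x y q), ?_⟩
    apply b.ext
    intro p
    rw [hb, map_sum, LinearMap.sum_apply]
    simp only [map_mul, Module.End.mul_apply, map_smul, LinearMap.smul_apply,
      mulLeftRight_projT, AlgHom.mulLeftRight_apply, unop_op, mul_one, P.proj_mono hζ]
    simp only [smul_ite, smul_zero, mul_ite, mul_zero, Finset.sum_ite_eq, Finset.mem_univ,
      if_true, mul_smul_comm, mul_assoc, smul_smul]
    rw [← mul_assoc (y ^ _) (x ^ _), P.mono_inv, mul_smul_comm, mul_one, smul_smul]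
    have : ((u⁻¹ : Rˣ) : R) * (25 * (h * a)) * (h * a) = 1 := by
      have h1 : ((u⁻¹ : Rˣ) : R) * (u : R) = 1 := Units.inv_mul u
      rw [hu] at h1
      linear_combination h1
    rw [this, one_smul]
  have hbij : Function.Bijective (AlgHom.mulLeftRight R B) := by
    refine ⟨?_, hsurj⟩
    let bo : Module.Basis (Fin 5 × Fin 5) R Bᵐᵒᵖ := b.map (opLinearEquiv R)
    let bt : Module.Basis ((Fin 5 × Fin 5) × (Fin 5 × Fin 5)) R (B ⊗[R] Bᵐᵒᵖ) :=
      b.tensorProduct bo
    let be : Module.Basis ((Fin 5 × Fin 5) × (Fin 5 × Fin 5)) R (Module.End R B) :=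
      b.linearMap b
    let e : (Module.End R B) ≃ₗ[R] (B ⊗[R] Bᵐᵒᵖ) := be.equiv bt (Equiv.refl _)
    have : Module.Finite R (B ⊗[R] Bᵐᵒᵖ) := Module.Finite.of_basis bt
    have hs : Function.Surjective
        ((e : (Module.End R B) →ₗ[R] (B ⊗[R] Bᵐᵒᵖ)) ∘ₗ
          (AlgHom.mulLeftRight R B).toLinearMap) := by
      rw [LinearMap.coe_comp]
      exact e.surjective.comp hsurj
    have hi := OrzechProperty.injective_of_surjective_endomorphism _ hs
    rw [LinearMap.coe_comp] at hi
    exact Function.Injective.of_comp hi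
  exact { bij := hbij
          eq_of_smul_eq_smul := fun h => by
            rename_i c d
            have := h 1
            have h2 := congrArg b.repr this
            have h3 : b (0, 0) = 1 := by rw [hb]; simp [mono]
            rw [← h3] at h2
            simpa using congrArg (fun f => f (0,0)) h2 }

end

section

variable {K A : Type*} [Field K] [Ring A] [Algebra K A]

/-- An Azumaya algebra over a field is simple. -/
theorem isSimpleRing_of_isAzumaya [Nontrivial A] [IsAzumaya K A] : IsSimpleRing A := by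
  refine ⟨⟨fun I => ?_⟩⟩
  by_cases hI : I = ⊥
  · exact Or.inl hI
  · right
    obtain ⟨z, hzI, hz⟩ : ∃ z ∈ I, z ≠ 0 := by
      by_contra hcon
      push Not at hcon
      apply hI
      rw [eq_bot_iff]
      intro z hz
      rw [hcon z hz]
      exact TwoSidedIdeal.zero_mem _
    obtain ⟨T, hT⟩ : ∃ T : Module.End K A, T z = 1 := by
      obtain ⟨f, hf⟩ : ∃ f : Module.Dual K A, f z ≠ 0 := by
        by_contra hcon
        push Not at hcon
        exact hz ((Module.forall_dual_apply_eq_zero_iff K z).1 hcon)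
      refine ⟨(f z)⁻¹ • (f.smulRight (1 : A)), ?_⟩
      simp [smul_smul, inv_mul_cancel₀ hf]
    obtain ⟨τ, hτ⟩ := (IsAzumaya.bij (R := K) (A := A)).2 T
    have key : ∀ τ : A ⊗[K] Aᵐᵒᵖ, AlgHom.mulLeftRight K A τ z ∈ I := by
      intro τ
      induction τ using TensorProduct.induction_on with
      | zero => simp
      | tmul p q =>
        rw [AlgHom.mulLeftRight_apply]
        exact TwoSidedIdeal.mul_mem_right _ _ _ (TwoSidedIdeal.mul_mem_left _ _ _ hzI)
      | add p q hp hq =>
        rw [map_add, LinearMap.add_apply]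
        exact TwoSidedIdeal.add_mem _ hp hq
    have h1 : (1 : A) ∈ I := by
      rw [← hT, ← hτ]
      exact key τ
    rw [eq_top_iff]
    intro w _
    have := TwoSidedIdeal.mul_mem_left I w 1 h1
    simpa using this

end

section

variable {R A : Type*} [CommRing R] [Ring A] [Algebra R A] {ζ h a : R} {x y : A}

theorem IsPair.x_pow_red (P : IsPair ζ h a x y) (n : ℕ) : x ^ n = h ^ (n / 5) • x ^ (n % 5) := by
  conv_lhs => rw [← Nat.div_add_mod n 5, pow_add, pow_mul, P.x_pow, ← map_pow,
    ← Algebra.smul_def]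

theorem IsPair.y_pow_red (P : IsPair ζ h a x y) (n : ℕ) : y ^ n = a ^ (n / 5) • y ^ (n % 5) := by
  conv_lhs => rw [← Nat.div_add_mod n 5, pow_add, pow_mul, P.y_pow, ← map_pow,
    ← Algebra.smul_def]

theorem IsPair.pow_mul_pow_mem (P : IsPair ζ h a x y) (n m : ℕ) :
    x ^ n * y ^ m ∈ Submodule.span R (Set.range (mono x y)) := by
  rw [P.x_pow_red, P.y_pow_red, smul_mul_smul_comm]
  apply Submodule.smul_mem
  apply Submodule.subset_span
  exact ⟨(⟨n % 5, Nat.mod_lt _ (by norm_num)⟩, ⟨m % 5, Nat.mod_lt _ (by norm_num)⟩), rfl⟩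

/-- The span of the monomials as a subalgebra. -/
def IsPair.subalg (P : IsPair ζ h a x y) : Subalgebra R A where
  carrier := Submodule.span R (Set.range (mono x y))
  mul_mem' := by
    intro p q hp hq
    simp only [SetLike.mem_coe] at hp hq ⊢
    induction hp using Submodule.span_induction with
    | mem p hp =>
      obtain ⟨⟨i, j⟩, rfl⟩ := hp
      induction hq using Submodule.span_induction with
      | mem q hq =>
        obtain ⟨⟨k, l⟩, rfl⟩ := hq
        simp only [mono]
        rw [P.mono_mul]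
        exact Submodule.smul_mem _ _ (P.pow_mul_pow_mem _ _)
      | zero => simp
      | add q r _ _ h1 h2 => rw [mul_add]; exact Submodule.add_mem _ h1 h2
      | smul c q _ h1 => rw [mul_smul_comm]; exact Submodule.smul_mem _ _ h1
    | zero => simp
    | add p r _ _ h1 h2 => rw [add_mul]; exact Submodule.add_mem _ h1 h2
    | smul c p _ h1 => rw [smul_mul_assoc]; exact Submodule.smul_mem _ _ h1
  add_mem' := by
    intro p q hp hq
    exact Submodule.add_mem _ hp hq
  algebraMap_mem' := by
    intro r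
    rw [Algebra.algebraMap_eq_smul_one]
    apply Submodule.smul_mem
    have := P.pow_mul_pow_mem 0 0
    simpa using this

theorem IsPair.mem_subalg (P : IsPair ζ h a x y) {z : A} :
    z ∈ P.subalg ↔ z ∈ Submodule.span R (Set.range (mono x y)) := Iff.rfl

end

end Pool.Agent.BrFive
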