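import Mathlib

/-! Tensor products of central simple algebras. -/

namespace Pool.Agent.BrFive

open TensorProduct

universe u

section

variable {K A B : Type*} [Field K] [Ring A] [Algebra K A] [Ring B] [Algebra K B]
  {κ : Type*} [DecidableEq κ] (β : Module.Basis κ K B)

theorem E_left (a : A) (x : A ⊗[K] B) (i : κ) :
    TensorProduct.equivFinsuppOfBasisRight β ((a ⊗ₜ[K] (1 : B)) * x) i =
      a * TensorProduct.equivFinsuppOfBasisRight β x i := by
  induction x using TensorProduct.induction_on with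
  | zero => simp
  | tmul m n =>
    rw [Algebra.TensorProduct.tmul_mul_tmul, one_mul,
      TensorProduct.equivFinsuppOfBasisRight_apply_tmul_apply,
      TensorProduct.equivFinsuppOfBasisRight_apply_tmul_apply, mul_smul_comm]
  | add x y hx hy => rw [mul_add, map_add, map_add, Finsupp.add_apply, Finsupp.add_apply, hx, hy,
      mul_add]

theorem E_right (a : A) (x : A ⊗[K] B) (i : κ) :
    TensorProduct.equivFinsuppOfBasisRight β (x * (a ⊗ₜ[K] (1 : B))) i =
      TensorProduct.equivFinsuppOfBasisRight β x i * a := by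
  induction x using TensorProduct.induction_on with
  | zero => simp
  | tmul m n =>
    rw [Algebra.TensorProduct.tmul_mul_tmul, mul_one,
      TensorProduct.equivFinsuppOfBasisRight_apply_tmul_apply,
      TensorProduct.equivFinsuppOfBasisRight_apply_tmul_apply, smul_mul_assoc]
  | add x y hx hy => rw [add_mul, map_add, map_add, Finsupp.add_apply, Finsupp.add_apply, hx, hy,
      add_mul]

end

theorem isSimpleRing_tensor (K A B : Type*) [Field K] [Ring A] [Algebra K A] [Ring B]
    [Algebra K B] [Algebra.IsCentral K A] [IsSimpleRing A] [IsSimpleRing B] :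
    IsSimpleRing (A ⊗[K] B) := by
  classical
  have hnt : Nontrivial (A ⊗[K] B) := inferInstance
  refine IsSimpleRing.of_eq_bot_or_eq_top fun I => ?_
  rw [or_iff_not_imp_left]
  intro hI
  let β := Module.Free.chooseBasis K B
  set κ := Module.Free.ChooseBasisIndex K B
  set E := TensorProduct.equivFinsuppOfBasisRight (M := A) β with hE
  -- a nonzero element of minimal length
  have hex : ∃ n : ℕ, ∃ x : A ⊗[K] B, x ≠ 0 ∧ x ∈ I ∧ (E x).support.card = n := by
    by_contra hcon
    push Not at hcon
    apply hI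
    rw [eq_bot_iff]
    intro x hx
    by_contra hx0
    exact hcon _ x (fun h => hx0 (by rw [h]; exact TwoSidedIdeal.zero_mem _)) hx rfl
  obtain ⟨x, hx0, hxI, hxn⟩ := Nat.find_spec hex
  have hmin : ∀ z : A ⊗[K] B, z ∈ I → (E z).support.card < (E x).support.card → z = 0 := by
    intro z hz hlt
    by_contra hz0
    rw [hxn] at hlt
    exact Nat.find_min hex hlt ⟨z, hz0, hz, rfl⟩
  have hEx : E x ≠ 0 := fun h => hx0 (E.injective (by rw [h, map_zero]))
  obtain ⟨i0, hi0⟩ := Finsupp.support_nonempty_iff.2 hEx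
  -- the ideal of leading coefficients
  let J : TwoSidedIdeal A := TwoSidedIdeal.mk'
    {a | ∃ z : A ⊗[K] B, z ∈ I ∧ (E z).support ⊆ (E x).support ∧ E z i0 = a}
    ⟨0, TwoSidedIdeal.zero_mem _, by simp, by simp⟩
    (by
      rintro a b ⟨z, hz, hs, rfl⟩ ⟨z', hz', hs', rfl⟩
      refine ⟨z + z', TwoSidedIdeal.add_mem _ hz hz', ?_, by rw [map_add, Finsupp.add_apply]⟩
      rw [map_add]
      exact (Finsupp.support_add).trans (Finset.union_subset hs hs'))
    (by
      rintro a ⟨z, hz, hs, rfl⟩
      refine ⟨-z, TwoSidedIdeal.neg_mem _ hz, ?_, by rw [map_neg, Finsupp.neg_apply]⟩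
      rw [map_neg, Finsupp.support_neg]
      exact hs)
    (by
      rintro a b ⟨z, hz, hs, rfl⟩
      refine ⟨(a ⊗ₜ 1) * z, TwoSidedIdeal.mul_mem_left _ _ _ hz, ?_, E_left β a z i0⟩
      intro j hj
      rw [Finsupp.mem_support_iff, E_left β a z j] at hj
      exact hs (Finsupp.mem_support_iff.2 fun h => hj (by rw [← hE, h, mul_zero])))
    (by
      rintro a b ⟨z, hz, hs, rfl⟩
      refine ⟨z * (b ⊗ₜ 1), TwoSidedIdeal.mul_mem_right _ _ _ hz, ?_, E_right β b z i0⟩
      intro j hj
      rw [Finsupp.mem_support_iff, E_right β b z j] at hj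
      exact hs (Finsupp.mem_support_iff.2 fun h => hj (by rw [← hE, h, zero_mul])))
  have h1J : (1 : A) ∈ J := IsSimpleRing.one_mem_of_ne_zero_mem J
    (Finsupp.mem_support_iff.1 hi0) (by
      rw [TwoSidedIdeal.mem_mk']
      exact ⟨x, hxI, subset_rfl, rfl⟩)
  rw [TwoSidedIdeal.mem_mk'] at h1J
  obtain ⟨z, hzI, hzs, hz1⟩ := h1J
  -- the coefficients of `z` are central
  have hcent : ∀ (a : A) (j : κ), a * E z j = E z j * a := by
    intro a j
    have hw : (a ⊗ₜ[K] (1 : B)) * z - z * (a ⊗ₜ[K] (1 : B)) = 0 := by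
      apply hmin
      · exact TwoSidedIdeal.sub_mem _ (TwoSidedIdeal.mul_mem_left _ _ _ hzI)
          (TwoSidedIdeal.mul_mem_right _ _ _ hzI)
      · apply Finset.card_lt_card
        rw [Finset.ssubset_iff_of_subset]
        · refine ⟨i0, hi0, ?_⟩
          rw [Finsupp.notMem_support_iff, map_sub, Finsupp.sub_apply, E_left β a z i0,
            E_right β a z i0, ← hE, hz1, mul_one, one_mul, sub_self]
        · intro j hj
          rw [Finsupp.mem_support_iff, map_sub, Finsupp.sub_apply, E_left β a z j,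
            E_right β a z j] at hj
          exact hzs (Finsupp.mem_support_iff.2 fun h => hj (by
            rw [← hE, h, mul_zero, zero_mul, sub_self]))
    have h2 := congrArg (fun v => E v j) hw
    simp only [map_sub, Finsupp.sub_apply, map_zero, Finsupp.coe_zero, Pi.zero_apply] at h2
    rw [E_left β a z j, E_right β a z j] at h2
    exact sub_eq_zero.1 h2
  have hk : ∀ j : κ, ∃ c : K, E z j = algebraMap K A c := by
    intro j
    have : E z j ∈ Subalgebra.center K A := by
      rw [Subalgebra.mem_center_iff]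
      intro a
      exact hcent a j
    exact (Algebra.IsCentral.mem_center_iff K).1 this
  choose c hc using hk
  -- `z` is `1 ⊗ b`
  let b : B := (E z).support.sum fun j => c j • β j
  have hzb : z = (1 : A) ⊗ₜ[K] b := by
    have h3 : z = E.symm (E z) := (E.symm_apply_apply z).symm
    rw [h3, TensorProduct.equivFinsuppOfBasisRight_symm_apply, Finsupp.sum]
    rw [TensorProduct.tmul_sum]
    refine Finset.sum_congr rfl fun j _ => ?_
    rw [hc, Algebra.algebraMap_eq_smul_one, TensorProduct.smul_tmul]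
  have hb0 : b ≠ 0 := by
    intro h
    rw [h, TensorProduct.tmul_zero] at hzb
    rw [hzb, map_zero] at hz1
    simp at hz1
  let J2 : TwoSidedIdeal B := TwoSidedIdeal.mk'
    {b' | (1 : A) ⊗ₜ[K] b' ∈ I}
    (by
      show (1 : A) ⊗ₜ[K] (0 : B) ∈ I
      rw [TensorProduct.tmul_zero]; exact TwoSidedIdeal.zero_mem _)
    (by
      intro p q hp hq
      show (1 : A) ⊗ₜ[K] (p + q) ∈ I
      rw [TensorProduct.tmul_add]; exact TwoSidedIdeal.add_mem _ hp hq)
    (by
      intro p hp
      show (1 : A) ⊗ₜ[K] (-p) ∈ I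
      rw [TensorProduct.tmul_neg]; exact TwoSidedIdeal.neg_mem _ hp)
    (by
      intro p q hq
      show (1 : A) ⊗ₜ[K] (p * q) ∈ I
      have : (1 : A) ⊗ₜ[K] (p * q) = (1 ⊗ₜ p) * (1 ⊗ₜ q) := by
        rw [Algebra.TensorProduct.tmul_mul_tmul, one_mul]
      rw [this]; exact TwoSidedIdeal.mul_mem_left _ _ _ hq)
    (by
      intro p q hp
      show (1 : A) ⊗ₜ[K] (p * q) ∈ I
      have : (1 : A) ⊗ₜ[K] (p * q) = (1 ⊗ₜ p) * (1 ⊗ₜ q) := by
        rw [Algebra.TensorProduct.tmul_mul_tmul, one_mul]
      rw [this]; exact TwoSidedIdeal.mul_mem_right _ _ _ hp)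
  have h1 : (1 : B) ∈ J2 := IsSimpleRing.one_mem_of_ne_zero_mem J2 hb0 (by
    rw [TwoSidedIdeal.mem_mk']
    show (1 : A) ⊗ₜ[K] b ∈ I
    rw [← hzb]; exact hzI)
  rw [TwoSidedIdeal.mem_mk'] at h1
  rw [← TwoSidedIdeal.one_mem_iff]
  exact h1

theorem isCentral_tensor (K A B : Type*) [Field K] [Ring A] [Algebra K A] [Ring B]
    [Algebra K B] [Algebra.IsCentral K A] [Algebra.IsCentral K B] [Nontrivial A] :
    Algebra.IsCentral K (A ⊗[K] B) where
  out := by
    intro z hz
    have h1 : z ∈ Subalgebra.centralizer K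
        (Algebra.TensorProduct.includeLeft : A →ₐ[K] A ⊗[K] B).range := by
      rw [Subalgebra.mem_centralizer_iff]
      intro w _
      exact (Subalgebra.mem_center_iff.1 hz w)
    rw [Subalgebra.centralizer_coe_range_includeLeft_eq_center_tensorProduct] at h1
    obtain ⟨w, hw⟩ := h1
    have key : ∀ w : (Subalgebra.center K A) ⊗[K] B, ∃ b : B,
        Algebra.TensorProduct.map (Subalgebra.center K A).val
        (AlgHom.id K B) w = (1 : A) ⊗ₜ[K] b := by
      intro w
      induction w using TensorProduct.induction_on with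
      | zero => exact ⟨0, by simp⟩
      | tmul a b =>
        obtain ⟨c, hc⟩ := (Algebra.IsCentral.mem_center_iff K).1 a.2
        refine ⟨c • b, ?_⟩
        rw [Algebra.TensorProduct.map_tmul]
        have : (Subalgebra.center K A).val a = algebraMap K A c := hc
        rw [this, Algebra.algebraMap_eq_smul_one, TensorProduct.smul_tmul]
        rfl
      | add p q hp hq =>
        obtain ⟨b, hb⟩ := hp
        obtain ⟨b', hb'⟩ := hq
        exact ⟨b + b', by rw [map_add, hb, hb', TensorProduct.tmul_add]⟩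
    obtain ⟨b, hb⟩ := key w
    have hzb : z = (1 : A) ⊗ₜ[K] b := by
      rw [← hb, ← hw]
      rfl
    have hinj : Function.Injective (Algebra.TensorProduct.includeRight : B →ₐ[K] A ⊗[K] B) :=
      Algebra.TensorProduct.includeRight_injective (FaithfulSMul.algebraMap_injective K A)
    have hbc : b ∈ Subalgebra.center K B := by
      rw [Subalgebra.mem_center_iff]
      intro b'
      apply hinj
      have h2 := Subalgebra.mem_center_iff.1 hz ((1 : A) ⊗ₜ[K] b')
      rw [hzb, Algebra.TensorProduct.tmul_mul_tmul, Algebra.TensorProduct.tmul_mul_tmul] at h2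
      simpa using h2
    obtain ⟨c, hc⟩ := (Algebra.IsCentral.mem_center_iff K).1 hbc
    rw [Algebra.mem_bot]
    refine ⟨c, ?_⟩
    rw [hzb, hc, Algebra.TensorProduct.algebraMap_apply, Algebra.algebraMap_eq_smul_one,
      Algebra.algebraMap_eq_smul_one, TensorProduct.smul_tmul]

end Pool.Agent.BrFive
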