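import Mathlib
import Pool.Agent.BrFive.CSATensor

/-! The group structure on the Brauer group of a field, given by the tensor product. -/

namespace Pool.Agent.BrFive

open TensorProduct

universe u

section

variable (K : Type u) [Field K]

/-- A finite dimensional central simple algebra. -/
def csaOf (A : Type u) [Ring A] [Algebra K A] [Algebra.IsCentral K A] [IsSimpleRing A]
    [FiniteDimensional K A] : CSA.{u, u} K where
  toAlgCat := AlgCat.of K A
  isCentral := inferInstanceAs (Algebra.IsCentral K A)
  isSimple := inferInstanceAs (IsSimpleRing A)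
  fin_dim := inferInstanceAs (FiniteDimensional K A)

/-- The tensor product `A ⊗ B` of two finite dimensional central simple algebras. -/
noncomputable def tensorCSA (A B : Type u) [Ring A] [Algebra K A] [Algebra.IsCentral K A]
    [IsSimpleRing A] [FiniteDimensional K A] [Ring B] [Algebra K B] [Algebra.IsCentral K B]
    [IsSimpleRing B] [FiniteDimensional K B] : CSA.{u, u} K :=
  @csaOf K _ (A ⊗[K] B) _ _ (isCentral_tensor K A B) (isSimpleRing_tensor K A B) _

/-- The tensor product of two finite dimensional central simple algebras. -/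
noncomputable def csaTensor (A B : CSA.{u, u} K) : CSA.{u, u} K := tensorCSA K A B

/-- The field as a central simple algebra over itself. -/
def csaOne : CSA.{u, u} K := csaOf K K

/-- The opposite algebra. -/
def csaOp (A : CSA.{u, u} K) : CSA.{u, u} K := csaOf K (A : Type u)ᵐᵒᵖ

variable {K}

theorem equiv_of_matrix {A B : CSA.{u, u} K} {ι κ : Type} [Fintype ι] [DecidableEq ι]
    [Nonempty ι] [Fintype κ] [DecidableEq κ] [Nonempty κ]
    (e : Matrix ι ι A ≃ₐ[K] Matrix κ κ B) : IsBrauerEquivalent A B :=
  ⟨Fintype.card ι, Fintype.card κ, Fintype.card_ne_zero, Fintype.card_ne_zero,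
    ⟨((Matrix.reindexAlgEquiv K A (Fintype.equivFin ι)).symm.trans e).trans
      (Matrix.reindexAlgEquiv K B (Fintype.equivFin κ))⟩⟩

theorem equiv_of_algEquiv {A B : CSA.{u, u} K} (e : A ≃ₐ[K] B) : IsBrauerEquivalent A B :=
  ⟨1, 1, one_ne_zero, one_ne_zero, ⟨e.mapMatrix⟩⟩

theorem equiv_tensor {A A' B B' : CSA.{u, u} K} (h : IsBrauerEquivalent A A')
    (h' : IsBrauerEquivalent B B') :
    IsBrauerEquivalent (csaTensor K A B) (csaTensor K A' B') := by
  obtain ⟨n, m, hn, hm, ⟨e⟩⟩ := h
  obtain ⟨p, q, hp, hq, ⟨e'⟩⟩ := h'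
  have : NeZero n := ⟨hn⟩
  have : NeZero m := ⟨hm⟩
  have : NeZero p := ⟨hp⟩
  have : NeZero q := ⟨hq⟩
  let e1 : Matrix (Fin n × Fin p) (Fin n × Fin p) (A ⊗[K] B) ≃ₐ[K]
      Matrix (Fin n) (Fin n) A ⊗[K] Matrix (Fin p) (Fin p) B :=
    (Matrix.kroneckerTMulAlgEquiv (Fin n) (Fin p) K K A B).symm
  let e2 : Matrix (Fin n) (Fin n) A ⊗[K] Matrix (Fin p) (Fin p) B ≃ₐ[K]
      Matrix (Fin m) (Fin m) A' ⊗[K] Matrix (Fin q) (Fin q) B' :=
    Algebra.TensorProduct.congr e e'
  let e3 : Matrix (Fin m) (Fin m) A' ⊗[K] Matrix (Fin q) (Fin q) B' ≃ₐ[K]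
      Matrix (Fin m × Fin q) (Fin m × Fin q) (A' ⊗[K] B') :=
    Matrix.kroneckerTMulAlgEquiv (Fin m) (Fin q) K K A' B'
  exact equiv_of_matrix (A := csaTensor K A B) (B := csaTensor K A' B') ((e1.trans e2).trans e3)

theorem equiv_comm (A B : CSA.{u, u} K) :
    IsBrauerEquivalent (csaTensor K A B) (csaTensor K B A) :=
  equiv_of_algEquiv (A := csaTensor K A B) (B := csaTensor K B A)
    (Algebra.TensorProduct.comm K A B)

theorem equiv_assoc (A B C : CSA.{u, u} K) :
    IsBrauerEquivalent (csaTensor K (csaTensor K A B) C) (csaTensor K A (csaTensor K B C)) :=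
  equiv_of_algEquiv (A := csaTensor K (csaTensor K A B) C) (B := csaTensor K A (csaTensor K B C))
    (Algebra.TensorProduct.assoc K K K A B C)

theorem equiv_one (A : CSA.{u, u} K) : IsBrauerEquivalent (csaTensor K (csaOne K) A) A :=
  equiv_of_algEquiv (A := csaTensor K (csaOne K) A) (Algebra.TensorProduct.lid K A)

theorem mulLeftRight_bij (A : CSA.{u, u} K) : Function.Bijective (AlgHom.mulLeftRight K A) := by
  have h1 : IsSimpleRing (A ⊗[K] (A : Type u)ᵐᵒᵖ) := isSimpleRing_tensor K A (A : Type u)ᵐᵒᵖ
  have hinj : Function.Injective (AlgHom.mulLeftRight K A) :=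
    RingHom.injective (AlgHom.mulLeftRight K A).toRingHom
  refine ⟨hinj, ?_⟩
  have hr : Module.finrank K (A ⊗[K] (A : Type u)ᵐᵒᵖ) = Module.finrank K (Module.End K A) := by
    rw [Module.finrank_tensorProduct, Module.finrank_linearMap,
      LinearEquiv.finrank_eq (MulOpposite.opLinearEquiv K : A ≃ₗ[K] (A : Type u)ᵐᵒᵖ).symm]
  exact (LinearMap.injective_iff_surjective_of_finrank_eq_finrank
    (f := (AlgHom.mulLeftRight K A).toLinearMap) hr).1 hinj

theorem equiv_inv (A : CSA.{u, u} K) : IsBrauerEquivalent (csaTensor K (csaOp K A) A) (csaOne K) := by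
  refine (equiv_comm _ _).trans ?_
  let e1 : A ⊗[K] (A : Type u)ᵐᵒᵖ ≃ₐ[K] Module.End K A :=
    AlgEquiv.ofBijective _ (mulLeftRight_bij A)
  let b := Module.finBasis K A
  let e2 : Module.End K A ≃ₐ[K] Matrix (Fin (Module.finrank K A)) (Fin (Module.finrank K A)) K :=
    algEquivMatrix b
  have hpos : Module.finrank K A ≠ 0 := Module.finrank_pos.ne'
  refine ⟨1, Module.finrank K A, one_ne_zero, hpos, ⟨?_⟩⟩
  let e3 : Matrix (Fin 1) (Fin 1) (csaTensor K A (csaOp K A)) ≃ₐ[K] csaTensor K A (csaOp K A) :=
    { toFun := fun M => M 0 0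
      invFun := fun a => Matrix.of fun _ _ => a
      left_inv := fun M => by ext i j; fin_cases i; fin_cases j; rfl
      right_inv := fun a => rfl
      map_mul' := fun M N => by simp [Matrix.mul_apply]
      map_add' := fun M N => rfl
      commutes' := fun r => by simp [Matrix.algebraMap_matrix_apply] }
  exact (e3.trans e1).trans e2

variable (K)

/-- The class of a central simple algebra in the Brauer group. -/
def brClass (A : CSA.{u, u} K) : BrauerGroup.{u, u} K := Quotient.mk (Brauer.CSA_Setoid K) A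

variable {K} in
theorem brClass_eq {A B : CSA.{u, u} K} (h : IsBrauerEquivalent A B) : brClass K A = brClass K B :=
  Quotient.sound (s := Brauer.CSA_Setoid K) h

/-- The product in the Brauer group: the class of the tensor product. -/
noncomputable def brMul (α β : BrauerGroup.{u, u} K) : BrauerGroup.{u, u} K :=
  Quotient.liftOn₂ α β (fun A B => brClass K (csaTensor K A B))
    fun _ _ _ _ h h' => brClass_eq (equiv_tensor h h')

theorem brMul_mk (A B : CSA.{u, u} K) :
    brMul K (brClass K A) (brClass K B) = brClass K (csaTensor K A B) := rfl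

variable {K} in
theorem exists_rep (α : BrauerGroup.{u, u} K) : ∃ A, α = brClass K A :=
  ⟨α.out, (Quotient.out_eq α).symm⟩

theorem brMul_assoc (α β γ : BrauerGroup.{u, u} K) :
    brMul K (brMul K α β) γ = brMul K α (brMul K β γ) := by
  obtain ⟨A, rfl⟩ := exists_rep α
  obtain ⟨B, rfl⟩ := exists_rep β
  obtain ⟨C, rfl⟩ := exists_rep γ
  exact brClass_eq (equiv_assoc A B C)

theorem one_brMul (α : BrauerGroup.{u, u} K) : brMul K (brClass K (csaOne K)) α = α := by
  obtain ⟨A, rfl⟩ := exists_rep α
  exact brClass_eq (equiv_one A)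

theorem brMul_comm (α β : BrauerGroup.{u, u} K) : brMul K α β = brMul K β α := by
  obtain ⟨A, rfl⟩ := exists_rep α
  obtain ⟨B, rfl⟩ := exists_rep β
  exact brClass_eq (equiv_comm A B)

theorem brMul_one (α : BrauerGroup.{u, u} K) : brMul K α (brClass K (csaOne K)) = α := by
  rw [brMul_comm, one_brMul]

/-- The inverse in the Brauer group: the class of the opposite of a representative. -/
noncomputable def brInv (α : BrauerGroup.{u, u} K) : BrauerGroup.{u, u} K :=
  brClass K (csaOp K α.out)

theorem brInv_mul (α : BrauerGroup.{u, u} K) :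
    brMul K (brInv K α) α = brClass K (csaOne K) := by
  have key : ∀ β : BrauerGroup.{u, u} K, brClass K α.out = β →
      brMul K (brInv K α) β = brClass K (csaOne K) := by
    rintro _ rfl
    exact brClass_eq (equiv_inv α.out)
  exact key α (Quotient.out_eq α)

/-- The Brauer group of a field as a commutative group: the product of the classes of `A` and `B`
is the class of `A ⊗ B`. -/
noncomputable instance brauerCommGroup : CommGroup (BrauerGroup.{u, u} K) where
  mul := brMul K
  mul_assoc := brMul_assoc K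
  one := brClass K (csaOne K)
  one_mul := one_brMul K
  mul_one := brMul_one K
  inv := brInv K
  inv_mul_cancel := brInv_mul K
  mul_comm := brMul_comm K

end

end Pool.Agent.BrFive
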