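import Mathlib
import Pool.Agent.BrFive.Azumaya

/-! Unramified models: if the parameters are units of `R`, the algebra comes from `R`. -/

namespace Pool.Agent.BrFive

open TensorProduct

section

variable {R A : Type*} [CommRing R] [Ring A] [Algebra R A] {ζ h a : R} {x y : A}

/-- The monomial basis of the subalgebra generated by a pair. -/
noncomputable def IsPair.basisSubalg (P : IsPair ζ h a x y)
    (hli : LinearIndependent R (mono x y)) :
    Module.Basis (Fin 5 × Fin 5) R P.subalg :=
  (Module.Basis.span hli).map (LinearEquiv.ofEq _ (Subalgebra.toSubmodule P.subalg) rfl)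

theorem IsPair.basisSubalg_apply (P : IsPair ζ h a x y)
    (hli : LinearIndependent R (mono x y)) (p : Fin 5 × Fin 5) :
    ((P.basisSubalg hli p : P.subalg) : A) = mono x y p := by
  simp only [IsPair.basisSubalg, Module.Basis.map_apply]
  exact congrArg Subtype.val (Module.Basis.span_apply hli p)

theorem IsPair.x_mem (P : IsPair ζ h a x y) : x ∈ P.subalg := by
  have := P.pow_mul_pow_mem 1 0
  exact P.mem_subalg.2 (by simpa using this)

theorem IsPair.y_mem (P : IsPair ζ h a x y) : y ∈ P.subalg := by
  have := P.pow_mul_pow_mem 0 1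
  exact P.mem_subalg.2 (by simpa using this)

theorem IsPair.subalg_pair (P : IsPair ζ h a x y) :
    IsPair ζ h a (⟨x, P.x_mem⟩ : P.subalg) (⟨y, P.y_mem⟩ : P.subalg) where
  x_pow := by
    apply Subtype.ext
    simpa using P.x_pow
  y_pow := by
    apply Subtype.ext
    simpa using P.y_pow
  comm := by
    apply Subtype.ext
    simpa using P.comm

theorem IsPair.subalg_isAzumaya [Nontrivial R] (hζ : 1 + ζ + ζ^2 + ζ^3 + ζ^4 = 0)
    (P : IsPair ζ h a x y) (h5 : IsUnit (5 : R)) (hh : IsUnit h) (ha : IsUnit a)
    (hli : LinearIndependent R (mono x y)) : IsAzumaya R P.subalg := by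
  refine P.subalg_pair.isAzumaya hζ h5 hh ha (P.basisSubalg hli) ?_
  intro p
  apply Subtype.ext
  rw [P.basisSubalg_apply]
  simp [mono]

end

section

variable {R K A : Type*} [CommRing R] [Field K] [Algebra R K] [Ring A] [Algebra K A]
  [Algebra R A] [IsScalarTower R K A] {ζ h a : R} {x y : A}

theorem IsPair.baseField (P : IsPair ζ h a x y) :
    IsPair (algebraMap R K ζ) (algebraMap R K h) (algebraMap R K a) x y where
  x_pow := by rw [← IsScalarTower.algebraMap_apply]; exact P.x_pow
  y_pow := by rw [← IsScalarTower.algebraMap_apply]; exact P.y_pow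
  comm := by rw [algebraMap_smul]; exact P.comm

/-- The base change to `K` of the `R`-algebra spanned by the monomials is `A`. -/
theorem IsPair.exists_model [Nontrivial R] (hinj : Function.Injective (algebraMap R K))
    (hζ : 1 + ζ + ζ^2 + ζ^3 + ζ^4 = 0)
    (P : IsPair ζ h a x y) (h5 : IsUnit (5 : R)) (hh : IsUnit h) (ha : IsUnit a)
    [Nontrivial A] (hrank : Module.finrank K A = 25) :
    IsAzumaya R P.subalg ∧ Nonempty ((K ⊗[R] P.subalg) ≃ₐ[K] A) := by
  have hinjA : Function.Injective (algebraMap R A) := by
    rw [IsScalarTower.algebraMap_eq R K A]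
    exact (algebraMap K A).injective.comp hinj
  have hli : LinearIndependent R (mono x y) := P.linearIndependent hζ h5 hh ha hinjA
  refine ⟨P.subalg_isAzumaya hζ h5 hh ha hli, ?_⟩
  have PK := P.baseField (K := K)
  have hζK : 1 + (algebraMap R K ζ) + (algebraMap R K ζ)^2 + (algebraMap R K ζ)^3
      + (algebraMap R K ζ)^4 = 0 := by
    simpa using congrArg (algebraMap R K) hζ
  have h5K : IsUnit (5 : K) := by
    have := h5.map (algebraMap R K)
    rwa [map_ofNat] at this
  have hliK : LinearIndependent K (mono x y) :=
    PK.linearIndependent hζK h5K (hh.map _) (ha.map _) (algebraMap K A).injective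
  have hfd : FiniteDimensional K A := Module.finite_of_finrank_pos (by rw [hrank]; norm_num)
  let bA : Module.Basis (Fin 5 × Fin 5) K A :=
    basisOfLinearIndependentOfCardEqFinrank hliK (by rw [hrank]; simp)
  have hbA : ∀ p, bA p = mono x y p := fun p => by
    simp [bA]
  let bB := (P.basisSubalg hli).baseChange K
  let F : (K ⊗[R] P.subalg) →ₐ[K] A :=
    Algebra.TensorProduct.lift (Algebra.ofId K A) P.subalg.val
      (fun r s => Algebra.commutes r (s : A))
  have hF : F.toLinearMap = (bB.equiv bA (Equiv.refl _)).toLinearMap := by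
    apply bB.ext
    intro p
    have e1 : (bB.equiv bA (Equiv.refl _)) (bB p) = mono x y p := by
      rw [Module.Basis.equiv_apply, Equiv.refl_apply, hbA]
    have e2 : F (bB p) = mono x y p := by
      have : bB p = 1 ⊗ₜ[R] (P.basisSubalg hli p) := Module.Basis.baseChange_apply _ _ _
      rw [this]
      have e3 : F (1 ⊗ₜ[R] (P.basisSubalg hli p)) =
          (Algebra.ofId K A) 1 * P.subalg.val (P.basisSubalg hli p) :=
        Algebra.TensorProduct.lift_tmul _ _ _ _ _
      rw [e3, map_one, one_mul]
      exact P.basisSubalg_apply hli p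
    rw [AlgHom.toLinearMap_apply, e2, LinearEquiv.coe_coe, e1]
  have hbij : Function.Bijective F := by
    have h1 : (F : (K ⊗[R] P.subalg) → A) = (bB.equiv bA (Equiv.refl _)) := by
      funext z
      exact LinearMap.congr_fun hF z
    rw [h1]
    exact LinearEquiv.bijective _
  exact ⟨AlgEquiv.ofBijective F hbij⟩

end

end Pool.Agent.BrFive
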