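import Mathlib
import Pool.Agent.BrFive.Model

/-! Changing the generators of a symbol algebra over a field. -/

namespace Pool.Agent.BrFive

section

variable {K A : Type*} [Field K] [Ring A] [Algebra K A] {ζ h a : K}

/-- `A` contains a pair of symbol generators with parameters `h, a`. -/
def HasPair (ζ : K) (A : Type*) [Ring A] [Algebra K A] (h a : K) : Prop :=
  ∃ x y : A, IsPair ζ h a x y

theorem HasPair.scale_left (H : HasPair ζ A h a) (c : K) : HasPair ζ A (h * c^5) a := by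
  obtain ⟨x, y, P⟩ := H
  refine ⟨c • x, y, ?_, P.y_pow, ?_⟩
  · rw [smul_pow, P.x_pow, mul_comm h, map_mul, Algebra.smul_def]
  · rw [mul_smul_comm, P.comm, smul_mul_assoc, smul_comm]

theorem HasPair.scale_right (H : HasPair ζ A h a) (c : K) : HasPair ζ A h (a * c^5) := by
  obtain ⟨x, y, P⟩ := H
  refine ⟨x, c • y, P.x_pow, ?_, ?_⟩
  · rw [smul_pow, P.y_pow, mul_comm a, map_mul, Algebra.smul_def]
  · rw [smul_mul_assoc, P.comm, mul_smul_comm, smul_comm]

theorem IsPair.x_unit {x y : A} (P : IsPair ζ h a x y) (hh : h ≠ 0) :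
    x * (h⁻¹ • x^4) = 1 ∧ (h⁻¹ • x^4) * x = 1 := by
  have e : x * x^4 = algebraMap K A h := by rw [← P.x_pow]; noncomm_ring
  have e' : x^4 * x = algebraMap K A h := by rw [← P.x_pow]; noncomm_ring
  constructor
  · rw [mul_smul_comm, e, Algebra.smul_def, ← map_mul, inv_mul_cancel₀ hh, map_one]
  · rw [smul_mul_assoc, e', Algebra.smul_def, ← map_mul, inv_mul_cancel₀ hh, map_one]

/-- Swap: `(h, a)` to `(a, h⁻¹)`. -/
theorem HasPair.swap (H : HasPair ζ A h a) (hh : h ≠ 0) : HasPair ζ A a h⁻¹ := by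
  obtain ⟨x, y, P⟩ := H
  obtain ⟨z, hz⟩ : ∃ z, z = h⁻¹ • x^4 := ⟨_, rfl⟩
  obtain ⟨h1, h2⟩ := P.x_unit hh
  rw [← hz] at h1 h2
  refine ⟨y, z, P.y_pow, ?_, ?_⟩
  · have e1 : z^5 * x^5 = 1 := by
      have hc : Commute z x := by rw [Commute, SemiconjBy, h2, h1]
      rw [← hc.mul_pow, h2, one_pow]
    have e2 : z^5 * algebraMap K A h = 1 := by rw [← P.x_pow]; exact e1
    calc z^5 = z^5 * (algebraMap K A h * algebraMap K A h⁻¹) := by
          rw [← map_mul, mul_inv_cancel₀ hh, map_one, mul_one]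
      _ = algebraMap K A h⁻¹ := by rw [← mul_assoc, e2, one_mul]
  · -- z * y = ζ • (y * z)
    have e : y * x = ζ • (x * y) := P.comm
    calc z * y = z * (y * (x * z)) := by rw [h1, mul_one]
      _ = z * ((y * x) * z) := by rw [mul_assoc]
      _ = ζ • ((z * x) * y * z) := by
          rw [e, smul_mul_assoc, mul_smul_comm]; simp only [mul_assoc]
      _ = ζ • (y * z) := by rw [h2, one_mul]

theorem HasPair.inv (H : HasPair ζ A h a) (hh : h ≠ 0) (ha : a ≠ 0) : HasPair ζ A h⁻¹ a⁻¹ :=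
  (H.swap hh).swap ha

/-- `(h, a)` to `(a⁻¹, h)`. -/
theorem HasPair.swap' (H : HasPair ζ A h a) (hh : h ≠ 0) (ha : a ≠ 0) : HasPair ζ A a⁻¹ h := by
  have := (H.inv hh ha).swap (inv_ne_zero hh)
  rwa [inv_inv] at this

/-- `(h, a)` to `(h, h a)`. -/
theorem HasPair.mul_right (hζ : 1 + ζ + ζ^2 + ζ^3 + ζ^4 = 0) (H : HasPair ζ A h a) :
    HasPair ζ A h (h * a) := by
  obtain ⟨x, y, P⟩ := H
  have h5 := zeta_pow_five hζ
  refine ⟨x, x * y, P.x_pow, ?_, ?_⟩
  · have e : ∀ n : ℕ, (x * y)^n = ζ ^ (n * (n - 1) / 2) • (x^n * y^n) := by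
      intro n
      induction n with
      | zero => simp
      | succ n ih =>
        rw [pow_succ, ih, smul_mul_assoc]
        have := P.mono_mul n n 1 1
        rw [pow_one, pow_one] at this
        rw [this, smul_smul, ← pow_add]
        congr 2
        simp only [Nat.add_sub_cancel, one_mul]
        have h1 : (n + 1) * n = n * (n - 1) + 2 * n := by
          cases n with
          | zero => rfl
          | succ m => simp only [Nat.add_sub_cancel]; ring
        rw [h1]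
        omega
    rw [e 5, P.x_pow, P.y_pow, ← map_mul]
    have : ζ ^ (5 * (5 - 1) / 2) = 1 := by
      have : 5 * (5 - 1) / 2 = 5 * 2 := by norm_num
      rw [this, pow_mul, h5, one_pow]
    rw [this, one_smul]
  · rw [mul_assoc, P.comm, mul_smul_comm]

/-- The polynomial `c0 + c1 (ζ^k T) + ...`. -/
noncomputable def thetaP (ζ c0 c1 c2 c3 c4 : K) (k : ℕ) : Polynomial K :=
  Polynomial.C c0 + Polynomial.C c1 * (Polynomial.C ζ^k * Polynomial.X)
    + Polynomial.C c2 * (Polynomial.C ζ^k * Polynomial.X)^2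
    + Polynomial.C c3 * (Polynomial.C ζ^k * Polynomial.X)^3
    + Polynomial.C c4 * (Polynomial.C ζ^k * Polynomial.X)^4

theorem aeval_thetaP (ζ c0 c1 c2 c3 c4 : K) (k : ℕ) (y : A) :
    Polynomial.aeval y (thetaP ζ c0 c1 c2 c3 c4 k) =
      c0 • (1 : A) + (c1 * ζ^k) • y + (c2 * (ζ^k)^2) • y^2 + (c3 * (ζ^k)^3) • y^3
        + (c4 * (ζ^k)^4) • y^4 := by
  simp only [thetaP, map_add, map_mul, map_pow, Polynomial.aeval_C, Polynomial.aeval_X]
  simp only [← map_pow, ← Algebra.smul_def, smul_pow, smul_smul]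
  rw [Algebra.algebraMap_eq_smul_one]

theorem thetaP_prod (hζ : 1 + ζ + ζ^2 + ζ^3 + ζ^4 = 0) (c0 c1 c2 c3 c4 : K) :
    thetaP ζ c0 c1 c2 c3 c4 0 * thetaP ζ c0 c1 c2 c3 c4 1 * thetaP ζ c0 c1 c2 c3 c4 2
      * thetaP ζ c0 c1 c2 c3 c4 3 * thetaP ζ c0 c1 c2 c3 c4 4 =
      nf (Polynomial.C c0) (Polynomial.C c1) (Polynomial.C c2) (Polynomial.C c3)
        (Polynomial.C c4) (Polynomial.X^5) := by
  have hζ' : 1 + Polynomial.C ζ + Polynomial.C ζ^2 + Polynomial.C ζ^3 + Polynomial.C ζ^4 = 0 := by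
    have := congrArg Polynomial.C hζ
    simpa using this
  rw [← nf_prod (Polynomial.C ζ) Polynomial.X hζ']
  simp only [thetaP, pow_zero, pow_one, one_mul]

theorem aeval_nf {y : A} (hy : y^5 = algebraMap K A a) (c0 c1 c2 c3 c4 : K) :
    Polynomial.aeval y (nf (Polynomial.C c0) (Polynomial.C c1) (Polynomial.C c2)
      (Polynomial.C c3) (Polynomial.C c4) (Polynomial.X^5)) =
      algebraMap K A (nf c0 c1 c2 c3 c4 a) := by
  simp only [nf, map_add, map_sub, map_mul, map_pow, Polynomial.aeval_C, Polynomial.aeval_X,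
    hy, map_ofNat]

theorem IsPair.x_mul_aeval {x y : A} (P : IsPair ζ h a x y) (c0 c1 c2 c3 c4 : K) (k : ℕ) :
    x * Polynomial.aeval y (thetaP ζ c0 c1 c2 c3 c4 (k + 1)) =
      Polynomial.aeval y (thetaP ζ c0 c1 c2 c3 c4 k) * x := by
  have e1 : ∀ (n : ℕ) (c : K), (c * (ζ^(k+1))^n) • (x * y^n) = (c * (ζ^k)^n) • (y^n * x) := by
    intro n c
    have := P.y_pow_mul_x_pow 1 n
    rw [pow_one, one_mul] at this
    rw [this, smul_smul, pow_succ, mul_pow, mul_assoc]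
  rw [aeval_thetaP, aeval_thetaP]
  simp only [mul_add, add_mul, smul_mul_assoc, mul_smul_comm, mul_one, one_mul]
  have f1 := e1 1 c1
  simp only [pow_one] at f1
  rw [f1, e1 2, e1 3, e1 4]

theorem twisted_pow {B : Type*} [Ring B] (x : B) (Q : ℕ → B)
    (hx : ∀ k, x * Q (k + 1) = Q k * x) :
    (Q 4 * x)^5 = Q 4 * (Q 3 * (Q 2 * (Q 1 * (Q 0 * x^5)))) := by
  have hn : ∀ n k, x^n * Q (k + n) = Q k * x^n := by
    intro n
    induction n with
    | zero => intro k; simp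
    | succ n ih =>
      intro k
      rw [pow_succ, mul_assoc, ← add_assoc, hx, ← mul_assoc, ih, mul_assoc]
  have p2 : (Q 4 * x)^2 = Q 4 * (Q 3 * x^2) := by
    rw [pow_two, mul_assoc, ← mul_assoc x, hx 3, pow_two, mul_assoc]
  have p3 : (Q 4 * x)^3 = Q 4 * (Q 3 * (Q 2 * x^3)) := by
    rw [pow_succ, p2]
    simp only [mul_assoc]
    rw [← mul_assoc (x^2), hn 2 2, mul_assoc, ← pow_succ]
  have p4 : (Q 4 * x)^4 = Q 4 * (Q 3 * (Q 2 * (Q 1 * x^4))) := by
    rw [pow_succ, p3]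
    simp only [mul_assoc]
    rw [← mul_assoc (x^3), hn 3 1, mul_assoc, ← pow_succ]
  rw [pow_succ, p4]
  simp only [mul_assoc]
  rw [← mul_assoc (x^4), hn 4 0, mul_assoc, ← pow_succ]

/-- Multiply the first parameter by a norm from `K[y]`. -/
theorem HasPair.norm_left (hζ : 1 + ζ + ζ^2 + ζ^3 + ζ^4 = 0) (H : HasPair ζ A h a)
    (c0 c1 c2 c3 c4 : K) : HasPair ζ A (h * nf c0 c1 c2 c3 c4 a) a := by
  obtain ⟨x, y, P⟩ := H
  have hcc : ∀ p r : Polynomial K, Polynomial.aeval y p * Polynomial.aeval y r =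
      Polynomial.aeval y r * Polynomial.aeval y p := fun p r => by
    rw [← map_mul, mul_comm, map_mul]
  refine ⟨Polynomial.aeval y (thetaP ζ c0 c1 c2 c3 c4 4) * x, y, ?_, P.y_pow, ?_⟩
  · rw [twisted_pow x (fun k => Polynomial.aeval y (thetaP ζ c0 c1 c2 c3 c4 k))
      (fun k => P.x_mul_aeval c0 c1 c2 c3 c4 k)]
    simp only [← mul_assoc, ← map_mul]
    have e : thetaP ζ c0 c1 c2 c3 c4 4 * thetaP ζ c0 c1 c2 c3 c4 3 * thetaP ζ c0 c1 c2 c3 c4 2
      * thetaP ζ c0 c1 c2 c3 c4 1 * thetaP ζ c0 c1 c2 c3 c4 0 =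
      nf (Polynomial.C c0) (Polynomial.C c1) (Polynomial.C c2) (Polynomial.C c3)
        (Polynomial.C c4) (Polynomial.X^5) := by
      rw [← thetaP_prod hζ]; ring
    rw [e, aeval_nf P.y_pow, P.x_pow, ← map_mul, mul_comm]
  · have : y * Polynomial.aeval y (thetaP ζ c0 c1 c2 c3 c4 4) =
        Polynomial.aeval y (thetaP ζ c0 c1 c2 c3 c4 4) * y := by
      have := hcc Polynomial.X (thetaP ζ c0 c1 c2 c3 c4 4)
      simpa using this
    rw [← mul_assoc, this, mul_assoc, P.comm, mul_smul_comm, mul_assoc]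

/-- Multiply the second parameter by a norm from `K[x]`. -/
theorem HasPair.norm_right (hζ : 1 + ζ + ζ^2 + ζ^3 + ζ^4 = 0) (H : HasPair ζ A h a)
    (hh : h ≠ 0) (ha : a ≠ 0) (c0 c1 c2 c3 c4 : K) (hn : nf c0 c1 c2 c3 c4 h ≠ 0) :
    HasPair ζ A h (a * nf c0 c1 c2 c3 c4 h) := by
  have h1 : HasPair ζ A a h⁻¹ := H.swap hh
  have h2 := h1.norm_left hζ c0 (c4 * h) (c3 * h) (c2 * h) (c1 * h)
  rw [← nf_inv _ _ _ _ _ hh] at h2
  have h3 := h2.swap (mul_ne_zero ha hn)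
  have h4 := h3.inv (inv_ne_zero hh) (inv_ne_zero (mul_ne_zero ha hn))
  rwa [inv_inv, inv_inv] at h4

end

end Pool.Agent.BrFive
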