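import Mathlib
import Pool.Agent.BrFive.Moves

/-! A pair acting on a five dimensional space gives a norm equation. -/

namespace Pool.Agent.BrFive

section

variable {K : Type*} [Field K] {ζ h a : K}

theorem HasPair.map {A B : Type*} [Ring A] [Algebra K A] [Ring B] [Algebra K B]
    (H : HasPair ζ A h a) (f : A →ₐ[K] B) : HasPair ζ B h a := by
  obtain ⟨x, y, P⟩ := H
  refine ⟨f x, f y, ?_, ?_, ?_⟩
  · rw [← map_pow, P.x_pow, AlgHom.commutes]
  · rw [← map_pow, P.y_pow, AlgHom.commutes]
  · rw [← map_mul, P.comm, map_smul, map_mul]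

theorem IsPair.y_mul_aeval {A : Type*} [Ring A] [Algebra K A] {x y : A}
    (P : IsPair ζ h a x y) (c0 c1 c2 c3 c4 : K) (k : ℕ) :
    y * Polynomial.aeval x (thetaP ζ c0 c1 c2 c3 c4 k) =
      Polynomial.aeval x (thetaP ζ c0 c1 c2 c3 c4 (k + 1)) * y := by
  have e1 : ∀ (n : ℕ) (c : K), (c * (ζ^k)^n) • (y * x^n) = (c * (ζ^(k+1))^n) • (x^n * y) := by
    intro n c
    rw [P.y_mul_x_pow, smul_smul, pow_succ, mul_pow, mul_assoc]
  rw [aeval_thetaP, aeval_thetaP]
  simp only [mul_add, add_mul, smul_mul_assoc, mul_smul_comm, mul_one, one_mul]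
  have f1 := e1 1 c1
  simp only [pow_one] at f1
  rw [f1, e1 2, e1 3, e1 4]

theorem exists_nf_of_pair {W : Type*} [AddCommGroup W] [Module K W]
    (hζ : 1 + ζ + ζ^2 + ζ^3 + ζ^4 = 0) (h5 : (5 : K) ≠ 0)
    (hW : Module.finrank K W = 5) {x y : Module.End K W} (P : IsPair ζ h a x y)
    (hh : h ≠ 0) : ∃ c0 c1 c2 c3 c4 : K, nf c0 c1 c2 c3 c4 h = a := by
  by_cases hc : ∃ c : K, c^5 = h
  · obtain ⟨c, rfl⟩ := hc
    have hc0 : c ≠ 0 := by
      rintro rfl
      exact hh (by norm_num)
    refine ⟨1 + (a-1)/5, (a-1)/5/c, (a-1)/5/c^2, (a-1)/5/c^3, (a-1)/5/c^4, ?_⟩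
    rw [nf_of_pow _ _ hc0]
    field_simp
    ring
  · push Not at hc
    have hirr : Irreducible (Polynomial.X ^ 5 - Polynomial.C h) :=
      X_pow_sub_C_irreducible_of_prime (by norm_num) hc
    have hfd : FiniteDimensional K W := Module.finite_of_finrank_pos (by rw [hW]; norm_num)
    have hnt : Nontrivial W := Module.nontrivial_of_finrank_pos (R := K) (by rw [hW]; norm_num)
    obtain ⟨e, he⟩ := exists_ne (0 : W)
    have hann : ∀ p : Polynomial K, p.degree < 5 → (Polynomial.aeval x p) e = 0 → p = 0 := by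
      intro p hp hpe
      by_contra hp0
      have hcop : IsCoprime (Polynomial.X ^ 5 - Polynomial.C h) p := by
        rw [hirr.coprime_iff_not_dvd]
        intro hdvd
        have := Polynomial.degree_le_of_dvd hdvd hp0
        rw [Polynomial.degree_X_pow_sub_C (by norm_num)] at this
        exact absurd (lt_of_le_of_lt this hp) (by norm_num)
      obtain ⟨r, s, hrs⟩ := hcop
      have h1 := congrArg (fun q => (Polynomial.aeval x q) e) hrs
      simp only [map_add, map_mul, map_sub, map_pow, Polynomial.aeval_X, Polynomial.aeval_C,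
        P.x_pow, sub_self, mul_zero, zero_add, map_one, Module.End.mul_apply, hpe, map_zero,
        Module.End.one_apply] at h1
      exact he h1.symm
    have hli : LinearIndependent K (fun i : Fin 5 => (x ^ (i : ℕ)) e) := by
      rw [Fintype.linearIndependent_iff]
      intro c hc0
      have hz := hann (∑ i : Fin 5, Polynomial.C (c i) * Polynomial.X ^ (i : ℕ)) (by
          refine lt_of_le_of_lt (Polynomial.degree_sum_le _ _) ?_
          rw [Finset.sup_lt_iff (WithBot.bot_lt_coe 5)]
          intro i _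
          refine lt_of_le_of_lt (Polynomial.degree_C_mul_X_pow_le _ _) ?_
          exact_mod_cast i.isLt) (by
          simp only [map_sum, map_mul, map_pow, Polynomial.aeval_X, Polynomial.aeval_C,
            LinearMap.sum_apply, Module.End.mul_apply, Module.algebraMap_end_apply]
          exact hc0)
      intro i
      have h2 := congrArg (fun q => Polynomial.coeff q (i : ℕ)) hz
      simp only [Polynomial.finsetSum_coeff, Polynomial.coeff_C_mul, Polynomial.coeff_X_pow,
        Polynomial.coeff_zero] at h2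
      have h3 : ∀ j : Fin 5, (c j * if (i : ℕ) = (j : ℕ) then (1:K) else 0) =
          if j = i then c i else 0 := by
        intro j
        by_cases hji : j = i
        · subst hji; simp
        · have : ¬ (i : ℕ) = (j : ℕ) := fun hh => hji (Fin.ext hh.symm)
          simp [this, hji]
      simp only [h3, Finset.sum_ite_eq', Finset.mem_univ, if_true] at h2
      exact h2
    let bW : Module.Basis (Fin 5) K W :=
      basisOfLinearIndependentOfCardEqFinrank hli (by rw [hW]; simp)
    have hbW : ∀ i, bW i = (x ^ (i : ℕ)) e := fun i => by simp [bW]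
    have hye := bW.sum_repr (y e)
    simp only [hbW] at hye
    rw [Fin.sum_univ_five] at hye
    refine ⟨bW.repr (y e) 0, bW.repr (y e) 1, bW.repr (y e) 2, bW.repr (y e) 3,
      bW.repr (y e) 4, ?_⟩
    generalize bW.repr (y e) 0 = c0 at hye ⊢
    generalize bW.repr (y e) 1 = c1 at hye ⊢
    generalize bW.repr (y e) 2 = c2 at hye ⊢
    generalize bW.repr (y e) 3 = c3 at hye ⊢
    generalize bW.repr (y e) 4 = c4 at hye ⊢
    have hy1 : y e = (Polynomial.aeval x (thetaP ζ c0 c1 c2 c3 c4 0)) e := by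
      rw [aeval_thetaP, ← hye]
      simp
    set Q : ℕ → Module.End K W := fun k => Polynomial.aeval x (thetaP ζ c0 c1 c2 c3 c4 k) with hQ
    have hyQ : ∀ k (w : W), y (Q k w) = Q (k+1) (y w) := by
      intro k w
      have := congrArg (fun T : Module.End K W => T w) (P.y_mul_aeval c0 c1 c2 c3 c4 k)
      simpa [Module.End.mul_apply] using this
    have hy5 : (y^5) e = (Q 4 * Q 3 * Q 2 * Q 1 * Q 0) e := by
      have hp : (y^5) e = y (y (y (y (y e)))) := by
        simp [pow_succ, Module.End.mul_apply]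
      rw [hp]
      have hy1' : y e = Q 0 e := hy1
      have e1 : y (y e) = Q 1 (Q 0 e) := by rw [hy1', hyQ, hy1']
      have e2 : y (y (y e)) = Q 2 (Q 1 (Q 0 e)) := by
        rw [e1, hyQ, hyQ, hy1']
      have e3 : y (y (y (y e))) = Q 3 (Q 2 (Q 1 (Q 0 e))) := by
        rw [e2, hyQ, hyQ, hyQ, hy1']
      rw [e3, hyQ, hyQ, hyQ, hyQ, hy1']
      simp only [Module.End.mul_apply]
    have hprod : Q 4 * Q 3 * Q 2 * Q 1 * Q 0 =
        algebraMap K (Module.End K W) (nf c0 c1 c2 c3 c4 h) := by
      simp only [hQ, ← map_mul]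
      have e : thetaP ζ c0 c1 c2 c3 c4 4 * thetaP ζ c0 c1 c2 c3 c4 3 * thetaP ζ c0 c1 c2 c3 c4 2
        * thetaP ζ c0 c1 c2 c3 c4 1 * thetaP ζ c0 c1 c2 c3 c4 0 =
        nf (Polynomial.C c0) (Polynomial.C c1) (Polynomial.C c2) (Polynomial.C c3)
          (Polynomial.C c4) (Polynomial.X^5) := by
        rw [← thetaP_prod hζ]; ring
      rw [e, aeval_nf P.x_pow]
    rw [hprod, P.y_pow, Module.algebraMap_end_apply, Module.algebraMap_end_apply] at hy5
    have h6 : (a - nf c0 c1 c2 c3 c4 h) • e = 0 := by rw [sub_smul, hy5, sub_self]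
    rcases smul_eq_zero.1 h6 with h7 | h7
    · exact (sub_eq_zero.1 h7).symm
    · exact absurd h7 he

end

end Pool.Agent.BrFive
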