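import Mathlib
import Pool.Agent.BrFive.Rep

/-! A pair in a matrix algebra. -/

namespace Pool.Agent.BrFive

section

variable {K L : Type*} [Field K] [Field L] [Algebra K L]

/-- The weighted cyclic permutation matrix. -/
def shiftM (a : L) : Matrix (Fin 5) (Fin 5) L :=
  !![0, 1, 0, 0, 0; 0, 0, 1, 0, 0; 0, 0, 0, 1, 0; 0, 0, 0, 0, 1; a, 0, 0, 0, 0]

theorem shiftM_pow (a : L) : (shiftM a)^5 = algebraMap L _ a := by
  have h2 : shiftM a * shiftM a =
      !![0, 0, 1, 0, 0; 0, 0, 0, 1, 0; 0, 0, 0, 0, 1; a, 0, 0, 0, 0; 0, a, 0, 0, 0] := by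
    ext i j
    fin_cases i <;> fin_cases j <;> simp [shiftM, Matrix.mul_apply, Fin.sum_univ_succ]
  have h4 : (shiftM a * shiftM a) * (shiftM a * shiftM a) =
      !![0, 0, 0, 0, 1; a, 0, 0, 0, 0; 0, a, 0, 0, 0; 0, 0, a, 0, 0; 0, 0, 0, a, 0] := by
    rw [h2]
    ext i j
    fin_cases i <;> fin_cases j <;> simp [Matrix.mul_apply, Fin.sum_univ_succ]
  have h5 : (shiftM a)^5 = (shiftM a * shiftM a) * (shiftM a * shiftM a) * shiftM a := by
    simp only [pow_succ, pow_zero, one_mul, mul_assoc]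
  rw [h5, h4]
  ext i j
  fin_cases i <;> fin_cases j <;>
    simp [shiftM, Matrix.mul_apply, Fin.sum_univ_succ, Matrix.algebraMap_matrix_apply]

theorem isPair_matrix {ζ h a : K} (hζ : 1 + ζ + ζ^2 + ζ^3 + ζ^4 = 0) (s : L)
    (hs : s^5 = algebraMap K L h) :
    IsPair ζ h a (Matrix.diagonal fun i : Fin 5 => s * (algebraMap K L ζ)^(i : ℕ))
      (shiftM (algebraMap K L a)) where
  x_pow := by
    have h5 := zeta_pow_five hζ
    rw [Matrix.diagonal_pow, Matrix.algebraMap_eq_diagonal]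
    congr 1
    funext i
    simp only [Pi.pow_apply, Pi.algebraMap_apply, mul_pow, hs]
    rw [← pow_mul, mul_comm (i : ℕ) 5, pow_mul, ← map_pow, h5, map_one, one_pow, mul_one]
  y_pow := by
    rw [shiftM_pow, ← IsScalarTower.algebraMap_apply]
  comm := by
    have h5 := zeta_pow_five hζ
    have h5' : (algebraMap K L ζ)^5 = 1 := by rw [← map_pow, h5, map_one]
    ext i j
    rw [Matrix.mul_diagonal, Matrix.smul_apply, Matrix.diagonal_mul, Algebra.smul_def]
    fin_cases i <;> fin_cases j <;> simp [shiftM] <;> try ring1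
    linear_combination (-(s * (algebraMap K L) a)) * h5'

theorem hasPair_matrix {ζ h a : K} (hζ : 1 + ζ + ζ^2 + ζ^3 + ζ^4 = 0) (s : L)
    (hs : s^5 = algebraMap K L h) :
    HasPair ζ (Matrix (Fin 5) (Fin 5) L) h a :=
  ⟨_, _, isPair_matrix hζ s hs⟩

end

end Pool.Agent.BrFive
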