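import Mathlib
import Pool.Agent.BrFive.MatrixPair

/-! The two presentations of the algebra. -/

namespace Pool.Agent.BrFive

section

variable {K : Type*} [Field K] {ζ : K}

section

variable {A : Type*} [Ring A] [Algebra K A] {h a : K}

theorem HasPair.norm_left_pow (hζ : 1 + ζ + ζ^2 + ζ^3 + ζ^4 = 0) (H : HasPair ζ A h a)
    (c0 c1 c2 c3 c4 : K) (n : ℕ) : HasPair ζ A (h * (nf c0 c1 c2 c3 c4 a)^n) a := by
  induction n with
  | zero => simpa using H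
  | succ n ih =>
    rw [pow_succ, ← mul_assoc]
    exact ih.norm_left hζ _ _ _ _ _

theorem HasPair.norm_right_pow (hζ : 1 + ζ + ζ^2 + ζ^3 + ζ^4 = 0) (H : HasPair ζ A h a)
    (hh : h ≠ 0) (ha : a ≠ 0) (c0 c1 c2 c3 c4 : K) (hn : nf c0 c1 c2 c3 c4 h ≠ 0) (n : ℕ) :
    HasPair ζ A h (a * (nf c0 c1 c2 c3 c4 h)^n) := by
  induction n with
  | zero => simpa using H
  | succ n ih =>
    rw [pow_succ, ← mul_assoc]
    exact ih.norm_right hζ hh (mul_ne_zero ha (pow_ne_zero _ hn)) _ _ _ _ _ hn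

end

/-- The data of the surface, inside its function field. -/
structure Data (K : Type*) [Field K] where
  (t b lam μ ρ u X g U V y : K)
  hμ : μ^5 = lam
  hρ : ρ^5 = 5 * (2*u+1)
  hb : b = (lam - t) * (1 - lam * t)^4
  hS : y^5 = b * U - t * V
  hUV : U - V = 5 * (2*u+1) * g
  hU : nf (-X) u 1 0 0 g = (1+X)^2 * U
  hV : nf (-X) (-1-u) 1 0 0 g = (1+X)^2 * V
  y0 : y ≠ 0
  t0 : t ≠ 0
  b0 : b ≠ 0
  g0 : g ≠ 0
  U0 : U ≠ 0
  V0 : V ≠ 0
  X1 : 1 + X ≠ 0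
  lam0 : lam ≠ 0
  ρ0 : ρ ≠ 0

variable (D : Data K)

/-- First part of the chain: `(U, t)` to `(V, b U)`. -/
theorem chain1 {A : Type*} [Ring A] [Algebra K A] (hζ : 1 + ζ + ζ^2 + ζ^3 + ζ^4 = 0)
    (H : HasPair ζ A D.U D.t) : HasPair ζ A D.V (D.b * D.U) := by
  obtain ⟨t, b, lam, μ, ρ, u, X, g, U, V, y, hμ, hρ, hb, hS, hUV, hU, hV, y0, t0, b0, g0, U0, V0,
    X1, lam0, ρ0⟩ := D
  simp only at H ⊢
  have μ0 : μ ≠ 0 := by
    rintro rfl
    apply lam0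
    rw [← hμ]; norm_num
  -- multiply the first slot by norms from `t`
  have H1 := H.norm_left hζ 1 (-μ⁻¹) 0 0 0
  have H2 := H1.norm_left_pow hζ 1 (-μ) 0 0 0 4
  have H3 := H2.scale_left μ
  have e3 : U * nf 1 (-μ⁻¹) 0 0 0 t * (nf 1 (-μ) 0 0 0 t)^4 * μ^5 = b * U := by
    rw [nf_one_sub, nf_one_sub, hμ, hb, inv_pow, hμ]
    field_simp
  rw [e3] at H3
  have H4 := H3.scale_left y⁻¹
  have hneg : nf 1 (-1) 0 0 0 (b * U * y⁻¹^5) = - (t * V) / y^5 := by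
    rw [nf_one_sub]
    field_simp
    linear_combination hS
  have hne : nf 1 (-1) 0 0 0 (b * U * y⁻¹^5) ≠ 0 := by
    rw [hneg]
    exact div_ne_zero (neg_ne_zero.2 (mul_ne_zero t0 V0)) (pow_ne_zero _ y0)
  have H5 := H4.norm_right_pow hζ (mul_ne_zero (mul_ne_zero b0 U0) (pow_ne_zero _ (inv_ne_zero y0)))
    t0 1 (-1) 0 0 0 hne 4
  rw [hneg] at H5
  have H6 := H5.scale_right (y^4/(t*V))
  have e6 : t * (-(t * V) / y ^ 5) ^ 4 * (y ^ 4 / (t * V)) ^ 5 = V⁻¹ := by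
    field_simp
  rw [e6] at H6
  have H7 := H6.scale_left y
  have e7 : b * U * y⁻¹ ^ 5 * y ^ 5 = b * U := by field_simp
  rw [e7] at H7
  have H8 := (H7.swap (mul_ne_zero b0 U0)).inv (inv_ne_zero V0) (inv_ne_zero (mul_ne_zero b0 U0))
  rwa [inv_inv, inv_inv] at H8

/-- The symbol algebra `(V, U)` is split. -/
theorem chain2 (hζ : 1 + ζ + ζ^2 + ζ^3 + ζ^4 = 0) :
    HasPair ζ (Matrix (Fin 5) (Fin 5) K) D.V D.U := by
  obtain ⟨t, b, lam, μ, ρ, u, X, g, U, V, y, hμ, hρ, hb, hS, hUV, hU, hV, y0, t0, b0, g0, U0, V0,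
    X1, lam0, ρ0⟩ := D
  simp only
  have H0 : HasPair ζ (Matrix (Fin 5) (Fin 5) K) (1 : K) g :=
    hasPair_matrix hζ (1 : K) (by simp)
  have H1 := H0.swap one_ne_zero
  rw [inv_one] at H1
  have hU0 : nf (-X) u 1 0 0 g ≠ 0 := by
    rw [hU]; exact mul_ne_zero (pow_ne_zero _ X1) U0
  have hV0 : nf (-X) (-1-u) 1 0 0 g ≠ 0 := by
    rw [hV]; exact mul_ne_zero (pow_ne_zero _ X1) V0
  have H2 := H1.norm_right hζ g0 one_ne_zero (-X) u 1 0 0 hU0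
  have H3 := H2.norm_right_pow hζ g0 (mul_ne_zero one_ne_zero hU0) (-X) (-1-u) 1 0 0 hV0 4
  rw [hU, hV] at H3
  have H4 := H3.scale_right (1/((1+X)^2*V))
  have e4 : 1 * ((1+X)^2*U) * ((1+X)^2*V)^4 * (1/((1+X)^2*V))^5 = U / V := by
    field_simp
  rw [e4] at H4
  have H5 := H4.norm_left_pow hζ 1 (-1) 0 0 0 4
  have hρ' : 5 * (2*u+1) ≠ 0 := by rw [← hρ]; exact pow_ne_zero _ ρ0
  have e5 : nf 1 (-1) 0 0 0 (U/V) = - (ρ^5 * g) / V := by
    rw [nf_one_sub, hρ]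
    field_simp
    linear_combination (-1) * hUV
  rw [e5] at H5
  have H6 := H5.scale_left (V * ρ / (ρ^5 * g))
  have e6 : g * (-(ρ^5 * g) / V)^4 * (V * ρ / (ρ^5 * g))^5 = V := by
    field_simp
  rw [e6] at H6
  have H7 := H6.mul_right hζ
  have e7 : V * (U / V) = U := by field_simp
  rwa [e7] at H7

/-- The algebra with parameters `(U, t)` also has a pair with parameters `(V, b)`. -/
theorem chain3 {A : Type*} [Ring A] [Algebra K A] (hζ : 1 + ζ + ζ^2 + ζ^3 + ζ^4 = 0)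
    (h5 : (5 : K) ≠ 0) (H : HasPair ζ A D.U D.t) : HasPair ζ A D.V D.b := by
  have H1 := chain1 D hζ H
  have H2 := chain2 D hζ
  obtain ⟨x, y, P⟩ := H2.map (Matrix.toLinAlgEquiv' (R := K) (n := Fin 5)).toAlgHom
  obtain ⟨c0, c1, c2, c3, c4, hc⟩ := exists_nf_of_pair hζ h5 (by simp) P D.V0
  have hn : nf c0 c1 c2 c3 c4 D.V ≠ 0 := by rw [hc]; exact D.U0
  have H3 := H1.norm_right_pow hζ D.V0 (mul_ne_zero D.b0 D.U0) c0 c1 c2 c3 c4 hn 4
  rw [hc] at H3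
  have H4 := H3.scale_right D.U⁻¹
  have hU0 := D.U0
  have e : D.b * D.U * D.U^4 * D.U⁻¹^5 = D.b := by field_simp
  rwa [e] at H4

end

end Pool.Agent.BrFive
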