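import Mathlib

/-! A place of the complex numbers above seven, and contents of polynomials. -/

namespace Pool.Agent.BrFive

theorem exists_seven_adic : ∃ O : ValuationSubring ℂ, (7 : ℂ) ∈ O.nonunits := by
  let A : Subring ℂ := (Int.castRingHom ℂ).range
  have hI : (Ideal.span {(7 : A)}) ≠ ⊤ := by
    rw [Ne, Ideal.span_singleton_eq_top, isUnit_iff_exists_inv]
    rintro ⟨⟨b, n, rfl⟩, hb⟩
    have h1 := congrArg Subtype.val hb
    have h7 : ((7 : A) : ℂ) = 7 := map_ofNat A.subtype 7
    have h2 : (7 : ℂ) * ((n : ℤ) : ℂ) = 1 := by rw [← h7]; simpa using h1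
    have h3 : (7 : ℤ) * n = 1 := by exact_mod_cast h2
    omega
  obtain ⟨O, -, hO⟩ := Ideal.image_subset_nonunits_valuationSubring _ hI
  exact ⟨O, hO ⟨7, Ideal.subset_span rfl, rfl⟩⟩

section

variable (O : ValuationSubring ℂ)

theorem content_mv {ι σ : Type*} [Fintype ι] (p : ι → MvPolynomial σ ℂ) (hp : ∃ i, p i ≠ 0) :
    ∃ (c : ℂ) (p' : ι → MvPolynomial σ O), c ≠ 0 ∧
      (∀ i, MvPolynomial.map O.subtype (p' i) = MvPolynomial.C c * p i) ∧
      ∃ i, MvPolynomial.map (IsLocalRing.residue O) (p' i) ≠ 0 := by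
  classical
  let S : Finset (Σ _ : ι, (σ →₀ ℕ)) := Finset.univ.sigma fun i => (p i).support
  have hS : S.Nonempty := by
    obtain ⟨i, hi⟩ := hp
    obtain ⟨s, hs⟩ := MvPolynomial.support_nonempty.2 hi
    exact ⟨⟨i, s⟩, by simp only [S, Finset.mem_sigma, Finset.mem_univ, true_and]; exact hs⟩
  obtain ⟨⟨i0, s0⟩, hmem, hmax⟩ := Finset.exists_max_image S
    (fun z => O.valuation ((p z.1).coeff z.2)) hS
  simp only [S, Finset.mem_sigma, Finset.mem_univ, true_and, MvPolynomial.mem_support_iff] at hmem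
  set a0 := (p i0).coeff s0 with ha0
  have hO : ∀ i s, a0⁻¹ * (p i).coeff s ∈ O := by
    intro i s
    by_cases hs : (p i).coeff s = 0
    · rw [hs, mul_zero]; exact O.zero_mem
    · have h1 := hmax ⟨i, s⟩ (by
        simp only [S, Finset.mem_sigma, Finset.mem_univ, true_and, MvPolynomial.mem_support_iff]
        exact hs)
      rw [← O.valuation_le_one_iff, map_mul, map_inv₀]
      have h0 : 0 < O.valuation a0 := zero_lt_iff.2 ((Valuation.ne_zero_iff _).2 hmem)
      rw [mul_comm, ← div_eq_mul_inv]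
      exact (div_le_one₀ h0).2 h1
  refine ⟨a0⁻¹, fun i => ∑ s ∈ (p i).support, MvPolynomial.monomial s
    (⟨a0⁻¹ * (p i).coeff s, hO i s⟩ : O), inv_ne_zero hmem, ?_, i0, ?_⟩
  · intro i
    simp only [map_sum, MvPolynomial.map_monomial]
    conv_rhs => rw [← MvPolynomial.support_sum_monomial_coeff (p i), Finset.mul_sum]
    refine Finset.sum_congr rfl fun s _ => ?_
    rw [MvPolynomial.C_mul_monomial]
    rfl
  · intro h
    have h1 := congrArg (MvPolynomial.coeff s0) h
    rw [MvPolynomial.coeff_map, MvPolynomial.coeff_sum, MvPolynomial.coeff_zero] at h1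
    simp only [MvPolynomial.coeff_monomial] at h1
    rw [Finset.sum_ite_eq' , if_pos (MvPolynomial.mem_support_iff.2 hmem)] at h1
    have h2 : (⟨a0⁻¹ * (p i0).coeff s0, hO i0 s0⟩ : O) = 1 := by
      apply Subtype.ext
      exact inv_mul_cancel₀ hmem
    rw [h2, map_one] at h1
    exact one_ne_zero h1

theorem root_mem {u : ℂ} (hu : u^2 + u - 1 = 0) : u ∈ O := by
  rcases O.mem_or_inv_mem u with h | h
  · exact h
  · have hu0 : u ≠ 0 := by
      rintro rfl
      norm_num at hu
    have : u⁻¹ = u + 1 := by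
      field_simp
      linear_combination (-1) * hu
    rw [this] at h
    have h1 := sub_mem h (one_mem O)
    simpa using h1

end

end Pool.Agent.BrFive
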