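import Mathlib

/-! Del Pezzo surfaces of degree one and their function fields. -/

namespace Pool.Agent.BrFive

open MvPolynomial

/-- `P` is a form of degree `6` in variables `x, y, z, w` of weights `1, 1, 2, 3` over `F`, and the
affine cone `P = 0` is smooth away from the origin over an algebraic closure of `F`.  The surfaces
`P = 0` in the weighted projective space `P(1,1,2,3)` for such `P` are exactly the del Pezzo
surfaces of degree one over `F`. -/
structure IsDelPezzoOne {F : Type*} [Field F] (P : MvPolynomial (Fin 4) F) : Prop where
  /-- the form has weighted degree six -/
  sextic : IsWeightedHomogeneous ![1, 1, 2, 3] P 6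
  /-- the Jacobian criterion on the cone minus the origin -/
  smooth : ∀ p : Fin 4 → AlgebraicClosure F, p ≠ 0 → aeval p P = 0 →
    ∃ i : Fin 4, aeval p (pderiv i P) ≠ 0

section

variable {F : Type*} [Field F] (P : MvPolynomial (Fin 4) F)

/-- The equation `P(1, y, z, w)` of the affine chart `x = 1` of the surface `P = 0`. -/
noncomputable def chartPoly : MvPolynomial (Fin 3) F :=
  aeval ![1, X 0, X 1, X 2] P

/-- The coordinate ring `F[y, z, w] / (P(1, y, z, w))` of the affine chart `x = 1` of the surface
`P = 0` in `P(1,1,2,3)`. -/
def ChartRing : Type _ := MvPolynomial (Fin 3) F ⧸ Ideal.span {chartPoly P}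

noncomputable instance ChartRing.commRing : CommRing (ChartRing P) :=
  Ideal.Quotient.commRing (Ideal.span {chartPoly P})

noncomputable instance ChartRing.algebra (k : Type*) [Field k] [Algebra k F] :
    Algebra k (ChartRing P) :=
  Ideal.instAlgebraQuotient k (Ideal.span {chartPoly P})

/-- The function field of the surface `P = 0`: the fraction field of the coordinate ring of the
chart `x = 1`. -/
def FunctionField : Type _ := FractionRing (ChartRing P)

noncomputable instance FunctionField.field [IsDomain (ChartRing P)] : Field (FunctionField P) :=
  FractionRing.field (ChartRing P)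

noncomputable instance FunctionField.algebra (k : Type*) [Field k] [Algebra k F]
    [IsDomain (ChartRing P)] : Algebra k (FunctionField P) :=
  OreLocalization.instAlgebra

end

end Pool.Agent.BrFive
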