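import Mathlib
import Pool.Agent.BrFive.NormForm

/-! The residue computation on the elliptic curve. -/

namespace Pool.Agent.BrFive

open Polynomial

section

variable {k : Type*} [Field k]

/-- The coefficients of the quadratic equation of the elliptic curve. -/
noncomputable def B0 (T : k) : k[X] := X + C T * (1 + X)

noncomputable def C0 (T : k) : k[X] := X^3 + C T * X^2

theorem natDegree_B0_le (T : k) : (B0 T).natDegree ≤ 1 := by
  unfold B0; compute_degree

theorem natDegree_C0_le (T : k) : (C0 T).natDegree ≤ 3 := by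
  unfold C0; compute_degree

theorem no_root_poly (T : k) (s : k[X]) (hs : s^2 + B0 T * s - C0 T = 0) : False := by
  by_cases hm : s.natDegree ≤ 1
  · have h := congrArg (fun p => coeff p 3) hs
    simp only [coeff_sub, coeff_add, coeff_zero] at h
    have h1 : (s^2).coeff 3 = 0 := by
      apply coeff_eq_zero_of_natDegree_lt
      refine lt_of_le_of_lt natDegree_pow_le ?_
      omega
    have h2 : (B0 T * s).coeff 3 = 0 := by
      apply coeff_eq_zero_of_natDegree_lt
      refine lt_of_le_of_lt natDegree_mul_le ?_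
      have := natDegree_B0_le T
      omega
    have h3 : (C0 T).coeff 3 = 1 := by
      simp [C0, coeff_X_pow]
    rw [h1, h2, h3] at h
    norm_num at h
  · push Not at hm
    have hs0 : s ≠ 0 := by
      rintro rfl
      simp at hm
    have h := congrArg (fun p => coeff p (s.natDegree + s.natDegree)) hs
    simp only [coeff_sub, coeff_add, coeff_zero] at h
    have h1 : (s^2).coeff (s.natDegree + s.natDegree) = s.leadingCoeff * s.leadingCoeff := by
      rw [pow_two, coeff_mul_degree_add_degree]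
    have h2 : (B0 T * s).coeff (s.natDegree + s.natDegree) = 0 := by
      apply coeff_eq_zero_of_natDegree_lt
      refine lt_of_le_of_lt natDegree_mul_le ?_
      have := natDegree_B0_le T
      omega
    have h3 : (C0 T).coeff (s.natDegree + s.natDegree) = 0 := by
      apply coeff_eq_zero_of_natDegree_lt
      have := natDegree_C0_le T
      omega
    rw [h1, h2, h3, add_zero, sub_zero, mul_self_eq_zero, leadingCoeff_eq_zero] at h
    exact hs0 h

variable {F1 : Type*} [Field F1] [Algebra k[X] F1] [IsFractionRing k[X] F1]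

theorem exists_poly_of_root {z : F1} (p : k[X][X]) (hp : p.Monic)
    (hz : eval₂ (algebraMap k[X] F1) z p = 0) : ∃ s : k[X], algebraMap k[X] F1 s = z :=
  IsIntegrallyClosed.isIntegral_iff.1 ⟨p, hp, hz⟩

/-- The equation of the elliptic curve. -/
noncomputable def mE (F1 : Type*) [Field F1] [Algebra k[X] F1] (T : k) : F1[X] :=
  X^2 + C (algebraMap k[X] F1 (B0 T)) * X - C (algebraMap k[X] F1 (C0 T))

omit [IsFractionRing k[X] F1] in
theorem mE_natDegree (T : k) : (mE F1 T).natDegree = 2 := by
  unfold mE; compute_degree!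

omit [IsFractionRing k[X] F1] in
theorem mE_monic (T : k) : (mE F1 T).Monic := by
  unfold mE; monicity!

theorem mE_irreducible (T : k) : Irreducible (mE F1 T) := by
  rw [(mE_monic T).irreducible_iff_roots_eq_zero_of_degree_le_three (by rw [mE_natDegree])
    (by rw [mE_natDegree]; norm_num)]
  rw [Multiset.eq_zero_iff_forall_notMem]
  intro z hz
  rw [mem_roots (mE_monic T).ne_zero, IsRoot.def] at hz
  have hz' : z^2 + algebraMap k[X] F1 (B0 T) * z - algebraMap k[X] F1 (C0 T) = 0 := by
    simpa [mE] using hz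
  obtain ⟨s, rfl⟩ := exists_poly_of_root (k := k) (z := z)
    (X^2 + C (B0 T) * X - C (C0 T)) (by monicity!) (by
      simpa [eval₂_add, eval₂_sub, eval₂_mul, eval₂_pow] using hz')
  apply no_root_poly T s
  apply IsFractionRing.injective k[X] F1
  simpa using hz'

/-- No element has fifth power `e g` on the elliptic curve. -/
theorem stepD {T : k} (hT : 2 * T = -11) (h2 : (2 : k) ≠ 0) (h5 : (5 : k) ≠ 0) {e : k}
    (he : e ≠ 0) (f : F1[X])
    (hf : mE F1 T ∣ f^5 - C (algebraMap k[X] F1 (C e)) *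
      ((1 + C (algebraMap k[X] F1 X)) * X - C (algebraMap k[X] F1 X)^2)) : False := by
  set ι := algebraMap k[X] F1 with hι
  -- reduce `f`
  set r := f %ₘ mE F1 T with hr
  have hrd : r.natDegree ≤ 1 := by
    have h1 : r.degree < (mE F1 T).degree := degree_modByMonic_lt f (mE_monic T)
    rw [degree_eq_natDegree (mE_monic T).ne_zero, mE_natDegree] at h1
    have h2 : r.natDegree < 2 := by
      by_cases hr0 : r = 0
      · rw [hr0]; simp
      · exact (natDegree_lt_iff_degree_lt hr0).2 h1
    omega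
  obtain ⟨b, a, hab⟩ := exists_eq_X_add_C_of_natDegree_le_one hrd
  have hfr : mE F1 T ∣ f - r := by
    have := modByMonic_add_div f (mE F1 T)
    exact ⟨f /ₘ mE F1 T, by rw [hr]; linear_combination (-1) * this⟩
  have hr5 : mE F1 T ∣ r^5 - C (ι (C e)) * ((1 + C (ι X)) * X - C (ι X)^2) := by
    have h1 : mE F1 T ∣ f^5 - r^5 := hfr.trans (sub_dvd_pow_sub_pow f r 5)
    have h2 := dvd_sub hf h1
    have h3 : f^5 - C (ι (C e)) * ((1 + C (ι X)) * X - C (ι X)^2) - (f^5 - r^5) =
      r^5 - C (ι (C e)) * ((1 + C (ι X)) * X - C (ι X)^2) := by ring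
    rwa [h3] at h2
  rw [hab] at hr5
  obtain ⟨q, hq⟩ := hr5
  -- the two roots
  let L := AdjoinRoot (mE F1 T)
  let j : F1 →+* L := AdjoinRoot.of (mE F1 T)
  have hj : Function.Injective j := by
    apply AdjoinRoot.of.injective_of_degree_ne_zero
    rw [degree_eq_natDegree (mE_monic T).ne_zero, mE_natDegree]
    norm_num
  obtain ⟨Y, hY⟩ : ∃ Y : L, Y^2 + j (ι (B0 T)) * Y - j (ι (C0 T)) = 0 := by
    refine ⟨AdjoinRoot.root (mE F1 T), ?_⟩
    have := AdjoinRoot.eval₂_root (mE F1 T)
    have h1 : eval₂ j (AdjoinRoot.root (mE F1 T)) (mE F1 T) = 0 := this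
    simpa [mE, eval₂_add, eval₂_sub, eval₂_mul, eval₂_pow] using h1
  obtain ⟨Z, hZ⟩ : ∃ Z : L, Z = -j (ι (B0 T)) - Y := ⟨_, rfl⟩
  have hYZ : Y * Z = - j (ι (C0 T)) := by rw [hZ]; linear_combination (-1) * hY
  have hZ' : Z^2 + j (ι (B0 T)) * Z - j (ι (C0 T)) = 0 := by rw [hZ]; linear_combination hY
  have hev : ∀ W : L, W^2 + j (ι (B0 T)) * W - j (ι (C0 T)) = 0 →
      (j a + j b * W)^5 = j (ι (C e)) * ((1 + j (ι X)) * W - j (ι X)^2) := by
    intro W hW
    have h1 := congrArg (eval₂ j W) hq
    have h2 : eval₂ j W (mE F1 T) = 0 := by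
      rw [← hW]
      simp [mE, eval₂_add, eval₂_sub, eval₂_mul, eval₂_pow, hι]
    rw [eval₂_mul, h2, zero_mul] at h1
    simp only [eval₂_sub, eval₂_pow, eval₂_add, eval₂_mul, eval₂_C, eval₂_X, eval₂_one] at h1
    linear_combination h1
  have hP := hev Y hY
  have hQ := hev Z hZ'
  -- the norm
  set N : F1 := a^2 - a * b * ι (B0 T) - b^2 * ι (C0 T) with hN
  set σ : F1 := 2 * a - b * ι (B0 T) with hσ
  have hNj : j N = (j a + j b * Y) * (j a + j b * Z) := by
    have : (j a + j b * Y) * (j a + j b * Z) = (j a)^2 + j a * j b * (Y + Z) + (j b)^2 * (Y * Z) := by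
      ring
    rw [this, hYZ, hN, hZ]
    simp only [map_sub, map_mul, map_pow]
    ring
  have hσj : j σ = (j a + j b * Y) + (j a + j b * Z) := by
    rw [hσ, hZ]
    simp only [map_sub, map_mul, map_ofNat]
    ring
  have hx : ι (B0 T) = ι X + ι (C T) * (1 + ι X) := by simp [B0]
  have hx' : ι (C0 T) = (ι X)^3 + ι (C T) * (ι X)^2 := by simp [C0]
  have hN5 : N^5 = -(ι (C e))^2 * (ι X)^5 := by
    apply hj
    rw [map_pow, hNj, mul_pow, hP, hQ]
    have : j (ι (C e)) * ((1 + j (ι X)) * Y - j (ι X)^2) *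
        (j (ι (C e)) * ((1 + j (ι X)) * Z - j (ι X)^2)) =
        (j (ι (C e)))^2 * ((1 + j (ι X))^2 * (Y * Z) - j (ι X)^2 * (1 + j (ι X)) * (Y + Z)
          + j (ι X)^4) := by ring
    rw [this, hYZ, hZ, hx, hx']
    simp only [map_add, map_mul, map_pow, map_neg, map_one]
    ring
  have hσ5 : σ^5 - 5 * σ^3 * N + 5 * σ * N^2 =
      - ι (C e) * (ι X * (1 + 3 * ι X) + ι (C T) * (1 + ι X)^2) := by
    apply hj
    have h1 : j (σ^5 - 5 * σ^3 * N + 5 * σ * N^2) = (j a + j b * Y)^5 + (j a + j b * Z)^5 := by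
      simp only [map_sub, map_add, map_mul, map_pow, map_ofNat, hσj, hNj]
      ring
    rw [h1, hP, hQ, hZ, hx]
    simp only [map_add, map_mul, map_pow, map_neg, map_one, map_ofNat]
    ring
  have hX0 : ι X ≠ 0 := by
    rw [hι, Ne, FaithfulSMul.algebraMap_eq_zero_iff]
    exact X_ne_zero
  -- `N / x` is a constant
  obtain ⟨n, hn⟩ := exists_poly_of_root (k := k) (F1 := F1) (z := N / ι X)
    (X^5 + C (C (e^2))) (by monicity!) (by
      simp only [eval₂_add, eval₂_pow, eval₂_X, eval₂_C]
      rw [div_pow, hN5]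
      field_simp
      simp only [map_pow]
      ring)
  have hNn : N = ι n * ι X := by
    have : ι n = N / ι X := hn
    rw [this, div_mul_cancel₀ _ hX0]
  have hn5 : n^5 = - C e^2 := by
    apply IsFractionRing.injective k[X] F1
    have : (ι n)^5 * (ι X)^5 = (-(ι (C e))^2) * (ι X)^5 := by rw [← hN5, hNn]; ring
    have := mul_right_cancel₀ (pow_ne_zero 5 hX0) this
    simpa using this
  have hnd : n.natDegree = 0 := by
    have h1 := congrArg natDegree hn5
    rw [natDegree_pow, natDegree_neg, ← C_pow, natDegree_C] at h1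
    omega
  obtain ⟨ν, hν⟩ := natDegree_eq_zero.1 hnd
  -- `σ` is a polynomial
  obtain ⟨s, hs⟩ := exists_poly_of_root (k := k) (F1 := F1) (z := σ)
    (X^5 - C (5 * (C ν * X)) * X^3 + C (5 * (C ν * X)^2) * X
      + C (C e * (X * (1 + 3 * X) + C T * (1 + X)^2))) (by monicity!) (by
      simp only [eval₂_add, eval₂_sub, eval₂_mul, eval₂_pow, eval₂_X, eval₂_C]
      rw [hNn, ← hν] at hσ5
      simp only [map_mul, map_add, map_pow, map_one, map_ofNat]
      linear_combination hσ5)
  have hs5 : s^5 - 5 * s^3 * (C ν * X) + 5 * s * (C ν * X)^2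
      + C e * (X * (1 + 3 * X) + C T * (1 + X)^2) = 0 := by
    apply IsFractionRing.injective k[X] F1
    rw [hNn, ← hν, ← hs] at hσ5
    simp only [map_mul, map_add, map_sub, map_pow, map_one, map_ofNat, map_zero]
    linear_combination hσ5
  have hsd : s.natDegree = 0 := by
    by_contra hne
    have hs0 : s ≠ 0 := by
      rintro rfl
      simp at hne
    have h := congrArg (fun p => coeff p (5 * s.natDegree)) hs5
    simp only [coeff_sub, coeff_add, coeff_zero] at h
    have h1 : (s^5).coeff (5 * s.natDegree) = s.leadingCoeff^5 := by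
      rw [← natDegree_pow, coeff_natDegree, leadingCoeff_pow]
    have h2 : (5 * s^3 * (C ν * X)).coeff (5 * s.natDegree) = 0 := by
      apply coeff_eq_zero_of_natDegree_lt
      have : (5 * s^3 * (C ν * X)).natDegree ≤ 0 + 3 * s.natDegree + (0 + 1) := by
        refine natDegree_mul_le_of_le (natDegree_mul_le_of_le ?_ natDegree_pow_le)
          (natDegree_mul_le_of_le (by simp) natDegree_X_le)
        exact (natDegree_ofNat (R := k) 5).le
      omega
    have h3 : (5 * s * (C ν * X)^2).coeff (5 * s.natDegree) = 0 := by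
      apply coeff_eq_zero_of_natDegree_lt
      have : (5 * s * (C ν * X)^2).natDegree ≤ 0 + s.natDegree + 2 * (0 + 1) := by
        refine natDegree_mul_le_of_le (natDegree_mul_le_of_le ?_ le_rfl)
          (natDegree_pow_le_of_le 2 (natDegree_mul_le_of_le (by simp) natDegree_X_le))
        exact (natDegree_ofNat (R := k) 5).le
      omega
    have h4 : (C e * (X * (1 + 3 * X) + C T * (1 + X)^2)).coeff (5 * s.natDegree) = 0 := by
      apply coeff_eq_zero_of_natDegree_lt
      have : (C e * (X * (1 + 3 * X) + C T * (1 + X)^2) : k[X]).natDegree ≤ 2 := by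
        compute_degree
      omega
    rw [h1, h2, h3, h4, sub_zero, add_zero, add_zero] at h
    exact hs0 (leadingCoeff_eq_zero.1 (pow_eq_zero_iff (by norm_num) |>.1 h))
  obtain ⟨τ, hτ⟩ := natDegree_eq_zero.1 hsd
  rw [← hτ] at hs5
  have e0 := congrArg (eval 0) hs5
  have e1 := congrArg (eval 1) hs5
  have e2 := congrArg (eval (-1)) hs5
  simp only [eval_add, eval_sub, eval_mul, eval_pow, eval_C, eval_X, eval_one, eval_zero,
    eval_ofNat] at e0 e1 e2
  have c0 : τ^5 = - e * T := by linear_combination e0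
  have c1 : 2 * (5 * (τ^3 * ν)) = 2 * (5 * (-2 * e)) := by
    linear_combination e2 - e1 + 2 * e * hT
  have c1' : τ^3 * ν = -2 * e := mul_left_cancel₀ h5 (mul_left_cancel₀ h2 c1)
  have c2 : 2 * (2 * (5 * (τ * ν^2))) = 2 * (5 * e) := by
    linear_combination 2 * (e1 + e2 - 2 * e0) - 2 * e * hT
  have c2' : 2 * (5 * (τ * ν^2)) = 5 * e := mul_left_cancel₀ h2 c2
  have c3 : 2 * (τ * ν^2) = e := mul_left_cancel₀ h5 (by linear_combination c2')
  have key : 5 * (e * e) = 0 := by
    have h1 : (τ^3 * ν)^2 = τ^5 * (τ * ν^2) := by ring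
    rw [c1', c0] at h1
    linear_combination 4 * h1 - 2 * e * T * c3 - e^2 * hT
  rcases mul_eq_zero.1 key with h | h
  · exact h5 h
  · exact he (mul_self_eq_zero.1 h)

end

end Pool.Agent.BrFive
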