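import Mathlib
import Pool.Agent.BrFive.Residue

/-! Infinite descent for the norm equation. -/

namespace Pool.Agent.BrFive

open Polynomial

/-- The equation `nf(p; π) = d^5 U` has only the trivial solution. -/
def Aniso {D : Type*} [CommRing D] (π U : D) : Prop :=
  ∀ p0 p1 p2 p3 p4 d : D, nf p0 p1 p2 p3 p4 π = d^5 * U →
    p0 = 0 ∧ p1 = 0 ∧ p2 = 0 ∧ p3 = 0 ∧ p4 = 0

theorem eq_zero_of_pow_dvd {D : Type*} [CommRing D] [IsDomain D] [WfDvdMonoid D] {π p : D}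
    (hπ : ¬ IsUnit π) (h : ∀ n : ℕ, π^n ∣ p) : p = 0 := by
  by_contra hp
  obtain ⟨n, hn⟩ := FiniteMultiplicity.of_not_isUnit hπ hp
  exact hn (h (n+1))

section

variable {D : Type*} [CommRing D] [IsDomain D]

theorem aniso_step {π U : D} (hπ : Prime π) (H : ∀ p d : D, π ∣ p^5 - d^5 * U → π ∣ d)
    (p0 p1 p2 p3 p4 d : D) (h : nf p0 p1 p2 p3 p4 π = d^5 * U) :
    ∃ q0 q1 q2 q3 q4 d1 : D, p0 = π * q0 ∧ p1 = π * q1 ∧ p2 = π * q2 ∧ p3 = π * q3 ∧
      p4 = π * q4 ∧ nf q0 q1 q2 q3 q4 π = d1^5 * U := by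
  have hπ0 := hπ.ne_zero
  have h0 : π ∣ p0^5 - d^5 * U := by
    have := nf_dvd_sub p0 p1 p2 p3 p4 π
    rw [h] at this
    have h2 := dvd_neg.2 this
    rwa [neg_sub] at h2
  obtain ⟨d1, rfl⟩ := H _ _ h0
  have key : ∀ a b c e f g : D, nf a b c e f π = π * g → ∃ a', a = π * a' ∧
      nf b c e f a' π = g := by
    intro a b c e f g hg
    have h1 := nf_dvd_sub a b c e f π
    have h2 : π ∣ a^5 := by
      have h3 : π ∣ nf a b c e f π := ⟨g, hg⟩
      have h4 := dvd_sub h3 h1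
      rwa [sub_sub_cancel] at h4
    obtain ⟨a', rfl⟩ := hπ.dvd_of_dvd_pow h2
    refine ⟨a', rfl, ?_⟩
    rw [nf_shift] at hg
    exact mul_left_cancel₀ hπ0 hg
  obtain ⟨q0, rfl, h1⟩ := key p0 p1 p2 p3 p4 (π^4 * d1^5 * U) (by rw [h]; ring)
  obtain ⟨q1, rfl, h2⟩ := key p1 p2 p3 p4 q0 (π^3 * d1^5 * U) (by rw [h1]; ring)
  obtain ⟨q2, rfl, h3⟩ := key p2 p3 p4 q0 q1 (π^2 * d1^5 * U) (by rw [h2]; ring)
  obtain ⟨q3, rfl, h4⟩ := key p3 p4 q0 q1 q2 (π * d1^5 * U) (by rw [h3]; ring)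
  obtain ⟨q4, rfl, h5⟩ := key p4 q0 q1 q2 q3 (d1^5 * U) (by rw [h4]; ring)
  exact ⟨q0, q1, q2, q3, q4, d1, rfl, rfl, rfl, rfl, rfl, h5⟩

theorem aniso_of_prime [WfDvdMonoid D] {π U : D} (hπ : Prime π)
    (H : ∀ p d : D, π ∣ p^5 - d^5 * U → π ∣ d) : Aniso π U := by
  have key : ∀ n : ℕ, ∀ p0 p1 p2 p3 p4 d : D, nf p0 p1 p2 p3 p4 π = d^5 * U →
      π^n ∣ p0 ∧ π^n ∣ p1 ∧ π^n ∣ p2 ∧ π^n ∣ p3 ∧ π^n ∣ p4 := by
    intro n
    induction n with
    | zero => intro p0 p1 p2 p3 p4 d _; simp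
    | succ n ih =>
      intro p0 p1 p2 p3 p4 d h
      obtain ⟨q0, q1, q2, q3, q4, d1, rfl, rfl, rfl, rfl, rfl, h'⟩ :=
        aniso_step hπ H p0 p1 p2 p3 p4 d h
      obtain ⟨h0, h1, h2, h3, h4⟩ := ih q0 q1 q2 q3 q4 d1 h'
      rw [pow_succ']
      exact ⟨mul_dvd_mul_left _ h0, mul_dvd_mul_left _ h1, mul_dvd_mul_left _ h2,
        mul_dvd_mul_left _ h3, mul_dvd_mul_left _ h4⟩
  intro p0 p1 p2 p3 p4 d h
  exact ⟨eq_zero_of_pow_dvd hπ.not_isUnit fun n => (key n _ _ _ _ _ _ h).1,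
    eq_zero_of_pow_dvd hπ.not_isUnit fun n => (key n _ _ _ _ _ _ h).2.1,
    eq_zero_of_pow_dvd hπ.not_isUnit fun n => (key n _ _ _ _ _ _ h).2.2.1,
    eq_zero_of_pow_dvd hπ.not_isUnit fun n => (key n _ _ _ _ _ _ h).2.2.2.1,
    eq_zero_of_pow_dvd hπ.not_isUnit fun n => (key n _ _ _ _ _ _ h).2.2.2.2⟩

theorem Aniso.fraction {π U : D} (h : Aniso π U) (K : Type*) [Field K] [Algebra D K]
    [IsFractionRing D K] : Aniso (algebraMap D K π) (algebraMap D K U) := by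
  intro p0 p1 p2 p3 p4 d hd
  obtain ⟨b, hb⟩ := IsLocalization.exist_integer_multiples_of_finite (nonZeroDivisors D)
    (![p0, p1, p2, p3, p4, d] : Fin 6 → K)
  have hb0 : algebraMap D K b ≠ 0 :=
    IsFractionRing.to_map_ne_zero_of_mem_nonZeroDivisors b.2
  have key : ∀ i : Fin 6, ∃ q : D, algebraMap D K q =
      algebraMap D K b * (![p0, p1, p2, p3, p4, d] : Fin 6 → K) i := by
    intro i
    obtain ⟨q, hq⟩ := hb i
    exact ⟨q, by rw [hq]; exact Algebra.smul_def _ _⟩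
  obtain ⟨q0, h0⟩ := key 0
  obtain ⟨q1, h1⟩ := key 1
  obtain ⟨q2, h2⟩ := key 2
  obtain ⟨q3, h3⟩ := key 3
  obtain ⟨q4, h4⟩ := key 4
  obtain ⟨e, h5⟩ := key 5
  have h0' : algebraMap D K q0 = algebraMap D K b * p0 := h0
  have h1' : algebraMap D K q1 = algebraMap D K b * p1 := h1
  have h2' : algebraMap D K q2 = algebraMap D K b * p2 := h2
  have h3' : algebraMap D K q3 = algebraMap D K b * p3 := h3
  have h4' : algebraMap D K q4 = algebraMap D K b * p4 := h4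
  have h5' : algebraMap D K e = algebraMap D K b * d := h5
  have hnf : nf q0 q1 q2 q3 q4 π = e^5 * U := by
    apply IsFractionRing.injective D K
    rw [map_nf, h0', h1', h2', h3', h4', nf_scale, hd, map_mul, map_pow, h5']
    ring
  obtain ⟨z0, z1, z2, z3, z4⟩ := h _ _ _ _ _ _ hnf
  have hz : ∀ {q : D} {p : K}, q = 0 → algebraMap D K q = algebraMap D K b * p → p = 0 := by
    intro q p hq hqp
    rw [hq, map_zero] at hqp
    exact (mul_eq_zero.1 hqp.symm).resolve_left hb0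
  exact ⟨hz z0 h0', hz z1 h1', hz z2 h2', hz z3 h3', hz z4 h4'⟩

theorem Aniso.polynomial {π U : D} (h : Aniso π U) (hU : U ≠ 0) : Aniso (C π) (C U) := by
  have key : ∀ n : ℕ, ∀ p0 p1 p2 p3 p4 d : D[X], nf p0 p1 p2 p3 p4 (C π) = d^5 * C U →
      X^n ∣ p0 ∧ X^n ∣ p1 ∧ X^n ∣ p2 ∧ X^n ∣ p3 ∧ X^n ∣ p4 := by
    intro n
    induction n with
    | zero => intro p0 p1 p2 p3 p4 d _; simp
    | succ n ih =>
      intro p0 p1 p2 p3 p4 d hd
      have h1 := congrArg (evalRingHom 0) hd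
      rw [map_nf, map_mul, map_pow] at h1
      simp only [coe_evalRingHom, eval_C] at h1
      obtain ⟨z0, z1, z2, z3, z4⟩ := h _ _ _ _ _ _ h1
      have hz : (eval 0 d)^5 * U = 0 := by
        rw [← h1, z0, z1, z2, z3, z4]
        simp [nf]
      have zd : eval 0 d = 0 := by
        rcases mul_eq_zero.1 hz with h2 | h2
        · exact pow_eq_zero_iff (by norm_num) |>.1 h2
        · exact absurd h2 hU
      have hX : ∀ p : D[X], eval 0 p = 0 → X ∣ p := fun p hp => by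
        rw [X_dvd_iff, coeff_zero_eq_eval_zero]; exact hp
      obtain ⟨q0, rfl⟩ := hX _ z0
      obtain ⟨q1, rfl⟩ := hX _ z1
      obtain ⟨q2, rfl⟩ := hX _ z2
      obtain ⟨q3, rfl⟩ := hX _ z3
      obtain ⟨q4, rfl⟩ := hX _ z4
      obtain ⟨e, rfl⟩ := hX _ zd
      rw [nf_scale] at hd
      have h2 : nf q0 q1 q2 q3 q4 (C π) = e^5 * C U := by
        have : (X : D[X])^5 ≠ 0 := pow_ne_zero 5 X_ne_zero
        apply mul_left_cancel₀ this
        rw [hd]; ring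
      obtain ⟨h0, h1, h2, h3, h4⟩ := ih _ _ _ _ _ _ h2
      rw [pow_succ']
      exact ⟨mul_dvd_mul_left _ h0, mul_dvd_mul_left _ h1, mul_dvd_mul_left _ h2,
        mul_dvd_mul_left _ h3, mul_dvd_mul_left _ h4⟩
  have hzero : ∀ p : D[X], (∀ n : ℕ, X^n ∣ p) → p = 0 := by
    intro p hp
    ext n
    rw [coeff_zero]
    exact (X_pow_dvd_iff.1 (hp (n+1))) n (Nat.lt_succ_self n)
  intro p0 p1 p2 p3 p4 d hd
  exact ⟨hzero _ fun n => (key n _ _ _ _ _ _ hd).1,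
    hzero _ fun n => (key n _ _ _ _ _ _ hd).2.1,
    hzero _ fun n => (key n _ _ _ _ _ _ hd).2.2.1,
    hzero _ fun n => (key n _ _ _ _ _ _ hd).2.2.2.1,
    hzero _ fun n => (key n _ _ _ _ _ _ hd).2.2.2.2⟩

end

section

variable {K : Type*} [Field K]

/-- Change from `-π⁻¹ y^5` to `π`. -/
theorem Aniso.change {π U : K} (h : Aniso (C π : K[X]) (C U)) (hπ : π ≠ 0) :
    Aniso (-(C π⁻¹ * X^5) : K[X]) (C U) := by
  intro p0 p1 p2 p3 p4 d hd
  have hid : nf p0 p1 p2 p3 p4 (-(C π⁻¹ * X^5) : K[X]) =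
      nf p0 (p4 * X^4 * C π⁻¹) (-(p3 * X^3) * C π⁻¹) (p2 * X^2 * C π⁻¹) (-(p1 * X) * C π⁻¹)
        (C π) := by
    apply IsFractionRing.injective K[X] (RatFunc K)
    rw [map_nf, map_nf]
    have hP : algebraMap K[X] (RatFunc K) (C π) ≠ 0 := by
      rw [Ne, FaithfulSMul.algebraMap_eq_zero_iff, C_eq_zero]
      exact hπ
    have hinv : algebraMap K[X] (RatFunc K) (C π⁻¹) = (algebraMap K[X] (RatFunc K) (C π))⁻¹ := by
      apply eq_inv_of_mul_eq_one_left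
      rw [← map_mul, ← C_mul, inv_mul_cancel₀ hπ, C_1, map_one]
    have h1 := nf_change (algebraMap K[X] (RatFunc K) p0) (algebraMap K[X] (RatFunc K) p1)
      (algebraMap K[X] (RatFunc K) p2) (algebraMap K[X] (RatFunc K) p3)
      (algebraMap K[X] (RatFunc K) p4) (algebraMap K[X] (RatFunc K) X)
      (algebraMap K[X] (RatFunc K) (C π)) hP
    have e0 : algebraMap K[X] (RatFunc K) (-(C π⁻¹ * X^5)) =
        -((algebraMap K[X] (RatFunc K) X)^5) / algebraMap K[X] (RatFunc K) (C π) := by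
      rw [map_neg, map_mul, map_pow, hinv, neg_div, div_eq_inv_mul]
    rw [e0, h1]
    simp only [map_mul, map_neg, map_pow, hinv, div_eq_mul_inv]
  rw [hid] at hd
  obtain ⟨z0, z1, z2, z3, z4⟩ := h _ _ _ _ _ _ hd
  have hC : (C π⁻¹ : K[X]) ≠ 0 := by
    rw [Ne, C_eq_zero]; exact inv_ne_zero hπ
  have hX : ∀ n, (X : K[X])^n ≠ 0 := fun n => pow_ne_zero n X_ne_zero
  refine ⟨z0, ?_, ?_, ?_, ?_⟩
  · have := (mul_eq_zero.1 z4).resolve_right hC
    exact (mul_eq_zero.1 (neg_eq_zero.1 this)).resolve_right X_ne_zero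
  · exact (mul_eq_zero.1 ((mul_eq_zero.1 z3).resolve_right hC)).resolve_right (hX 2)
  · have := (mul_eq_zero.1 z2).resolve_right hC
    exact (mul_eq_zero.1 (neg_eq_zero.1 this)).resolve_right (hX 3)
  · exact (mul_eq_zero.1 ((mul_eq_zero.1 z1).resolve_right hC)).resolve_right (hX 4)

end

section

variable {k F1 : Type*} [Field k] [Field F1] [Algebra k[X] F1] [IsFractionRing k[X] F1]

/-- The polynomial `g` over the function field of the line. -/
noncomputable def gE (k F1 : Type*) [Field k] [Field F1] [Algebra k[X] F1] : F1[X] :=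
  (1 + C (algebraMap k[X] F1 X)) * X - C (algebraMap k[X] F1 X)^2

noncomputable def ΦE (k F1 : Type*) [Field k] [Field F1] [Algebra k[X] F1] : F1[X] :=
  X^2 + C (algebraMap k[X] F1 X) * X - C (algebraMap k[X] F1 X)^3

noncomputable def UE (F1 : Type*) [Field F1] [Algebra k[X] F1] (u : k) : F1[X] :=
  ΦE k F1 + (5 * C (algebraMap k[X] F1 (C u)) - 3) * gE k F1

noncomputable def VE (F1 : Type*) [Field F1] [Algebra k[X] F1] (u : k) : F1[X] :=
  ΦE k F1 - (5 * C (algebraMap k[X] F1 (C u)) + 8) * gE k F1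

omit [IsFractionRing k[X] F1] in
theorem UE_add_VE {T u : k} (hT : 2 * T = -11) :
    UE F1 u + VE F1 u = C (algebraMap k[X] F1 (C 2)) * mE F1 T := by
  have hT' : 2 * (C (algebraMap k[X] F1 (C T))) = -11 := by
    have := congrArg (fun z => C (algebraMap k[X] F1 (C z))) hT
    simpa [map_ofNat] using this
  simp only [UE, VE, ΦE, gE, mE, B0, C0, map_add, map_mul, map_pow, map_one, map_ofNat]
  linear_combination (-(X * (1 + C (algebraMap k[X] F1 X))) + C (algebraMap k[X] F1 X)^2) * hT'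

theorem UE_sub {T u : k} (hT : 2 * T = -11) (h2 : (2 : k) ≠ 0) :
    UE F1 u = mE F1 T + C (algebraMap k[X] F1 (C (5 * (2 * u + 1) / 2))) * gE k F1 := by
  have hT' : 2 * (C (algebraMap k[X] F1 (C T))) = -11 := by
    have := congrArg (fun z => C (algebraMap k[X] F1 (C z))) hT
    simpa [map_ofNat] using this
  have he : 2 * C (algebraMap k[X] F1 (C (5 * (2 * u + 1) / 2))) =
      5 * (2 * C (algebraMap k[X] F1 (C u)) + 1) := by
    have h1 : 2 * (5 * (2 * u + 1) / 2) = 5 * (2 * u + 1) := by field_simp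
    have := congrArg (fun z => C (algebraMap k[X] F1 (C z))) h1
    simpa [map_ofNat] using this
  have h2' : (2 : F1[X]) ≠ 0 := by
    have : (C (algebraMap k[X] F1 (C 2)) : F1[X]) ≠ 0 := by
      rw [Ne, C_eq_zero, FaithfulSMul.algebraMap_eq_zero_iff, C_eq_zero]
      exact h2
    simpa [map_ofNat] using this
  apply mul_left_cancel₀ h2'
  simp only [UE, ΦE, gE, mE, B0, C0, map_add, map_mul, map_pow] at *
  simp only [map_one] at *
  linear_combination (-(X * (1 + C (algebraMap k[X] F1 X))) + C (algebraMap k[X] F1 X)^2) * hT'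
    - ((1 + C (algebraMap k[X] F1 X)) * X - C (algebraMap k[X] F1 X)^2) * he

theorem aniso_E {T u : k} (hT : 2 * T = -11) (h2 : (2 : k) ≠ 0) (h5 : (5 : k) ≠ 0)
    (hu : 2 * u + 1 ≠ 0) : Aniso (UE F1 u + VE F1 u) (UE F1 u) := by
  have hm : Irreducible (mE F1 T) := mE_irreducible T
  have hc : IsUnit (C (algebraMap k[X] F1 (C 2)) : F1[X]) := by
    rw [isUnit_C, isUnit_iff_ne_zero, Ne, FaithfulSMul.algebraMap_eq_zero_iff, C_eq_zero]
    exact h2
  have hassoc : Associated (mE F1 T) (UE F1 u + VE F1 u) := by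
    rw [UE_add_VE hT]
    exact (associated_unit_mul_left _ _ hc).symm
  have he : 5 * (2 * u + 1) / 2 ≠ 0 := div_ne_zero (mul_ne_zero h5 hu) h2
  apply aniso_of_prime (hassoc.prime hm.prime)
  intro p d hpd
  rw [← hassoc.dvd_iff_dvd_left] at hpd ⊢
  by_contra hnd
  obtain ⟨a, b, hab⟩ := (hm.coprime_iff_not_dvd.2 hnd)
  apply stepD (F1 := F1) hT h2 h5 he (b * p)
  have h1 : mE F1 T ∣ b^5 * (p^5 - d^5 * UE F1 u) := hpd.mul_left _
  have h3 : mE F1 T ∣ (b * d)^5 - 1 := by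
    have : mE F1 T ∣ b * d - 1 := ⟨-a, by rw [← hab]; ring⟩
    exact this.trans (by simpa using sub_dvd_pow_sub_pow (b * d) 1 5)
  have h4 : mE F1 T ∣ ((b * d)^5 - 1) * UE F1 u := h3.mul_right _
  have h6 : mE F1 T ∣ UE F1 u - C (algebraMap k[X] F1 (C (5 * (2 * u + 1) / 2))) * gE k F1 := by
    rw [UE_sub hT h2, add_sub_cancel_right]
  have h7 := dvd_add (dvd_add h1 h4) h6
  have h8 : b ^ 5 * (p ^ 5 - d ^ 5 * UE F1 u) + ((b * d) ^ 5 - 1) * UE F1 u +
      (UE F1 u - C (algebraMap k[X] F1 (C (5 * (2 * u + 1) / 2))) * gE k F1) =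
      (b * p)^5 - C (algebraMap k[X] F1 (C (5 * (2 * u + 1) / 2))) * gE k F1 := by ring
  rwa [h8] at h7

end

end Pool.Agent.BrFive
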