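import Mathlib
import Pool.Agent.BrFive.Descent

/-! The specialised function field and the injectivity of the specialisation. -/

namespace Pool.Agent.BrFive

open Polynomial

section

variable (k F1 K0 : Type*) [Field k] [Field F1] [Algebra k[X] F1] [Field K0]
  [Algebra F1[X] K0]

noncomputable def ccH : k →+* K0 :=
  (algebraMap F1[X] K0).comp (C.comp ((algebraMap k[X] F1).comp C))

noncomputable def xxE : K0 := algebraMap F1[X] K0 (C (algebraMap k[X] F1 X))

noncomputable def yyE : K0 := algebraMap F1[X] K0 X

/-- The substitution `t ↦ s y^n`, `X ↦ X`, `Y ↦ Y`. -/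
noncomputable def psi (s : K0) (n : ℕ) : MvPolynomial (Fin 3) k →+* K0[X] :=
  MvPolynomial.eval₂Hom (C.comp (ccH k F1 K0)) ![C s * X^n, C (xxE k F1 K0), C (yyE F1 K0)]


noncomputable def nest : MvPolynomial (Fin 3) k →+* k[X][X][X] :=
  MvPolynomial.eval₂Hom (S₁ := k[X][X][X]) ((C : k[X][X] →+* k[X][X][X]).comp
    ((C : k[X] →+* k[X][X]).comp (C : k →+* k[X]))) (![X, C (C X), C X] : Fin 3 → k[X][X][X])

noncomputable def unnest : k[X][X][X] →+* MvPolynomial (Fin 3) k :=
  eval₂RingHom (eval₂RingHom (eval₂RingHom MvPolynomial.C (MvPolynomial.X 1))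
    (MvPolynomial.X 2)) (MvPolynomial.X 0)

theorem nest_injective : Function.Injective (nest k) := by
  have h : (unnest k).comp (nest k) = RingHom.id _ := by
    apply MvPolynomial.ringHom_ext
    · intro r
      simp [nest, unnest]
    · intro i
      fin_cases i <;> simp [nest, unnest]
  exact Function.LeftInverse.injective (g := unnest k) (fun x => RingHom.congr_fun h x)

noncomputable def iota2 : k[X][X] →+* K0 :=
  (algebraMap F1[X] K0).comp (mapRingHom (algebraMap k[X] F1))

theorem iota2_injective [IsFractionRing k[X] F1] [IsFractionRing F1[X] K0] :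
    Function.Injective (iota2 k F1 K0) := by
  have h1 : Function.Injective (mapRingHom (algebraMap k[X] F1)) :=
    map_injective _ (IsFractionRing.injective k[X] F1)
  exact (IsFractionRing.injective F1[X] K0).comp h1

theorem psi_one_injective [IsFractionRing k[X] F1] [IsFractionRing F1[X] K0] :
    Function.Injective (psi k F1 K0 1 1) := by
  have h : psi k F1 K0 1 1 = (mapRingHom (iota2 k F1 K0)).comp (nest k) := by
    apply MvPolynomial.ringHom_ext
    · intro r
      simp [psi, nest, iota2, ccH]
    · intro i
      fin_cases i <;> simp [psi, nest, iota2, xxE, yyE]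
  rw [h]
  exact (map_injective _ (iota2_injective k F1 K0)).comp (nest_injective k)

noncomputable def scaleX (K0 : Type*) [Field K0] (s : K0) : K0[X] →+* K0[X] :=
  eval₂RingHom C (C s * X)

theorem scaleX_injective (K0 : Type*) [Field K0] {s : K0} (hs : s ≠ 0) :
    Function.Injective (scaleX K0 s) := by
  have h : (scaleX K0 s⁻¹).comp (scaleX K0 s) = RingHom.id _ := by
    apply Polynomial.ringHom_ext
    · intro r
      simp [scaleX]
    · simp only [scaleX, RingHom.comp_apply, coe_eval₂RingHom, eval₂_X, eval₂_mul, eval₂_C,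
        RingHom.id_apply]
      rw [← mul_assoc, ← C_mul, mul_inv_cancel₀ hs, C_1, one_mul]
  exact Function.LeftInverse.injective (g := scaleX K0 s⁻¹) (fun x => RingHom.congr_fun h x)

theorem psi_n_one_injective [IsFractionRing k[X] F1] [IsFractionRing F1[X] K0] {s : K0}
    (hs : s ≠ 0) : Function.Injective (psi k F1 K0 s 1) := by
  have h : psi k F1 K0 s 1 = (scaleX K0 s).comp (psi k F1 K0 1 1) := by
    apply MvPolynomial.ringHom_ext
    · intro r
      simp [psi, scaleX]
    · intro i
      fin_cases i <;> simp [psi, scaleX]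
  rw [h]
  exact (scaleX_injective K0 hs).comp (psi_one_injective k F1 K0)

theorem psi_five (s : K0) (p : MvPolynomial (Fin 3) k) :
    psi k F1 K0 s 5 p = expand K0 5 (psi k F1 K0 s 1 p) := by
  have h : psi k F1 K0 s 5 = (expand K0 5).toRingHom.comp (psi k F1 K0 s 1) := by
    apply MvPolynomial.ringHom_ext
    · intro r
      simp [psi]
    · intro i
      fin_cases i <;> simp [psi]
  rw [h]
  rfl

theorem psi_five_injective [IsFractionRing k[X] F1] [IsFractionRing F1[X] K0] {s : K0}
    (hs : s ≠ 0) : Function.Injective (psi k F1 K0 s 5) := by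
  intro p q hpq
  rw [psi_five, psi_five] at hpq
  exact psi_n_one_injective k F1 K0 hs (expand_injective (by norm_num) hpq)

/-- Sums of five shifted expansions. -/
theorem expand_sum {K : Type*} [Field K] (q : Fin 5 → K[X])
    (h : ∑ j : Fin 5, expand K 5 (q j) * X^(j : ℕ) = 0) : ∀ j, q j = 0 := by
  intro j
  ext m
  rw [coeff_zero]
  have h1 := congrArg (fun p => coeff p (5 * m + (j : ℕ))) h
  simp only [finsetSum_coeff, coeff_zero] at h1
  rw [Finset.sum_eq_single j] at h1
  · rw [coeff_mul_X_pow, coeff_expand (by norm_num)] at h1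
    simpa using h1
  · intro i _ hij
    rw [coeff_mul_X_pow']
    split_ifs with hle
    · rw [coeff_expand (by norm_num), if_neg]
      intro hdvd
      apply hij
      apply Fin.ext
      have hi := i.isLt
      have hj := j.isLt
      omega
    · rfl
  · intro hn
    exact absurd (Finset.mem_univ j) hn

theorem psi_sum_eq_zero [IsFractionRing k[X] F1] [IsFractionRing F1[X] K0] {s : K0}
    (hs : s ≠ 0) (p : Fin 5 → MvPolynomial (Fin 3) k)
    (h : ∑ j : Fin 5, psi k F1 K0 s 5 (p j) * X^(j : ℕ) = 0) : ∀ j, p j = 0 := by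
  intro j
  have h1 := expand_sum (fun j => psi k F1 K0 s 1 (p j)) (by
    simpa only [psi_five] using h) j
  exact (map_eq_zero_iff _ (psi_n_one_injective k F1 K0 hs)).1 h1

end

end Pool.Agent.BrFive
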