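import Mathlib
import Pool.Agent.BrFive.Inject
import Pool.Agent.BrFive.Content

/-! The norm equation has no solution in the function field of the surface. -/

namespace Pool.Agent.BrFive

open Polynomial

section

variable {R : Type*} [CommRing R]

/-- `g`, `Φ`, `U`, `V`, `b` and the right hand side, in the variables `t, X, Y`. -/
noncomputable def gM (R : Type*) [CommRing R] : MvPolynomial (Fin 3) R :=
  (1 + MvPolynomial.X 1) * MvPolynomial.X 2 - (MvPolynomial.X 1)^2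

noncomputable def ΦM (R : Type*) [CommRing R] : MvPolynomial (Fin 3) R :=
  (MvPolynomial.X 2)^2 + MvPolynomial.X 1 * MvPolynomial.X 2 - (MvPolynomial.X 1)^3

noncomputable def UM (u : R) : MvPolynomial (Fin 3) R :=
  ΦM R + (5 * MvPolynomial.C u - 3) * gM R

noncomputable def VM (u : R) : MvPolynomial (Fin 3) R :=
  ΦM R - (5 * MvPolynomial.C u + 8) * gM R

noncomputable def bM (R : Type*) [CommRing R] : MvPolynomial (Fin 3) R :=
  (7 - MvPolynomial.X 0) * (1 - 7 * MvPolynomial.X 0)^4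

noncomputable def ΘM (u : R) : MvPolynomial (Fin 3) R :=
  bM R * UM u - MvPolynomial.X 0 * VM u

variable {S : Type*} [CommRing S] (f : R →+* S)

theorem map_UM (u : R) : MvPolynomial.map f (UM u) = UM (f u) := by
  simp [UM, ΦM, gM, map_ofNat]

theorem map_VM (u : R) : MvPolynomial.map f (VM u) = VM (f u) := by
  simp [VM, ΦM, gM, map_ofNat]

theorem map_bM : MvPolynomial.map f (bM R) = bM S := by
  simp [bM, map_ofNat]

theorem map_ΘM (u : R) : MvPolynomial.map f (ΘM u) = ΘM (f u) := by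
  simp [ΘM, map_UM, map_VM, map_bM]

theorem UM_ne_zero [Nontrivial R] (u : R) : UM u ≠ 0 := by
  intro h
  have h1 := congrArg (MvPolynomial.eval₂Hom (C : R →+* R[X]) ![0, 0, X]) h
  simp [UM, ΦM, gM] at h1
  have h2 := congrArg (fun p => coeff p 2) h1
  have h3 : ((5 * C u - 3) * X : R[X]) = C (5 * u - 3) * X := by
    simp [map_ofNat]
  simp only [h3, coeff_add, coeff_X_pow, coeff_C_mul, coeff_X, coeff_zero] at h2
  simp at h2

end

section

variable {k F1 K0 : Type*} [Field k] [Field F1] [Algebra k[X] F1] [Field K0]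
  [Algebra F1[X] K0]

theorem psi_UM (s : K0) (u : k) :
    psi k F1 K0 s 5 (UM u) = C (algebraMap F1[X] K0 (UE F1 u)) := by
  simp [psi, UM, ΦM, gM, UE, ΦE, gE, map_ofNat, xxE, yyE, ccH]

theorem psi_VM (s : K0) (u : k) :
    psi k F1 K0 s 5 (VM u) = C (algebraMap F1[X] K0 (VE F1 u)) := by
  simp [psi, VM, ΦM, gM, VE, ΦE, gE, map_ofNat, xxE, yyE, ccH]

theorem psi_X0 (s : K0) : psi k F1 K0 s 5 (MvPolynomial.X 0) = C s * X^5 := by
  simp [psi]

theorem psi_ΘM (h7 : (7 : k) = 0) {u : k} {π : K0}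
    (hπ : π = algebraMap F1[X] K0 (UE F1 u + VE F1 u)) (hπ0 : π ≠ 0) :
    psi k F1 K0 (-π⁻¹) 5 (ΘM u) = X^5 := by
  have h7' : (7 : K0[X]) = 0 := by
    have := congrArg (fun z => C (ccH k F1 K0 z)) h7
    simpa [map_ofNat] using this
  have ht : psi k F1 K0 (-π⁻¹) 5 (MvPolynomial.X 0) = C (-π⁻¹) * X^5 := psi_X0 _
  have hb : psi k F1 K0 (-π⁻¹) 5 (bM k) = - (C (-π⁻¹) * X^5) := by
    simp only [bM, map_mul, map_sub, map_pow, map_one, map_ofNat, ht, h7']
    ring
  rw [ΘM, map_sub, map_mul, map_mul, hb, ht, psi_UM, psi_VM]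
  have h1 : (C (-π⁻¹) : K0[X]) * (C (algebraMap F1[X] K0 (UE F1 u)) +
      C (algebraMap F1[X] K0 (VE F1 u))) = -1 := by
    rw [← C_add, ← map_add, ← hπ, ← C_mul, neg_mul, inv_mul_cancel₀ hπ0, C_neg, C_1]
  linear_combination (-(X^5)) * h1

/-- Anisotropy in the specialised function field. -/
theorem aniso_special [IsFractionRing k[X] F1] [IsFractionRing F1[X] K0]
    (h7 : (7 : k) = 0) {u : k} (hu : u^2 + u - 1 = 0) {π : K0}
    (hπ : π = algebraMap F1[X] K0 (UE F1 u + VE F1 u)) :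
    π ≠ 0 ∧ psi k F1 K0 (-π⁻¹) 5 (UM u) ≠ 0 ∧
      Aniso (psi k F1 K0 (-π⁻¹) 5 (MvPolynomial.X 0)) (psi k F1 K0 (-π⁻¹) 5 (UM u)) := by
  have h2 : (2 : k) ≠ 0 := by
    intro h
    have : (1 : k) = 0 := by linear_combination 4 * h - h7
    exact one_ne_zero this
  have h5 : (5 : k) ≠ 0 := by
    intro h
    have : (1 : k) = 0 := by linear_combination 3 * h - 2 * h7
    exact one_ne_zero this
  have hu1 : 2 * u + 1 ≠ 0 := by
    intro h
    apply h5
    linear_combination (2 * u + 1) * h - 4 * hu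
  have hT : 2 * (-11/2 : k) = -11 := by field_simp
  have hA : Aniso (UE F1 u + VE F1 u) (UE F1 u) :=
    aniso_E (F1 := F1) hT h2 h5 hu1
  have hA2 := hA.fraction K0
  have hne : UE F1 u + VE F1 u ≠ 0 := by
    rw [UE_add_VE hT]
    refine mul_ne_zero ?_ (mE_monic _).ne_zero
    rw [Ne, C_eq_zero, FaithfulSMul.algebraMap_eq_zero_iff, C_eq_zero]
    exact h2
  have hπ0 : π ≠ 0 := by
    rw [hπ, Ne, FaithfulSMul.algebraMap_eq_zero_iff]
    exact hne
  have hUE : UE F1 u ≠ 0 := by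
    intro h
    obtain ⟨a, b, hab⟩ : ∃ a b : F1, UE F1 u = X^2 + C a * X - C b := by
      refine ⟨algebraMap k[X] F1 X +
          (5 * (algebraMap k[X] F1 (C u)) - 3) * (1 + algebraMap k[X] F1 X),
          (algebraMap k[X] F1 X)^3 + (5 * (algebraMap k[X] F1 (C u)) - 3) *
            (algebraMap k[X] F1 X)^2, ?_⟩
      simp only [UE, ΦE, gE, C_add, C_mul, C_sub, C_pow, C_1, map_ofNat]
      ring
    have h4 : (UE F1 u).coeff 2 = 1 := by
      rw [hab]
      simp
    rw [h] at h4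
    simp at h4
  rw [← hπ] at hA2
  have hU0 : algebraMap F1[X] K0 (UE F1 u) ≠ 0 := by
    rw [Ne, FaithfulSMul.algebraMap_eq_zero_iff]
    exact hUE
  refine ⟨hπ0, ?_, ?_⟩
  · rw [psi_UM, Ne, C_eq_zero]
    exact hU0
  · have hA3 := (hA2.polynomial hU0).change hπ0
    have ht : psi k F1 K0 (-π⁻¹) 5 (MvPolynomial.X 0) = -(C π⁻¹ * X^5) := by
      rw [psi_X0, C_neg, neg_mul]
    rw [ht, psi_UM]
    exact hA3

end

section

theorem final_step {k : Type*} (F1 K0 : Type*) [Field k] [Field F1] [Algebra k[X] F1] [Field K0]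
    [Algebra F1[X] K0] [IsFractionRing k[X] F1] [IsFractionRing F1[X] K0] (h7 : (7 : k) = 0) {u : k} (hu : u^2 + u - 1 = 0)
    (a : Fin 5 × Fin 5 → MvPolynomial (Fin 3) k) (d : MvPolynomial (Fin 3) k) (r1 r2 : k)
    (hr : r2 = 1 ∨ r1 = 1) (ha : ∃ i, a i ≠ 0) (hd : d ≠ 0)
    (P : Fin 5 → (MvPolynomial (Fin 3) k)[X])
    (hP : ∀ i, P i = ∑ j : Fin 5, C (a (i, j)) * X^(j : ℕ))
    (Q : (MvPolynomial (Fin 3) k)[X])
    (h : nf (P 0) (P 1) (P 2) (P 3) (P 4) (C (MvPolynomial.X 0)) * (C (MvPolynomial.C r2))^5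
      - (C (MvPolynomial.C r1))^5 * C (UM u) * (C d)^5 = (X^5 - C (ΘM u)) * Q) : False := by
  obtain ⟨π, hπ⟩ : ∃ π : K0, π = algebraMap F1[X] K0 (UE F1 u + VE F1 u) := ⟨_, rfl⟩
  obtain ⟨hπ0, hU0, hAn⟩ := aniso_special h7 hu hπ
  have hΘ := psi_ΘM h7 hπ hπ0
  set s : K0 := -π⁻¹ with hs
  have hs0 : s ≠ 0 := neg_ne_zero.2 (inv_ne_zero hπ0)
  let ψ := psi k F1 K0 s 5
  let Ψ : (MvPolynomial (Fin 3) k)[X] →+* K0[X] := eval₂RingHom ψ X
  have hΨC : ∀ b, Ψ (C b) = ψ b := fun b => by simp [Ψ]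
  have h1 := congrArg Ψ h
  have h2 : Ψ (X^5 - C (ΘM u)) = 0 := by
    rw [map_sub, map_pow, hΨC]
    have : ψ (ΘM u) = X^5 := hΘ
    rw [this]
    simp [Ψ]
  rw [map_mul, h2, zero_mul, map_sub, map_mul, map_mul, map_mul, map_pow, map_pow, map_pow,
    map_nf] at h1
  simp only [hΨC] at h1
  have h3 : nf (ψ (MvPolynomial.C r2) * Ψ (P 0)) (ψ (MvPolynomial.C r2) * Ψ (P 1))
      (ψ (MvPolynomial.C r2) * Ψ (P 2)) (ψ (MvPolynomial.C r2) * Ψ (P 3))
      (ψ (MvPolynomial.C r2) * Ψ (P 4)) (ψ (MvPolynomial.X 0)) =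
      (ψ (MvPolynomial.C r1) * ψ d)^5 * ψ (UM u) := by
    rw [nf_scale]
    linear_combination h1
  obtain ⟨z0, z1, z2, z3, z4⟩ := hAn _ _ _ _ _ _ h3
  have hψ : Function.Injective ψ := psi_five_injective k F1 K0 hs0
  rcases hr with hr | hr
  · -- `r2 = 1`
    have hone : ψ (MvPolynomial.C r2) = 1 := by rw [hr, MvPolynomial.C_1, map_one]
    rw [hone, one_mul] at z0 z1 z2 z3 z4
    have hall : ∀ i, Ψ (P i) = 0 := by
      intro i
      fin_cases i
      · exact z0
      · exact z1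
      · exact z2
      · exact z3
      · exact z4
    obtain ⟨⟨i, j⟩, hij⟩ := ha
    apply hij
    have h4 := hall i
    rw [hP, map_sum] at h4
    simp only [map_mul, hΨC, map_pow] at h4
    have hX : Ψ X = X := by simp [Ψ]
    simp only [hX] at h4
    exact psi_sum_eq_zero k F1 K0 hs0 (fun j => a (i, j)) h4 j
  · -- `r1 = 1`
    have hone : ψ (MvPolynomial.C r1) = 1 := by rw [hr, MvPolynomial.C_1, map_one]
    rw [hone, one_mul, z0, z1, z2, z3, z4] at h3
    have h4 : nf (0 : K0[X]) 0 0 0 0 (ψ (MvPolynomial.X 0)) = 0 := by unfold nf; ring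
    rw [h4] at h3
    have h5 : ψ d ≠ 0 := by
      rw [Ne, map_eq_zero_iff _ hψ]
      exact hd
    exact mul_ne_zero (pow_ne_zero 5 h5) hU0 h3.symm

theorem final_step' {O k : Type*} [CommRing O] [Field k] (res : O →+* k) (h7 : (7 : k) = 0)
    {u : O} (hu : u^2 + u - 1 = 0)
    (a : Fin 5 × Fin 5 → MvPolynomial (Fin 3) O) (d : MvPolynomial (Fin 3) O) (r1 r2 : O)
    (hr : r2 = 1 ∨ r1 = 1) (ha : ∃ i, MvPolynomial.map res (a i) ≠ 0)
    (hd : MvPolynomial.map res d ≠ 0)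
    (P : Fin 5 → (MvPolynomial (Fin 3) O)[X])
    (hP : ∀ i, P i = ∑ j : Fin 5, C (a (i, j)) * X^(j : ℕ))
    (Q : (MvPolynomial (Fin 3) O)[X])
    (h : nf (P 0) (P 1) (P 2) (P 3) (P 4) (C (MvPolynomial.X 0)) * (C (MvPolynomial.C r2))^5
      - (C (MvPolynomial.C r1))^5 * C (UM u) * (C d)^5 = (X^5 - C (ΘM u)) * Q) : False := by
  let J : MvPolynomial (Fin 3) O →+* MvPolynomial (Fin 3) k := MvPolynomial.map res
  have hJC : ∀ r : O, J (MvPolynomial.C r) = MvPolynomial.C (res r) := fun r =>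
    MvPolynomial.map_C _ _
  have hJU : J (UM u) = UM (res u) := map_UM res u
  have hJΘ : J (ΘM u) = ΘM (res u) := map_ΘM res u
  have hJX : J (MvPolynomial.X 0) = MvPolynomial.X 0 := MvPolynomial.map_X _ _
  have huk : (res u)^2 + res u - 1 = 0 := by
    have := congrArg res hu
    simpa using this
  refine final_step (FractionRing k[X]) (FractionRing (FractionRing k[X])[X]) h7 huk
    (fun ij => J (a ij)) (J d) (res r1) (res r2) ?_ ha hd (fun i => (P i).map J)
    ?_ (Q.map J) ?_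
  · rcases hr with h1 | h1
    · left; rw [h1, map_one]
    · right; rw [h1, map_one]
  · intro i
    simp only [hP, Polynomial.map_sum, Polynomial.map_mul, Polynomial.map_pow, map_C, map_X]
  · have h1 := congrArg (mapRingHom J) h
    have h2 : mapRingHom J (nf (P 0) (P 1) (P 2) (P 3) (P 4) (C (MvPolynomial.X 0))) =
        nf ((P 0).map J) ((P 1).map J) ((P 2).map J) ((P 3).map J) ((P 4).map J)
          (C (MvPolynomial.X 0)) := by
      rw [map_nf]
      simp only [coe_mapRingHom, map_C, hJX]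
    rw [map_sub, map_mul, h2] at h1
    simpa only [map_mul, map_sub, map_pow, coe_mapRingHom, map_C, map_X, hJC, hJU, hJΘ] using h1

end

section

variable {K : Type*} [Field K]

theorem monic_f0 {R : Type*} [CommRing R] [Nontrivial R] (Θ : R) : (X^5 - C Θ : R[X]).Monic := by
  monicity!

theorem natDegree_f0 {R : Type*} [CommRing R] [Nontrivial R] (Θ : R) :
    (X^5 - C Θ : R[X]).natDegree = 5 := by
  compute_degree!

/-- The main computation: the norm equation has no solution. -/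
theorem noSol (φ : MvPolynomial (Fin 3) ℂ →+* K) (y : K) {u : ℂ} (hu : u^2 + u - 1 = 0)
    (hy : y^5 = φ (ΘM u))
    (gen : ∀ c : K, ∃ (p : (MvPolynomial (Fin 3) ℂ)[X]) (D : MvPolynomial (Fin 3) ℂ),
      φ D ≠ 0 ∧ c * φ D = eval₂ φ y p)
    (indep : ∀ p : (MvPolynomial (Fin 3) ℂ)[X], eval₂ φ y p = 0 → (X^5 - C (ΘM u)) ∣ p)
    (c0 c1 c2 c3 c4 : K) (h : nf c0 c1 c2 c3 c4 (φ (MvPolynomial.X 0)) = φ (UM u)) : False := by
  classical
  -- step 0: `φ` is injective
  have hφ : ∀ a : MvPolynomial (Fin 3) ℂ, φ a = 0 → a = 0 := by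
    intro a ha
    have h1 := indep (C a) (by rw [eval₂_C, ha])
    by_contra hne
    have h2 := natDegree_le_of_dvd h1 (by rwa [Ne, C_eq_zero])
    rw [natDegree_f0, natDegree_C] at h2
    omega
  have hf0 : eval₂ φ y (X^5 - C (ΘM u)) = 0 := by
    simp [hy]
  -- step 1: common denominators
  obtain ⟨D, hD, q, hqd, hq⟩ : ∃ D : MvPolynomial (Fin 3) ℂ, φ D ≠ 0 ∧
      ∃ q : Fin 5 → (MvPolynomial (Fin 3) ℂ)[X], (∀ i, (q i).natDegree < 5) ∧
        ∀ i, (![c0, c1, c2, c3, c4] : Fin 5 → K) i * φ D = eval₂ φ y (q i) := by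
    choose p D hD hp using fun i => gen ((![c0, c1, c2, c3, c4] : Fin 5 → K) i)
    refine ⟨∏ i, D i, ?_, fun i => (p i * C (∏ j ∈ Finset.univ.erase i, D j)) %ₘ
      (X^5 - C (ΘM u)), ?_, ?_⟩
    · rw [map_prod]
      exact Finset.prod_ne_zero_iff.2 fun i _ => hD i
    · intro i
      refine (natDegree_modByMonic_lt _ (monic_f0 _) ?_).trans_le (natDegree_f0 _).le
      intro h1
      have := natDegree_f0 (ΘM u)
      rw [h1, natDegree_one] at this
      omega
    · intro i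
      have h1 := modByMonic_add_div (p i * C (∏ j ∈ Finset.univ.erase i, D j)) (X^5 - C (ΘM u))
      have h2 := congrArg (eval₂ φ y) h1
      rw [eval₂_add, eval₂_mul, hf0, zero_mul, add_zero, eval₂_mul, eval₂_C, ← hp i] at h2
      rw [h2, mul_assoc, ← map_mul, Finset.mul_prod_erase _ _ (Finset.mem_univ i)]
  have hnf : nf (eval₂ φ y (q 0)) (eval₂ φ y (q 1)) (eval₂ φ y (q 2)) (eval₂ φ y (q 3))
      (eval₂ φ y (q 4)) (φ (MvPolynomial.X 0)) = (φ D)^5 * φ (UM u) := by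
    have e0 : c0 * φ D = eval₂ φ y (q 0) := hq 0
    have e1 : c1 * φ D = eval₂ φ y (q 1) := hq 1
    have e2 : c2 * φ D = eval₂ φ y (q 2) := hq 2
    have e3 : c3 * φ D = eval₂ φ y (q 3) := hq 3
    have e4 : c4 * φ D = eval₂ φ y (q 4) := hq 4
    rw [← h, ← nf_scale, ← e0, ← e1, ← e2, ← e3, ← e4]
    simp only [mul_comm]
  have hUM : φ (UM u) ≠ 0 := fun h1 => UM_ne_zero u (hφ _ h1)
  -- step 2: contents
  obtain ⟨O, hO⟩ := exists_seven_adic
  obtain ⟨c, a, hc, ha, i1, ha1⟩ := content_mv O (fun ij : Fin 5 × Fin 5 => (q ij.1).coeff ij.2) (by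
    by_contra hall
    push Not at hall
    have hq0 : ∀ i, q i = 0 := by
      intro i
      ext1 n
      rw [coeff_zero]
      by_cases hn : n < 5
      · exact hall (i, ⟨n, hn⟩)
      · exact coeff_eq_zero_of_natDegree_lt (lt_of_lt_of_le (hqd i) (not_lt.1 hn))
    rw [hq0, hq0, hq0, hq0, hq0, eval₂_zero] at hnf
    have h1 : nf (0 : K) 0 0 0 0 (φ (MvPolynomial.X 0)) = 0 := by unfold nf; ring
    rw [h1] at hnf
    exact mul_ne_zero (pow_ne_zero 5 hD) hUM hnf.symm)
  obtain ⟨e, d, he, hd, i2, hd1⟩ := content_mv O (fun _ : Unit => D) ⟨(), by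
    rintro rfl
    exact hD (map_zero φ)⟩
  -- step 3: scalars
  obtain ⟨r1, r2, hr, hr12⟩ : ∃ r1 r2 : O, (c / e) * (r2 : ℂ) = r1 ∧
      (r2 = 1 ∨ r1 = 1) := by
    rcases O.mem_or_inv_mem (c / e) with h1 | h1
    · exact ⟨⟨c/e, h1⟩, 1, by simp, Or.inl rfl⟩
    · exact ⟨1, ⟨_, h1⟩, by
        have : c / e ≠ 0 := div_ne_zero hc he
        simp only [OneMemClass.coe_one]
        exact mul_inv_cancel₀ this, Or.inr rfl⟩
  -- step 4: the polynomial identity
  let I : MvPolynomial (Fin 3) O →+* MvPolynomial (Fin 3) ℂ := MvPolynomial.map O.subtype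
  have hI : Function.Injective I := MvPolynomial.map_injective _ Subtype.val_injective
  let uO : O := ⟨u, root_mem O hu⟩
  let P : Fin 5 → (MvPolynomial (Fin 3) O)[X] := fun i => ∑ j : Fin 5, C (a (i, j)) * X^(j : ℕ)
  have hP : ∀ i, (P i).map I = C (MvPolynomial.C c) * q i := by
    intro i
    have h1 : q i = ∑ j : Fin 5, C ((q i).coeff (j : ℕ)) * X^(j : ℕ) := by
      conv_lhs => rw [(q i).as_sum_range' 5 (hqd i)]
      rw [Finset.sum_range]
      refine Finset.sum_congr rfl fun j _ => ?_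
      rw [C_mul_X_pow_eq_monomial]
    conv_rhs => rw [h1]
    rw [Finset.mul_sum]
    simp only [P, Polynomial.map_sum, Polynomial.map_mul, Polynomial.map_pow, map_C, map_X]
    refine Finset.sum_congr rfl fun j _ => ?_
    have h2 : I (a (i, j)) = MvPolynomial.C c * (q i).coeff (j : ℕ) := ha (i, j)
    rw [h2, C_mul, mul_assoc]
  let G : (MvPolynomial (Fin 3) O)[X] :=
    nf (P 0) (P 1) (P 2) (P 3) (P 4) (C (MvPolynomial.X 0)) * (C (MvPolynomial.C r2))^5
      - (C (MvPolynomial.C r1))^5 * C (UM uO) * (C (d ()))^5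
  have hG : eval₂ φ y (G.map I) = 0 := by
    have h1 : ∀ i, eval₂ φ y ((P i).map I) = φ (MvPolynomial.C c) * eval₂ φ y (q i) := by
      intro i
      rw [hP, eval₂_mul, eval₂_C]
    have h2 : eval₂ φ y ((nf (P 0) (P 1) (P 2) (P 3) (P 4) (C (MvPolynomial.X 0))).map I) =
        (φ (MvPolynomial.C c))^5 * ((φ D)^5 * φ (UM u)) := by
      have h3 := map_nf ((eval₂RingHom φ y).comp (mapRingHom I)) (P 0) (P 1) (P 2) (P 3) (P 4)
        (C (MvPolynomial.X 0))
      simp only [RingHom.comp_apply, coe_mapRingHom, coe_eval₂RingHom, h1, map_C, eval₂_C] at h3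
      have h4 : I (MvPolynomial.X 0) = MvPolynomial.X 0 := MvPolynomial.map_X _ _
      rw [h3, h4, nf_scale, hnf]
    have h5 : I (UM uO) = UM u := map_UM O.subtype uO
    have h6 : ∀ r : O, I (MvPolynomial.C r) = MvPolynomial.C (r : ℂ) := fun r =>
      MvPolynomial.map_C _ _
    have h7 : I (d ()) = MvPolynomial.C e * D := hd ()
    have h8 : (φ (MvPolynomial.C c)) * φ (MvPolynomial.C (r2 : ℂ)) =
        φ (MvPolynomial.C (r1 : ℂ)) * φ (MvPolynomial.C e) := by
      have e1 : (φ (MvPolynomial.C c)) * φ (MvPolynomial.C (r2 : ℂ)) =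
          φ (MvPolynomial.C (c * r2)) := by rw [MvPolynomial.C_mul, map_mul]
      have e2 : (φ (MvPolynomial.C (r1 : ℂ))) * φ (MvPolynomial.C e) =
          φ (MvPolynomial.C (r1 * e)) := by rw [MvPolynomial.C_mul, map_mul]
      rw [e1, e2, ← hr]
      congr 2
      field_simp
    simp only [G, Polynomial.map_sub, Polynomial.map_mul, Polynomial.map_pow, map_C, eval₂_sub,
      eval₂_mul, eval₂_pow, eval₂_C, h2, h5, h6, h7, map_mul]
    have h9 : (φ (MvPolynomial.C c))^5 * (φ (MvPolynomial.C (r2 : ℂ)))^5 =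
        (φ (MvPolynomial.C (r1 : ℂ)))^5 * (φ (MvPolynomial.C e))^5 := by
      rw [← mul_pow, ← mul_pow, h8]
    linear_combination (φ D)^5 * φ (UM u) * h9
  have hmap : (X^5 - C (ΘM uO) : (MvPolynomial (Fin 3) O)[X]).map I = X^5 - C (ΘM u) := by
    have h1 : I (ΘM uO) = ΘM u := map_ΘM O.subtype uO
    simp only [Polynomial.map_sub, Polynomial.map_pow, map_X, map_C, h1]
  have hdvd : (X^5 - C (ΘM uO)) ∣ G := by
    rw [← modByMonic_eq_zero_iff_dvd (monic_f0 _)]
    apply Polynomial.map_injective I hI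
    rw [map_modByMonic _ (monic_f0 _), hmap, Polynomial.map_zero,
      modByMonic_eq_zero_iff_dvd (monic_f0 _)]
    exact indep _ hG
  obtain ⟨Q, hQ⟩ := hdvd
  -- step 5: reduction
  have h7k : (7 : IsLocalRing.ResidueField O) = 0 := by
    have h1 : (7 : O) ∈ IsLocalRing.maximalIdeal O := by
      have h2 : (7 : ℂ) ∈ (Subtype.val '' (IsLocalRing.maximalIdeal O : Set O)) := by
        rw [O.image_maximalIdeal]; exact hO
      obtain ⟨z, hz, hz'⟩ := h2
      have h3 : z = 7 := by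
        apply Subtype.ext
        rw [hz']
        exact (map_ofNat O.subtype 7).symm
      rwa [h3] at hz
    have h2 : IsLocalRing.residue O 7 = 0 := (IsLocalRing.residue_eq_zero_iff _).2 h1
    rwa [map_ofNat] at h2
  have huO : uO^2 + uO - 1 = 0 := by
    apply Subtype.ext
    exact hu
  exact final_step' (IsLocalRing.residue O) h7k huO a (d ()) r1 r2 hr12 ⟨i1, ha1⟩ hd1 P
    (fun _ => rfl) Q hQ

end

end Pool.Agent.BrFive
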