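import Mathlib
import Pool.Agent.BrFive.Chain

/-! Local analysis at a discrete valuation ring. -/

namespace Pool.Agent.BrFive

open TensorProduct

universe u

section

variable {K A : Type u} [Field K] [Ring A] [Algebra K A]

/-- `A` is the base change of an Azumaya algebra over the valuation ring `R`. -/
def GoodAt (K A : Type u) [Field K] [Ring A] [Algebra K A] (R : ValuationSubring K) : Prop :=
  ∃ (B : Type u) (_ : Ring B) (_ : Algebra R B), IsAzumaya R B ∧
    Nonempty ((K ⊗[R] B) ≃ₐ[K] A)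

theorem good_of_units {ζ h a : K} (R : ValuationSubring K)
    (hζ : 1 + ζ + ζ^2 + ζ^3 + ζ^4 = 0) (hζR : ζ ∈ R) [Nontrivial A]
    (hrank : Module.finrank K A = 25) (H : HasPair ζ A h a)
    (h5 : R.valuation 5 = 1) (hh : R.valuation h = 1) (ha : R.valuation a = 1) :
    GoodAt K A R := by
  obtain ⟨x, y, P⟩ := H
  let _ : Algebra R A := Algebra.compHom A (algebraMap R K)
  have _ : IsScalarTower R K A := IsScalarTower.of_algebraMap_eq fun _ => rfl
  have hhR : h ∈ R := (R.valuation_le_one_iff h).1 hh.le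
  have haR : a ∈ R := (R.valuation_le_one_iff a).1 ha.le
  have P' : IsPair (⟨ζ, hζR⟩ : R) (⟨h, hhR⟩ : R) (⟨a, haR⟩ : R) x y :=
    { x_pow := P.x_pow
      y_pow := P.y_pow
      comm := P.comm }
  have hζ' : 1 + (⟨ζ, hζR⟩ : R) + (⟨ζ, hζR⟩ : R)^2 + (⟨ζ, hζR⟩ : R)^3 + (⟨ζ, hζR⟩ : R)^4 = 0 := by
    apply Subtype.ext
    push_cast
    exact hζ
  have u5 : IsUnit (5 : R) := by
    rw [ValuationSubring.valuation_eq_one_iff]
    exact_mod_cast h5
  have uh : IsUnit (⟨h, hhR⟩ : R) := (R.valuation_eq_one_iff _).2 hh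
  have ua : IsUnit (⟨a, haR⟩ : R) := (R.valuation_eq_one_iff _).2 ha
  obtain ⟨hAz, hiso⟩ := P'.exists_model (K := K) (A := A) Subtype.val_injective hζ' u5 uh ua hrank
  exact ⟨P'.subalg, inferInstance, inferInstance, hAz, hiso⟩

/-- The value of `h` is divisible by five. -/
def Div5 (R : ValuationSubring K) (h : K) : Prop := ∃ c : K, c ≠ 0 ∧ R.valuation h = R.valuation c ^ 5

theorem good_of_div5 {ζ h a : K} (R : ValuationSubring K)
    (hζ : 1 + ζ + ζ^2 + ζ^3 + ζ^4 = 0) (hζR : ζ ∈ R) [Nontrivial A]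
    (hrank : Module.finrank K A = 25) (H : HasPair ζ A h a)
    (h5 : R.valuation 5 = 1) (hh : Div5 R h) (ha : R.valuation a = 1) :
    GoodAt K A R := by
  obtain ⟨c, hc, hv⟩ := hh
  have H' := H.scale_left c⁻¹
  refine good_of_units R hζ hζR hrank H' h5 ?_ ha
  rw [map_mul, map_pow, map_inv₀, hv, ← mul_pow, mul_inv_cancel₀, one_pow]
  exact (Valuation.ne_zero_iff _).2 hc

end

section

variable {K A : Type u} [Field K] [Ring A] [Algebra K A]

/-- In a DVR, every nonzero element is a unit times a power of the uniformizer; here modulo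
fifth powers. -/
theorem exists_div5 (R : ValuationSubring K) [IsDiscreteValuationRing R] (ϖ : R)
    (hϖ : Irreducible ϖ) (h : K) (hh : h ≠ 0) :
    ∃ k : ℕ, ∀ N : K, R.valuation N = R.valuation ϖ → Div5 R (h * N^k) := by
  have hϖ0 : (ϖ : K) ≠ 0 := by
    have := hϖ.ne_zero
    exact_mod_cast this
  have hv0 : R.valuation (ϖ : K) ≠ 0 := (Valuation.ne_zero_iff _).2 hϖ0
  have key : ∀ r : R, r ≠ 0 → ∃ n : ℕ, R.valuation (r : K) = R.valuation (ϖ : K) ^ n := by
    intro r hr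
    obtain ⟨n, u, hu⟩ := IsDiscreteValuationRing.eq_unit_mul_pow_irreducible hr hϖ
    refine ⟨n, ?_⟩
    rw [hu]
    push_cast
    rw [map_mul, map_pow, R.valuation_unit, one_mul]
  rcases R.mem_or_inv_mem h with hR | hR
  · obtain ⟨n, hn⟩ := key ⟨h, hR⟩ (by
      intro h0
      exact hh (congrArg Subtype.val h0))
    simp only at hn
    refine ⟨4 * n, fun N hN => ⟨(ϖ : K)^n, pow_ne_zero _ hϖ0, ?_⟩⟩
    rw [map_mul, map_pow, map_pow, hn, hN, ← pow_add, ← pow_mul]
    congr 1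
    ring
  · obtain ⟨n, hn⟩ := key ⟨h⁻¹, hR⟩ (by
      intro h0
      exact (inv_ne_zero hh) (congrArg Subtype.val h0))
    simp only [map_inv₀] at hn
    refine ⟨n, fun N hN => ⟨1, one_ne_zero, ?_⟩⟩
    rw [map_mul, map_pow, hN, map_one, one_pow, ← hn, mul_inv_cancel₀]
    exact (Valuation.ne_zero_iff _).2 hh

theorem good_of_residue {ζ h a : K} (R : ValuationSubring K) [IsDiscreteValuationRing R]
    (hζ : 1 + ζ + ζ^2 + ζ^3 + ζ^4 = 0) (hζR : ζ ∈ R) [Nontrivial A]
    (hrank : Module.finrank K A = 25) (H : HasPair ζ A h a) (hh : h ≠ 0)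
    (h5 : R.valuation 5 = 1) (ha : R.valuation a = 1) (c : K)
    (hc : R.valuation (a - c^5) < 1) : GoodAt K A R := by
  obtain ⟨ϖ, hϖ⟩ := IsDiscreteValuationRing.exists_irreducible R
  have hϖ0 : (ϖ : K) ≠ 0 := by
    have := hϖ.ne_zero
    exact_mod_cast this
  have hϖ1 : R.valuation (ϖ : K) < 1 := by
    rw [← ValuationSubring.valuation_lt_one_iff]
    exact (IsLocalRing.mem_maximalIdeal _).2 hϖ.not_isUnit
  -- the value of `c` is one
  have hcv : R.valuation c = 1 := by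
    have h1 : R.valuation (c^5) = 1 := by
      have : c^5 = a - (a - c^5) := by ring
      rw [this, Valuation.map_sub_eq_of_lt_left _ (by rw [ha]; exact hc), ha]
    rw [map_pow] at h1
    exact (pow_eq_one_iff.1 h1).resolve_right (by norm_num)
  have hdisc : ∀ z : K, R.valuation z < 1 → R.valuation z ≤ R.valuation (ϖ : K) := by
    intro z hz
    have hzR : z ∈ R := (R.valuation_le_one_iff z).1 hz.le
    have hm : (⟨z, hzR⟩ : R) ∈ IsLocalRing.maximalIdeal R :=
      (ValuationSubring.valuation_lt_one_iff _ _).2 hz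
    rw [hϖ.maximalIdeal_eq, Ideal.mem_span_singleton] at hm
    obtain ⟨w, hw⟩ := hm
    have : z = (ϖ : K) * (w : K) := congrArg Subtype.val hw
    rw [this, map_mul]
    exact mul_le_of_le_one_right' (R.valuation_le_one w)
  obtain ⟨c', hc', hcv'⟩ : ∃ c' : K, R.valuation (a - c'^5) = R.valuation (ϖ : K) ∧
      R.valuation c' = 1 := by
    by_cases hlt : R.valuation (a - c^5) = R.valuation (ϖ : K)
    · exact ⟨c, hlt, hcv⟩
    · have hlt' : R.valuation (a - c^5) < R.valuation (ϖ : K) :=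
        lt_of_le_of_ne (hdisc _ hc) hlt
      refine ⟨c + ϖ, ?_, ?_⟩
      · have e : a - (c + ϖ)^5 = (a - c^5) - ϖ * (5*c^4 + ϖ*(10*c^3 + 10*c^2*ϖ + 5*c*ϖ^2 + ϖ^3)) := by
          ring
        have hcR : c ∈ R := (R.valuation_le_one_iff c).1 hcv.le
        have h2 : R.valuation (5*c^4 + ϖ*(10*c^3 + 10*c^2*ϖ + 5*c*ϖ^2 + ϖ^3)) = 1 := by
          have h3 : R.valuation (5 * c^4) = 1 := by
            rw [map_mul, map_pow, h5, hcv, one_pow, one_mul]
          have h4 : R.valuation ((ϖ : K)*(10*c^3 + 10*c^2*ϖ + 5*c*ϖ^2 + ϖ^3)) < 1 := by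
            rw [map_mul]
            refine mul_lt_one_of_lt_of_le hϖ1 ?_
            rw [R.valuation_le_one_iff]
            have hϖR : (ϖ : K) ∈ R := ϖ.2
            exact add_mem (add_mem (add_mem (mul_mem (ofNat_mem R 10) (pow_mem hcR 3))
              (mul_mem (mul_mem (ofNat_mem R 10) (pow_mem hcR 2)) hϖR))
              (mul_mem (mul_mem (ofNat_mem R 5) hcR) (pow_mem hϖR 2))) (pow_mem hϖR 3)
          rw [Valuation.map_add_eq_of_lt_left _ (by rw [h3]; exact h4), h3]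
        have h6 : R.valuation ((ϖ : K) * (5*c^4 + ϖ*(10*c^3 + 10*c^2*ϖ + 5*c*ϖ^2 + ϖ^3)))
            = R.valuation (ϖ : K) := by rw [map_mul, h2, mul_one]
        rw [e, Valuation.map_sub_eq_of_lt_right _ (by rw [h6]; exact hlt'), h6]
      · rw [Valuation.map_add_eq_of_lt_left _ (by rw [hcv]; exact hϖ1), hcv]
  have hc'0 : c' ≠ 0 := by
    rintro rfl
    rw [map_zero] at hcv'
    exact zero_ne_one hcv'
  obtain ⟨k, hk⟩ := exists_div5 R ϖ hϖ h hh
  have hN : R.valuation (nf 1 (-c'⁻¹) 0 0 0 a) = R.valuation (ϖ : K) := by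
    rw [nf_one_sub]
    have : 1 - c'⁻¹^5 * a = -((a - c'^5) * (c'⁻¹)^5) := by field_simp; ring
    rw [this, Valuation.map_neg, map_mul, hc', map_pow, map_inv₀, hcv', inv_one, one_pow, mul_one]
  exact good_of_div5 R hζ hζR hrank (H.norm_left_pow hζ 1 (-c'⁻¹) 0 0 0 k) h5 (hk _ hN) ha

end

end Pool.Agent.BrFive
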