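import Mathlib
import Pool.Agent.BrFive.Local

/-! The valuation analysis along horizontal valuations. -/

namespace Pool.Agent.BrFive

section

variable {K Γ : Type*} [Field K] [LinearOrderedCommGroupWithZero Γ] (v : Valuation K Γ)

theorem horizontal {t b u X Y y g Φ U V : K}
    (hg : g = (1 + X) * Y - X^2) (hΦ : Φ = Y^2 + X*Y - X^3)
    (hU : U = Φ + (5*u-3) * g) (hV : V = Φ - (5*u+8) * g)
    (hS : y^5 = b * U - t * V) (hy : y ≠ 0)
    (ht : v t = 1) (hb : v b = 1) (hδ : v (b - t) = 1)
    (hε : v (b*(5*u-3) + t*(5*u+8)) = 1) (hκ : v (5 * (2*u+1)) = 1) :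
    (∃ c : K, c ≠ 0 ∧ v U = v c ^ 5) ∨ (∃ c : K, c ≠ 0 ∧ v V = v c ^ 5) := by
  by_contra hcon
  push Not at hcon
  obtain ⟨nU, nV⟩ := hcon
  have hbU : v (b * U) = v U := by rw [map_mul, hb, one_mul]
  have htV : v (t * V) = v V := by rw [map_mul, ht, one_mul]
  have hUV : v U = v V := by
    by_contra hne
    rcases lt_or_gt_of_ne hne with hlt | hlt
    · have : v (y^5) = v V := by
        rw [hS, Valuation.map_sub_eq_of_lt_right _ (by rw [hbU, htV]; exact hlt), htV]
      exact nV y hy (by rw [← this, map_pow])
    · have : v (y^5) = v U := by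
        rw [hS, Valuation.map_sub_eq_of_lt_left _ (by rw [hbU, htV]; exact hlt), hbU]
      exact nU y hy (by rw [← this, map_pow])
  have hy5 : v (y^5) < v U := by
    refine lt_of_le_of_ne ?_ ?_
    · rw [hS]
      refine le_trans (Valuation.map_sub _ _ _) ?_
      rw [hbU, htV, hUV, max_self]
    · intro h
      exact nU y hy (by rw [← h, map_pow])
  have hδU : v ((b - t) * U) = v U := by rw [map_mul, hδ, one_mul]
  have hgU : v g = v U := by
    have e : 5 * (2*u+1) * t * g = y^5 - (b - t) * U := by
      rw [hS, hU, hV]; ring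
    have h1 : v (5 * (2*u+1) * t * g) = v g := by rw [map_mul, map_mul, hκ, ht, one_mul, one_mul]
    rw [← h1, e, Valuation.map_sub_eq_of_lt_right _ (by rw [hδU]; exact hy5), hδU]
  have hΦU : v Φ = v U := by
    have e : (b - t) * Φ = y^5 - (b*(5*u-3) + t*(5*u+8)) * g := by
      rw [hS, hU, hV]; ring
    have h1 : v ((b - t) * Φ) = v Φ := by rw [map_mul, hδ, one_mul]
    have h2 : v ((b*(5*u-3) + t*(5*u+8)) * g) = v U := by rw [map_mul, hε, one_mul, hgU]
    rw [← h1, e, Valuation.map_sub_eq_of_lt_right _ (by rw [h2]; exact hy5), h2]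
  have hX5 : X^5 = g * (g + X + 3*X^2) - (1+X)^2 * Φ := by
    rw [hg, hΦ]; ring
  have v3 : v 3 ≤ 1 := by
    have e : (3:K) = 1 + 1 + 1 := by norm_num
    rw [e]
    refine le_trans (Valuation.map_add _ _ _) (max_le ?_ (by rw [map_one]))
    exact le_trans (Valuation.map_add _ _ _) (max_le (by rw [map_one]) (by rw [map_one]))
  rcases le_or_gt (v X) 1 with hX | hX
  · rcases le_or_gt (v Y) 1 with hY | hY
    · have hg1 : v g ≤ 1 := by
        rw [hg]
        refine le_trans (Valuation.map_sub _ _ _) (max_le ?_ ?_)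
        · rw [map_mul]
          exact mul_le_one' (le_trans (Valuation.map_add _ _ _) (max_le (by rw [map_one]) hX)) hY
        · rw [map_pow]; exact pow_le_one' hX 2
      have hm1 : v U < 1 := by
        refine lt_of_le_of_ne (hgU ▸ hg1) ?_
        intro h
        exact nU 1 one_ne_zero (by rw [h, map_one, one_pow])
      have hgs : v (g + X + 3*X^2) ≤ 1 := by
        refine le_trans (Valuation.map_add _ _ _) (max_le ?_ ?_)
        · exact le_trans (Valuation.map_add _ _ _) (max_le hg1 hX)
        · rw [map_mul, map_pow]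
          exact mul_le_one' v3 (pow_le_one' hX 2)
      have h1X : v (1 + X) ≤ 1 :=
        le_trans (Valuation.map_add _ _ _) (max_le (by rw [map_one]) hX)
      have hX1 : v X < 1 := by
        have h5 : v (X^5) < 1 := by
          rw [hX5]
          refine lt_of_le_of_lt (Valuation.map_sub _ _ _) (max_lt ?_ ?_)
          · rw [map_mul, hgU]
            exact mul_lt_one_of_lt_of_le hm1 hgs
          · rw [map_mul, map_pow, hΦU, mul_comm]
            exact mul_lt_one_of_lt_of_le hm1 (pow_le_one' h1X 2)
        rw [map_pow] at h5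
        by_contra h
        push Not at h
        exact absurd h5 (not_lt.2 (one_le_pow₀ h))
      have hgs' : v (g + X + 3*X^2) < 1 := by
        refine lt_of_le_of_lt (Valuation.map_add _ _ _) (max_lt ?_ ?_)
        · exact lt_of_le_of_lt (Valuation.map_add _ _ _) (max_lt (hgU ▸ hm1) hX1)
        · rw [map_mul, map_pow, pow_two]
          exact Right.mul_lt_one_of_le_of_lt v3 (mul_lt_one_of_lt_of_le hX1 hX)
      have h1X' : v (1 + X) = 1 := by
        rw [Valuation.map_add_eq_of_lt_left _ (by rw [map_one]; exact hX1), map_one]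
      have hU0 : v U ≠ 0 := by
        intro h
        rw [h] at hy5
        exact absurd hy5 (not_lt.2 zero_le)
      have h2 : v ((1+X)^2 * Φ) = v U := by rw [map_mul, map_pow, h1X', one_pow, one_mul, hΦU]
      have h3 : v (g * (g + X + 3*X^2)) < v U := by
        rw [map_mul, hgU]
        exact mul_lt_of_lt_one_right (zero_lt_iff.2 hU0) hgs'
      have h4 : v (X^5) = v U := by
        rw [hX5, Valuation.map_sub_eq_of_lt_right _ (by rw [h2]; exact h3), h2]
      have hX0 : X ≠ 0 := by
        rintro rfl
        apply hU0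
        rw [← h4]; simp
      exact nU X hX0 (by rw [← h4, map_pow])
    · -- `v X ≤ 1 < v Y`
      have hY0 : v Y ≠ 0 := (lt_trans zero_lt_one hY).ne'
      have hYY : v Y < v Y * v Y := by
        exact lt_mul_of_one_lt_right (zero_lt_iff.2 hY0) hY
      have h1 : v Φ = v Y * v Y := by
        have e : Φ = Y^2 + (X*Y - X^3) := by rw [hΦ]; ring
        have h2 : v (X*Y - X^3) < v (Y^2) := by
          rw [map_pow, pow_two]
          refine lt_of_le_of_lt (Valuation.map_sub _ _ _) (max_lt ?_ ?_)
          · rw [map_mul]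
            exact lt_of_le_of_lt (mul_le_of_le_one_left' hX) hYY
          · rw [map_pow]
            exact lt_of_le_of_lt (pow_le_one' hX 3) (lt_trans hY hYY)
        rw [e, Valuation.map_add_eq_of_lt_left _ h2, map_pow, pow_two]
      have h2 : v g ≤ v Y := by
        rw [hg]
        refine le_trans (Valuation.map_sub _ _ _) (max_le ?_ ?_)
        · rw [map_mul]
          exact mul_le_of_le_one_left' (le_trans (Valuation.map_add _ _ _)
            (max_le (by rw [map_one]) hX))
        · rw [map_pow]
          exact le_trans (pow_le_one' hX 2) hY.le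
      rw [hgU, ← hΦU, h1] at h2
      exact absurd h2 (not_le.2 hYY)
  · -- `1 < v X`
    have hX0 : X ≠ 0 := by
      rintro rfl
      rw [map_zero] at hX
      exact absurd hX (not_lt.2 zero_le)
    have hvX0 : 0 < v X := zero_lt_iff.2 ((Valuation.ne_zero_iff _).2 hX0)
    obtain ⟨M, hM⟩ : ∃ M, Y = M * X := ⟨Y / X, by field_simp⟩
    have eg : g = X * (M*(1+X) - X) := by rw [hg, hM]; ring
    have eΦ : Φ = X^2 * (M^2 + M - X) := by rw [hΦ, hM]; ring
    have h1X : v (1 + X) = v X :=
      Valuation.map_add_eq_of_lt_right _ (by rw [map_one]; exact hX)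
    rcases le_or_gt (v M) 1 with hM1 | hM1
    · have h1 : v (M^2 + M - X) = v X := by
        refine Valuation.map_sub_eq_of_lt_right _ (lt_of_le_of_lt ?_ hX)
        refine le_trans (Valuation.map_add _ _ _) (max_le ?_ hM1)
        rw [map_pow]; exact pow_le_one' hM1 2
      have h2 : v (M*(1+X) - X) ≤ v X := by
        refine le_trans (Valuation.map_sub _ _ _) (max_le ?_ le_rfl)
        rw [map_mul, h1X]
        exact mul_le_of_le_one_left' hM1
      have h3 : v g ≤ v X * v X := by
        rw [eg, map_mul]
        exact mul_le_mul_right h2 _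
      have h4 : v Φ = v X * v X * v X := by
        rw [eΦ, map_mul, h1, map_pow, pow_two]
      rw [hgU, ← hΦU, h4] at h3
      have h5 : v X * v X < v X * v X * v X :=
        lt_mul_of_one_lt_right (mul_pos hvX0 hvX0) hX
      exact absurd h3 (not_le.2 h5)
    · have hM0 : M ≠ 0 := by
        rintro rfl
        rw [map_zero] at hM1
        exact absurd hM1 (not_lt.2 zero_le)
      have hvM0 : 0 < v M := zero_lt_iff.2 ((Valuation.ne_zero_iff _).2 hM0)
      have h1 : v (M*(1+X) - X) = v M * v X := by
        rw [Valuation.map_sub_eq_of_lt_left, map_mul, h1X]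
        rw [map_mul, h1X]
        exact lt_mul_of_one_lt_left hvX0 hM1
      have h2 : v g = v X * v X * v M := by
        rw [eg, map_mul, h1, mul_comm (v M), mul_assoc]
      have h3 : v (M^2 + M - X) = v M := by
        have : v Φ = v X * v X * v (M^2 + M - X) := by rw [eΦ, map_mul, map_pow, pow_two]
        rw [hΦU, ← hgU, h2] at this
        exact (mul_left_cancel₀ (mul_pos hvX0 hvX0).ne' this).symm
      have hMM : v M < v (M^2) := by
        rw [map_pow, pow_two]; exact lt_mul_of_one_lt_right hvM0 hM1
      have hM2 : v (M^2 + M) = v (M^2) := Valuation.map_add_eq_of_lt_left _ hMM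
      have h4 : v X = v (M^2) := by
        by_contra hne
        rcases lt_or_gt_of_ne hne with hlt | hlt
        · rw [Valuation.map_sub_eq_of_lt_left _ (by rw [hM2]; exact hlt), hM2] at h3
          exact absurd h3 hMM.ne'
        · rw [Valuation.map_sub_eq_of_lt_right _ (by rw [hM2]; exact hlt)] at h3
          exact absurd h3 (lt_trans hMM hlt).ne'
      refine nU M hM0 ?_
      rw [← hgU, h2, h4, map_pow, ← pow_add, ← pow_succ]

end

end Pool.Agent.BrFive
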