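import Mathlib
import Pool.Agent.BrFive.Local

/-! Existence and uniqueness of the algebra with a given pair, and its fifth tensor power. -/

namespace Pool.Agent.BrFive

open TensorProduct

universe u

section

variable {K : Type u} [Field K] {ζ : K}

/-- There is a central simple algebra of dimension `25` with a pair of given parameters. -/
theorem exists_symbol (hζ : 1 + ζ + ζ^2 + ζ^3 + ζ^4 = 0) (h5 : (5 : K) ≠ 0) {h a : K}
    (hh : h ≠ 0) (ha : a ≠ 0) :
    ∃ (A : Type u) (_ : Ring A) (_ : Algebra K A), Module.finrank K A = 25 ∧ IsAzumaya K A ∧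
      Nontrivial A ∧ HasPair ζ A h a := by
  obtain ⟨s, hs⟩ := IsAlgClosed.exists_pow_nat_eq (algebraMap K (AlgebraicClosure K) h)
    (n := 5) (by norm_num)
  have P := isPair_matrix (a := a) hζ s hs
  have hli := P.linearIndependent hζ (isUnit_iff_ne_zero.2 h5) (isUnit_iff_ne_zero.2 hh)
    (isUnit_iff_ne_zero.2 ha) (algebraMap K (Matrix (Fin 5) (Fin 5) (AlgebraicClosure K))).injective
  refine ⟨P.subalg, inferInstance, inferInstance, ?_, ?_, inferInstance, _, _, P.subalg_pair⟩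
  · rw [Module.finrank_eq_card_basis (P.basisSubalg hli)]
    simp
  · exact P.subalg_isAzumaya hζ (isUnit_iff_ne_zero.2 h5) (isUnit_iff_ne_zero.2 hh)
      (isUnit_iff_ne_zero.2 ha) hli

/-- An algebra of dimension `25` with a pair maps to every algebra with a pair of the same
parameters. -/
theorem exists_hom {A : Type*} {B : Type*} [Ring A] [Algebra K A] [Nontrivial A] [Ring B]
    [Algebra K B]
    (hζ : 1 + ζ + ζ^2 + ζ^3 + ζ^4 = 0) (h5 : (5 : K) ≠ 0) {h a : K} (hh : h ≠ 0) (ha : a ≠ 0)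
    (hrank : Module.finrank K A = 25) {x y : A} {x' y' : B} (P : IsPair ζ h a x y)
    (Q : IsPair ζ h a x' y') : ∃ f : A →ₐ[K] B, ∀ i j : ℕ, f (x^i * y^j) = x'^i * y'^j := by
  have hfd : FiniteDimensional K A := Module.finite_of_finrank_pos (by rw [hrank]; norm_num)
  have hli := P.linearIndependent hζ (isUnit_iff_ne_zero.2 h5) (isUnit_iff_ne_zero.2 hh)
    (isUnit_iff_ne_zero.2 ha) (algebraMap K A).injective
  let bA : Module.Basis (Fin 5 × Fin 5) K A :=
    basisOfLinearIndependentOfCardEqFinrank hli (by rw [hrank]; simp)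
  have hbA : ∀ p, bA p = mono x y p := fun p => by simp [bA]
  let f : A →ₗ[K] B := bA.constr K (mono x' y')
  have hf : ∀ p, f (mono x y p) = mono x' y' p := fun p => by
    rw [← hbA]; exact bA.constr_basis K _ p
  have hf2 : ∀ i j : ℕ, f (x^i * y^j) = x'^i * y'^j := by
    intro i j
    rw [P.x_pow_red, P.y_pow_red, Q.x_pow_red i, Q.y_pow_red j, smul_mul_smul_comm,
      smul_mul_smul_comm, map_smul]
    congr 1
    exact hf (⟨i % 5, Nat.mod_lt _ (by norm_num)⟩, ⟨j % 5, Nat.mod_lt _ (by norm_num)⟩)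
  have hmul : ∀ u v, f (u * v) = f u * f v := by
    have key : (LinearMap.mul K A).compr₂ f = (LinearMap.mul K B).compl₁₂ f f := by
      apply bA.ext
      intro p
      apply bA.ext
      intro q
      simp only [LinearMap.compr₂_apply, LinearMap.mul_apply', LinearMap.compl₁₂_apply, hbA, hf]
      simp only [mono]
      rw [P.mono_mul, Q.mono_mul, map_smul, hf2]
    intro u v
    have := LinearMap.congr_fun (LinearMap.congr_fun key u) v
    simpa using this
  have hone : f 1 = 1 := by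
    have := hf2 0 0
    simpa using this
  exact ⟨AlgHom.ofLinearMap f hone hmul, hf2⟩

theorem exists_equiv {A : Type*} {B : Type*} [Ring A] [Algebra K A] [Nontrivial A] [Ring B]
    [Algebra K B] [Nontrivial B] [IsSimpleRing A]
    (hζ : 1 + ζ + ζ^2 + ζ^3 + ζ^4 = 0) (h5 : (5 : K) ≠ 0) {h a : K} (hh : h ≠ 0) (ha : a ≠ 0)
    (hrank : Module.finrank K A = 25) (hrankB : Module.finrank K B = 25)
    (HA : HasPair ζ A h a) (HB : HasPair ζ B h a) : Nonempty (A ≃ₐ[K] B) := by
  obtain ⟨x, y, P⟩ := HA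
  obtain ⟨x', y', Q⟩ := HB
  obtain ⟨f, -⟩ := exists_hom hζ h5 hh ha hrank P Q
  have hfA : FiniteDimensional K A := Module.finite_of_finrank_pos (by rw [hrank]; norm_num)
  have hfB : FiniteDimensional K B := Module.finite_of_finrank_pos (by rw [hrankB]; norm_num)
  have hinj : Function.Injective f := (f : A →+* B).injective
  have hbij : Function.Bijective f :=
    ⟨hinj, (LinearMap.injective_iff_surjective_of_finrank_eq_finrank (f := f.toLinearMap)
      (by rw [hrank, hrankB])).1 hinj⟩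
  exact ⟨AlgEquiv.ofBijective f hbij⟩

theorem hasPair_matrix_self (hζ : 1 + ζ + ζ^2 + ζ^3 + ζ^4 = 0) (h : K) :
    HasPair ζ (Matrix (Fin 5) (Fin 5) K) h 1 := by
  have H := hasPair_matrix (K := K) (L := K) (h := 1) (a := h) hζ 1 (by simp)
  have := H.swap one_ne_zero
  rwa [inv_one] at this

theorem finrank_matrix_five : Module.finrank K (Matrix (Fin 5) (Fin 5) K) = 25 := by
  rw [Module.finrank_matrix]; simp

/-- `(h, a) ⊗ (h', a) = (h h', a) ⊗ (1)`. -/
theorem tensor_step (hζ : 1 + ζ + ζ^2 + ζ^3 + ζ^4 = 0) (h5 : (5 : K) ≠ 0) {h h' a : K}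
    (hh : h ≠ 0) (hh' : h' ≠ 0) (ha : a ≠ 0)
    {A B : Type u} [Ring A] [Algebra K A] [Ring B] [Algebra K B] [Nontrivial A] [Nontrivial B]
    (hA : Module.finrank K A = 25) (hB : Module.finrank K B = 25)
    (HA : HasPair ζ A h a) (HB : HasPair ζ B h' a) :
    ∃ (C : Type u) (_ : Ring C) (_ : Algebra K C), Module.finrank K C = 25 ∧
      Nontrivial C ∧ HasPair ζ C (h * h') a ∧
      Nonempty ((A ⊗[K] B) ≃ₐ[K] Matrix (Fin 5) (Fin 5) C) := by
  obtain ⟨C, hC1, hC2, hCr, hCa, hCn, HC⟩ := exists_symbol hζ h5 (mul_ne_zero hh hh') ha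
  refine ⟨C, hC1, hC2, hCr, hCn, HC, ?_⟩
  obtain ⟨x0, y0, P0⟩ := HC
  obtain ⟨x1, y1, P1⟩ := HA
  obtain ⟨x2, y2, P2⟩ := HB
  obtain ⟨x3, y3, P3⟩ := hasPair_matrix_self hζ h'
  have z5 := zeta_pow_five hζ
  have hfC : FiniteDimensional K C := Module.finite_of_finrank_pos (by rw [hCr]; norm_num)
  have hfA : FiniteDimensional K A := Module.finite_of_finrank_pos (by rw [hA]; norm_num)
  have hfB : FiniteDimensional K B := Module.finite_of_finrank_pos (by rw [hB]; norm_num)
  -- the two pairs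
  have Q1 : IsPair ζ (h * h') a (x1 ⊗ₜ[K] x2) (y1 ⊗ₜ[K] (1 : B)) :=
    { x_pow := by
        rw [Algebra.TensorProduct.tmul_pow, P1.x_pow, P2.x_pow,
          Algebra.algebraMap_eq_smul_one, Algebra.algebraMap_eq_smul_one,
          Algebra.algebraMap_eq_smul_one, ← TensorProduct.smul_tmul', TensorProduct.tmul_smul,
          smul_smul, Algebra.TensorProduct.one_def]
      y_pow := by
        rw [Algebra.TensorProduct.tmul_pow, P1.y_pow, one_pow,
          Algebra.TensorProduct.algebraMap_apply]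
      comm := by
        rw [Algebra.TensorProduct.tmul_mul_tmul, Algebra.TensorProduct.tmul_mul_tmul, P1.comm,
          one_mul, mul_one, TensorProduct.smul_tmul'] }
  have y4x1 : y1^4 * x1 = ζ^4 • (x1 * y1^4) := by
    have := P1.y_pow_mul_x_pow 1 4
    simpa using this
  have Q2 : IsPair ζ h' 1 ((1 : A) ⊗ₜ[K] x2) ((a⁻¹ • y1^4) ⊗ₜ[K] y2) :=
    { x_pow := by
        rw [Algebra.TensorProduct.tmul_pow, P2.x_pow, one_pow,
          Algebra.TensorProduct.algebraMap_apply, Algebra.algebraMap_eq_smul_one,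
          Algebra.algebraMap_eq_smul_one, TensorProduct.smul_tmul]
      y_pow := by
        rw [Algebra.TensorProduct.tmul_pow, P2.y_pow, smul_pow, ← pow_mul, mul_comm 4 5,
          pow_mul, P1.y_pow, ← map_pow, map_one, Algebra.algebraMap_eq_smul_one,
          Algebra.algebraMap_eq_smul_one, smul_smul, ← TensorProduct.smul_tmul',
          TensorProduct.tmul_smul, smul_smul]
        have : a⁻¹ ^ 5 * a^4 * a = 1 := by field_simp
        rw [this, one_smul, Algebra.TensorProduct.one_def]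
      comm := by
        rw [Algebra.TensorProduct.tmul_mul_tmul, Algebra.TensorProduct.tmul_mul_tmul, P2.comm,
          one_mul, mul_one, TensorProduct.tmul_smul] }
  have c11 : Commute (x1 ⊗ₜ[K] x2) ((1 : A) ⊗ₜ[K] x2) := by
    rw [Commute, SemiconjBy, Algebra.TensorProduct.tmul_mul_tmul,
      Algebra.TensorProduct.tmul_mul_tmul, one_mul, mul_one]
  have c12 : Commute (x1 ⊗ₜ[K] x2) ((a⁻¹ • y1^4) ⊗ₜ[K] y2) := by
    rw [Commute, SemiconjBy, Algebra.TensorProduct.tmul_mul_tmul,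
      Algebra.TensorProduct.tmul_mul_tmul, P2.comm, smul_mul_assoc, y4x1, mul_smul_comm,
      TensorProduct.tmul_smul, smul_comm a⁻¹, TensorProduct.smul_tmul',
      smul_smul]
    have : ζ * ζ^4 = 1 := by rw [← z5]; ring
    rw [this, one_smul]
  have c21 : Commute (y1 ⊗ₜ[K] (1 : B)) ((1 : A) ⊗ₜ[K] x2) := by
    rw [Commute, SemiconjBy, Algebra.TensorProduct.tmul_mul_tmul,
      Algebra.TensorProduct.tmul_mul_tmul, one_mul, mul_one, one_mul, mul_one]
  have c22 : Commute (y1 ⊗ₜ[K] (1 : B)) ((a⁻¹ • y1^4) ⊗ₜ[K] y2) := by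
    rw [Commute, SemiconjBy, Algebra.TensorProduct.tmul_mul_tmul,
      Algebra.TensorProduct.tmul_mul_tmul, one_mul, mul_one, mul_smul_comm, smul_mul_assoc,
      ← pow_succ, ← pow_succ']
  obtain ⟨f, hf⟩ := exists_hom hζ h5 (mul_ne_zero hh hh') ha hCr P0 Q1
  obtain ⟨g, hg⟩ := exists_hom hζ h5 hh' one_ne_zero finrank_matrix_five P3 Q2
  have hcomm : ∀ (u : C) (v : Matrix (Fin 5) (Fin 5) K), Commute (f u) (g v) := by
    have h1 : ∀ i j k l : ℕ, Commute (f (x0^i * y0^j)) (g (x3^k * y3^l)) := by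
      intro i j k l
      rw [hf, hg]
      exact ((c11.pow_pow i k).mul_left (c21.pow_pow j k)).mul_right
        ((c12.pow_pow i l).mul_left (c22.pow_pow j l))
    have hliC := P0.linearIndependent hζ (isUnit_iff_ne_zero.2 h5)
      (isUnit_iff_ne_zero.2 (mul_ne_zero hh hh'))
      (isUnit_iff_ne_zero.2 ha) (algebraMap K C).injective
    have hliM := P3.linearIndependent hζ (isUnit_iff_ne_zero.2 h5)
      (isUnit_iff_ne_zero.2 hh') (isUnit_iff_ne_zero.2 one_ne_zero)
      (algebraMap K (Matrix (Fin 5) (Fin 5) K)).injective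
    let bC : Module.Basis (Fin 5 × Fin 5) K C :=
      basisOfLinearIndependentOfCardEqFinrank hliC (by rw [hCr]; simp)
    have hbC : ∀ p, bC p = mono x0 y0 p := fun p => by simp [bC]
    let bM : Module.Basis (Fin 5 × Fin 5) K (Matrix (Fin 5) (Fin 5) K) :=
      basisOfLinearIndependentOfCardEqFinrank hliM (by rw [finrank_matrix_five]; simp)
    have hbM : ∀ p, bM p = mono x3 y3 p := fun p => by simp [bM]
    have key : (LinearMap.mul K (A ⊗[K] B)).compl₁₂ f.toLinearMap g.toLinearMap =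
        ((LinearMap.mul K (A ⊗[K] B)).flip).compl₁₂ f.toLinearMap g.toLinearMap := by
      apply bC.ext
      intro p
      apply bM.ext
      intro q
      simp only [LinearMap.compl₁₂_apply, LinearMap.mul_apply', LinearMap.flip_apply,
        AlgHom.toLinearMap_apply, hbC, hbM]
      exact h1 _ _ _ _
    intro u v
    have := LinearMap.congr_fun (LinearMap.congr_fun key u) v
    rw [Commute, SemiconjBy]
    simpa using this
  let F : (C ⊗[K] Matrix (Fin 5) (Fin 5) K) →ₐ[K] (A ⊗[K] B) :=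
    Algebra.TensorProduct.lift f g hcomm
  let G : Matrix (Fin 5) (Fin 5) C →ₐ[K] (A ⊗[K] B) :=
    F.comp (matrixEquivTensor (Fin 5) K C).toAlgHom
  have hsC : IsSimpleRing C := isSimpleRing_of_isAzumaya (K := K)
  have hinj : Function.Injective G := (G : Matrix (Fin 5) (Fin 5) C →+* (A ⊗[K] B)).injective
  have hr : Module.finrank K (Matrix (Fin 5) (Fin 5) C) = Module.finrank K (A ⊗[K] B) := by
    rw [Module.finrank_matrix, Module.finrank_tensorProduct, hCr, hA, hB]
    simp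
  have hbij : Function.Bijective G :=
    ⟨hinj, (LinearMap.injective_iff_surjective_of_finrank_eq_finrank (f := G.toLinearMap)
      hr).1 hinj⟩
  exact ⟨(AlgEquiv.ofBijective G hbij).symm⟩

/-- One by one matrices. -/
def matrixFinOne (K A : Type*) [CommSemiring K] [Semiring A] [Algebra K A] :
    Matrix (Fin 1) (Fin 1) A ≃ₐ[K] A where
  toFun M := M 0 0
  invFun a := Matrix.of fun _ _ => a
  left_inv M := by ext i j; fin_cases i; fin_cases j; rfl
  right_inv a := rfl
  map_mul' M N := by simp [Matrix.mul_apply]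
  map_add' M N := rfl
  commutes' r := by simp [Matrix.algebraMap_matrix_apply]

/-- `T` is a matrix algebra over an algebra of dimension `25` with a pair `(g, a)`. -/
def MatPair (ζ a : K) (T : Type u) [Ring T] [Algebra K T] (g : K) : Prop :=
  ∃ (m : ℕ) (C : Type u) (_ : Ring C) (_ : Algebra K C), m ≠ 0 ∧ Module.finrank K C = 25 ∧
    Nontrivial C ∧ HasPair ζ C g a ∧ Nonempty (T ≃ₐ[K] Matrix (Fin m) (Fin m) C)

theorem MatPair.tensor (hζ : 1 + ζ + ζ^2 + ζ^3 + ζ^4 = 0) (h5 : (5 : K) ≠ 0) {h g a : K}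
    (hh : h ≠ 0) (hg : g ≠ 0) (ha : a ≠ 0)
    {A T : Type u} [Ring A] [Algebra K A] [Ring T] [Algebra K T] [Nontrivial A]
    (hA : Module.finrank K A = 25) (HA : HasPair ζ A h a) (HT : MatPair ζ a T g) :
    MatPair ζ a (A ⊗[K] T) (h * g) := by
  obtain ⟨m, C, hC1, hC2, hm, hCr, hCn, HC, ⟨e⟩⟩ := HT
  obtain ⟨D, hD1, hD2, hDr, hDn, HD, ⟨e'⟩⟩ := tensor_step hζ h5 hh hg ha hA hCr HA HC
  refine ⟨m * 5, D, hD1, hD2, by omega, hDr, hDn, HD, ⟨?_⟩⟩
  let e1 : (A ⊗[K] T) ≃ₐ[K] A ⊗[K] (C ⊗[K] Matrix (Fin m) (Fin m) K) :=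
    Algebra.TensorProduct.congr AlgEquiv.refl (e.trans (matrixEquivTensor (Fin m) K C))
  let e2 : A ⊗[K] (C ⊗[K] Matrix (Fin m) (Fin m) K) ≃ₐ[K]
      (A ⊗[K] C) ⊗[K] Matrix (Fin m) (Fin m) K :=
    (Algebra.TensorProduct.assoc K K K A C (Matrix (Fin m) (Fin m) K)).symm
  let e3 : (A ⊗[K] C) ⊗[K] Matrix (Fin m) (Fin m) K ≃ₐ[K] Matrix (Fin m) (Fin m) (A ⊗[K] C) :=
    (matrixEquivTensor (Fin m) K (A ⊗[K] C)).symm
  let e4 : Matrix (Fin m) (Fin m) (A ⊗[K] C) ≃ₐ[K]
      Matrix (Fin m) (Fin m) (Matrix (Fin 5) (Fin 5) D) := e'.mapMatrix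
  let e5 : Matrix (Fin m) (Fin m) (Matrix (Fin 5) (Fin 5) D) ≃ₐ[K]
      Matrix (Fin m × Fin 5) (Fin m × Fin 5) D := Matrix.compAlgEquiv _ _ _ _
  let e6 : Matrix (Fin m × Fin 5) (Fin m × Fin 5) D ≃ₐ[K] Matrix (Fin (m * 5)) (Fin (m * 5)) D :=
    Matrix.reindexAlgEquiv K D finProdFinEquiv
  exact ((((e1.trans e2).trans e3).trans e4).trans e5).trans e6

theorem MatPair.self {h a : K} {A : Type u} [Ring A] [Algebra K A] [Nontrivial A]
    (hA : Module.finrank K A = 25) (HA : HasPair ζ A h a) : MatPair ζ a A h :=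
  ⟨1, A, inferInstance, inferInstance, one_ne_zero, hA, inferInstance, HA,
    ⟨(matrixFinOne K A).symm⟩⟩

theorem MatPair.split (hζ : 1 + ζ + ζ^2 + ζ^3 + ζ^4 = 0) (h5 : (5 : K) ≠ 0) {h a : K}
    (hh : h ≠ 0) (ha : a ≠ 0) {T : Type u} [Ring T] [Algebra K T]
    (HT : MatPair ζ a T (h * (h * (h * (h * h))))) :
    ∃ m : ℕ, m ≠ 0 ∧ Nonempty (T ≃ₐ[K] Matrix (Fin m) (Fin m) K) := by
  obtain ⟨m, C, hC1, hC2, hm, hCr, hCn, HC, ⟨e⟩⟩ := HT
  have HC1 := HC.scale_left h⁻¹
  have e1 : h * (h * (h * (h * h))) * h⁻¹^5 = 1 := by field_simp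
  rw [e1] at HC1
  have HM : HasPair ζ (Matrix (Fin 5) (Fin 5) K) 1 a :=
    hasPair_matrix (K := K) (L := K) (h := 1) (a := a) hζ 1 (by simp)
  obtain ⟨e2⟩ := exists_equiv hζ h5 one_ne_zero ha finrank_matrix_five hCr HM HC1
  exact ⟨m * 5, by omega, ⟨(e.trans e2.symm.mapMatrix).trans
    ((Matrix.compAlgEquiv _ _ _ _).trans (Matrix.reindexAlgEquiv K K finProdFinEquiv))⟩⟩

end

end Pool.Agent.BrFive
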