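import Mathlib
import Pool.Agent.BrFive.Torsion

/-! If a matrix algebra over the symbol algebra is a matrix algebra over the field, then the norm
equation is solvable. -/

namespace Pool.Agent.BrFive

universe u

section

variable {K : Type u} [Field K] {ζ : K}

/-- The corner of a representation of a matrix algebra. -/
theorem exists_corner [CharZero K] {A : Type u} [Ring A] [Algebra K A]
    (hA : Module.finrank K A = 25) {n m : ℕ} (hn : n ≠ 0)
    (e : Matrix (Fin n) (Fin n) A ≃ₐ[K] Matrix (Fin m) (Fin m) K) :
    ∃ (W : Type u) (_ : AddCommGroup W) (_ : Module K W), Module.finrank K W = 5 ∧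
      Nonempty (A →ₐ[K] Module.End K W) := by
  have hfA : FiniteDimensional K A := Module.finite_of_finrank_pos (by rw [hA]; norm_num)
  have hm : m = 5 * n := by
    have h1 := LinearEquiv.finrank_eq e.toLinearEquiv
    rw [Module.finrank_matrix, Module.finrank_matrix, hA, Module.finrank_self] at h1
    simp only [Fintype.card_fin, mul_one] at h1
    have h2 : m * m = (5 * n) * (5 * n) := by rw [← h1]; ring
    exact Nat.mul_self_inj.1 h2
  let V := Fin m → K
  let Φ : Matrix (Fin n) (Fin n) A →ₐ[K] Module.End K V :=
    (Matrix.toLinAlgEquiv' (R := K) (n := Fin m)).toAlgHom.comp e.toAlgHom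
  let i0 : Fin n := ⟨0, Nat.pos_of_ne_zero hn⟩
  let E : Fin n → Fin n → Module.End K V := fun i j => Φ (Matrix.single i j 1)
  have hE : ∀ i j k, E i j * E j k = E i k := by
    intro i j k
    simp only [E, ← map_mul, Matrix.single_mul_single_same, mul_one]
  have hidem : IsIdempotentElem (E i0 i0) := hE i0 i0 i0
  have htr : ∀ i, LinearMap.trace K V (E i i) = LinearMap.trace K V (E i0 i0) := by
    intro i
    rw [← hE i i0 i, LinearMap.trace_mul_comm, hE]
  have hsum : ∑ i, E i i = 1 := by
    simp only [E, ← map_sum]
    have : ∑ i : Fin n, Matrix.single i i (1 : A) = 1 := by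
      ext i j
      simp only [Matrix.sum_apply, Matrix.one_apply, Matrix.single_apply]
      by_cases hij : i = j
      · subst hij
        simp
      · rw [Finset.sum_eq_zero]
        · simp [hij]
        · intro k _
          rw [if_neg]
          rintro ⟨rfl, h⟩
          exact hij h
    rw [this, map_one]
  let W := LinearMap.range (E i0 i0)
  have hW : Module.finrank K W = 5 := by
    have h1 : LinearMap.trace K V (E i0 i0) = (Module.finrank K W : K) :=
      LinearMap.IsProj.trace (LinearMap.IsIdempotentElem.isProj_range _ hidem)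
    have h2 := congrArg (LinearMap.trace K V) hsum
    rw [map_sum, LinearMap.trace_one] at h2
    simp only [htr, Finset.sum_const, Finset.card_univ, Fintype.card_fin, h1, nsmul_eq_mul] at h2
    have h3 : Module.finrank K V = m := by simp [V]
    rw [h3] at h2
    have h4 : n * Module.finrank K W = m := by exact_mod_cast h2
    have h5 : n * Module.finrank K W = n * 5 := h4.trans (hm.trans (mul_comm _ _))
    exact Nat.eq_of_mul_eq_mul_left (Nat.pos_of_ne_zero hn) h5
  let T : A → Module.End K V := fun a => Φ (Matrix.single i0 i0 a)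
  have hET : ∀ a, E i0 i0 * T a = T a := by
    intro a
    simp only [E, T, ← map_mul, Matrix.single_mul_single_same, one_mul]
  have hTT : ∀ a b, T a * T b = T (a * b) := by
    intro a b
    simp only [T, ← map_mul, Matrix.single_mul_single_same]
  have hmem : ∀ a, ∀ w ∈ W, T a w ∈ W := by
    intro a w _
    rw [← hET a]
    exact ⟨T a w, rfl⟩
  have hEW : ∀ w ∈ W, E i0 i0 w = w := by
    rintro w ⟨v, rfl⟩
    exact LinearMap.congr_fun hidem v
  refine ⟨W, inferInstance, inferInstance, hW, ⟨?_⟩⟩
  exact
    { toFun := fun a => (T a).restrict (hmem a)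
      map_one' := by
        refine LinearMap.ext fun w => Subtype.ext ?_
        exact hEW w w.2
      map_mul' := fun a b => by
        refine LinearMap.ext fun w => Subtype.ext ?_
        rw [Module.End.mul_apply, LinearMap.coe_restrict_apply, LinearMap.coe_restrict_apply,
          LinearMap.coe_restrict_apply, ← hTT, Module.End.mul_apply]
      map_zero' := by
        refine LinearMap.ext fun w => Subtype.ext ?_
        have : T 0 = 0 := by simp [T]
        rw [LinearMap.coe_restrict_apply, this]
        rfl
      map_add' := fun a b => by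
        refine LinearMap.ext fun w => Subtype.ext ?_
        have : T (a + b) = T a + T b := by simp only [T, Matrix.single_add, map_add]
        rw [LinearMap.coe_restrict_apply, this]
        rfl
      commutes' := fun r => by
        refine LinearMap.ext fun w => Subtype.ext ?_
        have : T (algebraMap K A r) = r • E i0 i0 := by
          simp only [T, E, ← map_smul, Matrix.smul_single, Algebra.algebraMap_eq_smul_one]
        rw [LinearMap.coe_restrict_apply, this, LinearMap.smul_apply, hEW w w.2,
          Module.algebraMap_end_apply]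
        rfl }

theorem nf_of_split [CharZero K] (hζ : 1 + ζ + ζ^2 + ζ^3 + ζ^4 = 0) {h a : K}
    (hh : h ≠ 0) (ha : a ≠ 0) {A : Type u} [Ring A] [Algebra K A]
    (hA : Module.finrank K A = 25) (HA : HasPair ζ A h a) {n m : ℕ} (hn : n ≠ 0)
    (e : Matrix (Fin n) (Fin n) A ≃ₐ[K] Matrix (Fin m) (Fin m) K) :
    ∃ c0 c1 c2 c3 c4 : K, nf c0 c1 c2 c3 c4 a = h := by
  obtain ⟨W, iW1, iW2, hW, ⟨ρ⟩⟩ := exists_corner hA hn e
  obtain ⟨x, y, P⟩ := (HA.swap' hh ha).map ρ
  have h5 : (5 : K) ≠ 0 := by
    exact_mod_cast (Nat.cast_ne_zero (R := K)).2 (by norm_num : (5:ℕ) ≠ 0)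
  obtain ⟨c0, c1, c2, c3, c4, hc⟩ := exists_nf_of_pair hζ h5 hW P (inv_ne_zero ha)
  rw [nf_inv _ _ _ _ _ (inv_ne_zero ha), inv_inv] at hc
  exact ⟨_, _, _, _, _, hc⟩

end

end Pool.Agent.BrFive
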