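import Mathlib
import Pool.Agent.BrFive.Horizontal
import Pool.Agent.BrFive.Split

/-! The algebra is unramified at every discrete valuation ring containing the constants. -/

namespace Pool.Agent.BrFive

universe u

section

variable {K : Type u} [Field K] [Algebra ℂ K]

theorem val_const (R : ValuationSubring K) (hC : ∀ c : ℂ, algebraMap ℂ K c ∈ R) (c : ℂ)
    (hc : c ≠ 0) : R.valuation (algebraMap ℂ K c) = 1 := by
  have h1 : R.valuation (algebraMap ℂ K c) ≤ 1 := (R.valuation_le_one_iff _).2 (hC c)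
  have h2 : R.valuation (algebraMap ℂ K c⁻¹) ≤ 1 := (R.valuation_le_one_iff _).2 (hC c⁻¹)
  rw [map_inv₀, map_inv₀] at h2
  have h0 : R.valuation (algebraMap ℂ K c) ≠ 0 := by
    rw [Valuation.ne_zero_iff]
    exact (map_ne_zero _).2 hc
  refine le_antisymm h1 ?_
  exact (inv_le_one₀ (zero_lt_iff.2 h0)).1 h2

theorem val_aeval (R : ValuationSubring K) (hC : ∀ c : ℂ, algebraMap ℂ K c ∈ R) (t : K)
    (ht : ∀ c : ℂ, R.valuation (t - algebraMap ℂ K c) = 1) :
    ∀ (n : ℕ) (p : Polynomial ℂ), p.natDegree = n → p ≠ 0 →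
      R.valuation (Polynomial.aeval t p) = 1 := by
  intro n
  induction n with
  | zero =>
    intro p hp hp0
    rw [Polynomial.natDegree_eq_zero] at hp
    obtain ⟨c, rfl⟩ := hp
    rw [Polynomial.aeval_C]
    exact val_const R hC c (by rintro rfl; simp at hp0)
  | succ n ih =>
    intro p hp hp0
    have hdeg : p.degree ≠ 0 := by
      intro h
      have := Polynomial.natDegree_eq_of_degree_eq_some h
      rw [this] at hp
      exact absurd hp (Nat.succ_ne_zero n).symm
    obtain ⟨r, hr⟩ := IsAlgClosed.exists_root p hdeg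
    obtain ⟨q, hq⟩ := Polynomial.dvd_iff_isRoot.2 hr
    have hq0 : q ≠ 0 := by
      rintro rfl
      exact hp0 (by rw [hq, mul_zero])
    have hqn : q.natDegree = n := by
      rw [hq, Polynomial.natDegree_mul (Polynomial.X_sub_C_ne_zero r) hq0,
        Polynomial.natDegree_X_sub_C] at hp
      omega
    rw [hq, map_mul, map_mul, ih q hqn hq0, mul_one, map_sub, Polynomial.aeval_X,
      Polynomial.aeval_C, ht]

/-- The parameters of the surface as polynomials in `t`. -/
noncomputable def bP : Polynomial ℂ :=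
  (Polynomial.C 7 - Polynomial.X) * (1 - Polynomial.C 7 * Polynomial.X)^4

theorem bP_ne : bP ≠ 0 := by
  intro h
  have := congrArg (Polynomial.eval 0) h
  simp [bP] at this

noncomputable def δP : Polynomial ℂ := bP - Polynomial.X

theorem δP_ne : δP ≠ 0 := by
  intro h
  have := congrArg (Polynomial.eval 0) h
  simp [δP, bP] at this

noncomputable def εP (u : ℂ) : Polynomial ℂ :=
  bP * Polynomial.C (5*u-3) + Polynomial.X * Polynomial.C (5*u+8)

theorem εP_ne {u : ℂ} (hu : u^2 + u - 1 = 0) : εP u ≠ 0 := by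
  intro h
  have := congrArg (Polynomial.eval 7) h
  simp [εP, bP] at this
  have h1 : u = -8/5 := by linear_combination this/5
  rw [h1] at hu
  norm_num at hu

theorem two_u_ne {u : ℂ} (hu : u^2 + u - 1 = 0) : (5 * (2*u+1) : ℂ) ≠ 0 := by
  intro h
  have h1 : u = -1/2 := by linear_combination h/10
  rw [h1] at hu
  norm_num at hu

theorem unramified {u0 ζ0 μ0 : ℂ} (D : Data K) (Y : K)
    (hζ : 1 + ζ0 + ζ0^2 + ζ0^3 + ζ0^4 = 0) (hu0 : u0^2 + u0 - 1 = 0)
    (hu : D.u = algebraMap ℂ K u0) (hμ : D.μ = algebraMap ℂ K μ0) (hμ0 : μ0^5 = 7)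
    (hlam : D.lam = algebraMap ℂ K 7)
    (hg : D.g = (1 + D.X) * Y - D.X^2)
    (hU : D.U = (Y^2 + D.X*Y - D.X^3) + (5*D.u-3) * D.g)
    (hV : D.V = (Y^2 + D.X*Y - D.X^3) - (5*D.u+8) * D.g)
    {A : Type u} [Ring A] [Algebra K A] [Nontrivial A]
    (hA : Module.finrank K A = 25) (HA : HasPair (algebraMap ℂ K ζ0) A D.U D.t)
    (R : ValuationSubring K) [IsDiscreteValuationRing R]
    (hC : ∀ c : ℂ, algebraMap ℂ K c ∈ R) : GoodAt K A R := by
  have hζK : 1 + algebraMap ℂ K ζ0 + (algebraMap ℂ K ζ0)^2 + (algebraMap ℂ K ζ0)^3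
      + (algebraMap ℂ K ζ0)^4 = 0 := by
    have := congrArg (algebraMap ℂ K) hζ
    simpa using this
  have h5K : (5 : K) ≠ 0 := by
    have := (map_ne_zero (algebraMap ℂ K)).2 (by norm_num : (5:ℂ) ≠ 0)
    rwa [map_ofNat] at this
  have v5 : R.valuation 5 = 1 := by
    have := val_const R hC 5 (by norm_num)
    rwa [map_ofNat] at this
  have v7 : R.valuation D.lam = 1 := by
    rw [hlam]; exact val_const R hC 7 (by norm_num)
  have hlamR : D.lam ∈ R := by rw [hlam]; exact hC 7
  have HV : HasPair (algebraMap ℂ K ζ0) A D.V D.b := chain3 D hζK h5K HA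
  have hb := D.hb
  have hμK := D.hμ
  rcases lt_trichotomy (R.valuation D.t) 1 with ht | ht | ht
  · -- a zero of `t`
    have htR : D.t ∈ R := (R.valuation_le_one_iff _).1 ht.le
    have e : D.b - D.μ^5 = D.t * (-(1 - D.lam * D.t)^4 + D.lam * (-4*D.lam + 6*D.lam^2*D.t
        - 4*D.lam^3*D.t^2 + D.lam^4*D.t^3)) := by
      rw [hμK, hb]; ring
    have hq : (-(1 - D.lam * D.t)^4 + D.lam * (-4*D.lam + 6*D.lam^2*D.t
        - 4*D.lam^3*D.t^2 + D.lam^4*D.t^3)) ∈ R := by
      refine add_mem (neg_mem (pow_mem (sub_mem (one_mem _) (mul_mem hlamR htR)) _))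
        (mul_mem hlamR (add_mem (sub_mem (add_mem (mul_mem (neg_mem (ofNat_mem R 4)) hlamR)
        (mul_mem (mul_mem (ofNat_mem R 6) (pow_mem hlamR 2)) htR))
        (mul_mem (mul_mem (ofNat_mem R 4) (pow_mem hlamR 3)) (pow_mem htR 2)))
        (mul_mem (pow_mem hlamR 4) (pow_mem htR 3))))
    have hlt : R.valuation (D.b - D.μ^5) < 1 := by
      rw [e, map_mul]
      exact mul_lt_one_of_lt_of_le ht ((R.valuation_le_one_iff _).2 hq)
    have vμ : R.valuation (D.μ^5) = 1 := by rw [hμK, v7]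
    have vb : R.valuation D.b = 1 := by
      have : D.b = D.μ^5 + (D.b - D.μ^5) := by ring
      rw [this, Valuation.map_add_eq_of_lt_left _ (by rw [vμ]; exact hlt), vμ]
    exact good_of_residue R hζK (hC _) hA HV D.V0 v5 vb D.μ hlt
  · by_cases hex : ∃ c : ℂ, R.valuation (D.t - algebraMap ℂ K c) < 1
    · obtain ⟨c, hc⟩ := hex
      obtain ⟨d, hd⟩ := IsAlgClosed.exists_pow_nat_eq c (n := 5) (by norm_num)
      refine good_of_residue R hζK (hC _) hA HA D.U0 v5 ht (algebraMap ℂ K d) ?_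
      rw [← map_pow, hd]
      exact hc
    · push Not at hex
      have htR : D.t ∈ R := (R.valuation_le_one_iff _).1 ht.le
      have hall : ∀ c : ℂ, R.valuation (D.t - algebraMap ℂ K c) = 1 := fun c =>
        le_antisymm ((R.valuation_le_one_iff _).2 (sub_mem htR (hC c))) (hex c)
      have hpoly : ∀ p : Polynomial ℂ, p ≠ 0 → R.valuation (Polynomial.aeval D.t p) = 1 :=
        fun p hp => val_aeval R hC D.t hall _ p rfl hp
      have eb : Polynomial.aeval D.t bP = D.b := by
        rw [hb, hlam]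
        simp [bP]
      have vb : R.valuation D.b = 1 := by rw [← eb]; exact hpoly _ bP_ne
      have vδ : R.valuation (D.b - D.t) = 1 := by
        have : Polynomial.aeval D.t δP = D.b - D.t := by
          rw [← eb]; simp [δP]
        rw [← this]; exact hpoly _ δP_ne
      have vε : R.valuation (D.b * (5*D.u-3) + D.t*(5*D.u+8)) = 1 := by
        have : Polynomial.aeval D.t (εP u0) = D.b * (5*D.u-3) + D.t*(5*D.u+8) := by
          rw [← eb, hu]; simp [εP, map_ofNat]
        rw [← this]; exact hpoly _ (εP_ne hu0)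
      have vκ : R.valuation (5 * (2*D.u+1)) = 1 := by
        have := val_const R hC (5 * (2*u0+1)) (two_u_ne hu0)
        rw [hu]
        simpa [map_ofNat] using this
      rcases horizontal R.valuation hg rfl hU hV D.hS D.y0 ht vb vδ vε vκ with hh | hh
      · exact good_of_div5 R hζK (hC _) hA HA v5 hh ht
      · exact good_of_div5 R hζK (hC _) hA HV v5 hh vb
  · -- a pole of `t`
    have t0 := D.t0
    obtain ⟨s, hs⟩ : ∃ s, s = D.t⁻¹ := ⟨_, rfl⟩
    have hs1 : R.valuation s < 1 := by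
      rw [hs, map_inv₀]
      exact inv_lt_one_of_one_lt₀ ht
    have hsR : s ∈ R := (R.valuation_le_one_iff _).1 hs1.le
    have HV' := HV.scale_right D.t⁻¹
    rw [← hs] at HV'
    have e0 : D.b * s^5 = (D.lam * s - 1) * (s - D.lam)^4 := by
      have hst : D.t * s = 1 := by rw [hs]; exact mul_inv_cancel₀ t0
      rw [hb]
      have e1 : (D.lam - D.t) * s = D.lam * s - 1 := by linear_combination (-1) * hst
      have e2 : (1 - D.lam * D.t) * s = s - D.lam := by linear_combination (-D.lam) * hst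
      rw [← e1, ← e2]; ring
    have e : D.b * s^5 - (-D.μ^4)^5 = s * (D.lam * (s - D.lam)^4
        - (s^3 - 4*s^2*D.lam + 6*s*D.lam^2 - 4*D.lam^3)) := by
      have : (-D.μ^4)^5 = -(D.μ^5)^4 := by ring
      rw [this, hμK, e0]; ring
    have hq : (D.lam * (s - D.lam)^4
        - (s^3 - 4*s^2*D.lam + 6*s*D.lam^2 - 4*D.lam^3)) ∈ R :=
      sub_mem (mul_mem hlamR (pow_mem (sub_mem hsR hlamR) 4))
        (sub_mem (add_mem (sub_mem (pow_mem hsR 3) (mul_mem (mul_mem (ofNat_mem R 4)
          (pow_mem hsR 2)) hlamR)) (mul_mem (mul_mem (ofNat_mem R 6) hsR) (pow_mem hlamR 2)))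
          (mul_mem (ofNat_mem R 4) (pow_mem hlamR 3)))
    have hlt : R.valuation (D.b * s^5 - (-D.μ^4)^5) < 1 := by
      rw [e, map_mul]
      exact mul_lt_one_of_lt_of_le hs1 ((R.valuation_le_one_iff _).2 hq)
    have vμ : R.valuation ((-D.μ^4)^5) = 1 := by
      have : (-D.μ^4)^5 = -(D.μ^5)^4 := by ring
      rw [this, hμK, Valuation.map_neg, map_pow, v7, one_pow]
    have vb : R.valuation (D.b * s^5) = 1 := by
      have : D.b * s^5 = (-D.μ^4)^5 + (D.b * s^5 - (-D.μ^4)^5) := by ring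
      rw [this, Valuation.map_add_eq_of_lt_left _ (by rw [vμ]; exact hlt), vμ]
    exact good_of_residue R hζK (hC _) hA HV' D.V0 v5 vb (-D.μ^4) hlt

end

end Pool.Agent.BrFive
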