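import Mathlib
import Pool.Agent.BrFive.Defs
import Pool.Agent.BrFive.Unram

/-! The surface and its smoothness. -/

namespace Pool.Agent.BrFive

open MvPolynomial

/-- The base field. -/
abbrev FF := RatFunc ℂ

noncomputable def tF : FF := RatFunc.X

noncomputable def bF : FF := (7 - tF) * (1 - 7 * tF)^4

noncomputable def δF : FF := bF - tF

noncomputable def uF (u : ℂ) : FF := algebraMap ℂ FF u

noncomputable def εF (u : ℂ) : FF := bF * (5 * uF u - 3) + tF * (5 * uF u + 8)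

/-- The form of degree six. -/
noncomputable def sextic (u : ℂ) : MvPolynomial (Fin 4) FF :=
  X 0 * X 1 ^ 5 - C δF * (X 3 ^ 2 + X 0 * X 2 * X 3 - X 2 ^ 3)
    - C (εF u) * (X 0 ^ 3 * X 3 + X 0 * X 2 * X 3 - X 0 ^ 2 * X 2 ^ 2)

theorem algebraMap_bP : algebraMap (Polynomial ℂ) FF bP = bF := by
  simp only [bP, bF, tF, map_mul, map_sub, map_pow, map_one, RatFunc.algebraMap_X]
  have : algebraMap (Polynomial ℂ) FF (Polynomial.C 7) = 7 := by
    rw [show (Polynomial.C (7:ℂ)) = 7 from rfl, map_ofNat]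
  rw [this]

theorem algebraMap_C (c : ℂ) : algebraMap (Polynomial ℂ) FF (Polynomial.C c) = algebraMap ℂ FF c := by
  rw [IsScalarTower.algebraMap_apply ℂ (Polynomial ℂ) FF]
  rfl

theorem bF_ne : bF ≠ 0 := by
  rw [← algebraMap_bP, Ne, FaithfulSMul.algebraMap_eq_zero_iff]
  exact bP_ne

theorem tF_ne : tF ≠ 0 := RatFunc.X_ne_zero

theorem δF_ne : δF ≠ 0 := by
  have : algebraMap (Polynomial ℂ) FF δP = δF := by
    simp only [δP, δF, map_sub, algebraMap_bP, RatFunc.algebraMap_X, tF]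
  rw [← this, Ne, FaithfulSMul.algebraMap_eq_zero_iff]
  exact δP_ne

theorem εF_ne {u : ℂ} (hu : u^2 + u - 1 = 0) : εF u ≠ 0 := by
  have : algebraMap (Polynomial ℂ) FF (εP u) = εF u := by
    simp only [εP, εF, map_add, map_mul, algebraMap_bP, RatFunc.algebraMap_X, tF, algebraMap_C,
      uF, map_sub, map_ofNat]
  rw [← this, Ne, FaithfulSMul.algebraMap_eq_zero_iff]
  exact εP_ne hu

theorem uF_eq {u : ℂ} (hu : u^2 + u - 1 = 0) : (uF u)^2 + uF u - 1 = 0 := by
  have := congrArg (algebraMap ℂ FF) hu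
  simpa [uF] using this

theorem disc_ne {u : ℂ} (hu : u^2 + u - 1 = 0) : (εF u)^2 + 11 * δF * εF u - δF^2 ≠ 0 := by
  have h1 : (εF u)^2 + 11 * δF * εF u - δF^2 = 125 * bF * tF := by
    have := uF_eq hu
    rw [εF, δF]
    linear_combination (25 * bF^2 + 25 * tF^2 + 50 * bF * tF) * this
  rw [h1]
  exact mul_ne_zero (mul_ne_zero (by norm_num) bF_ne) tF_ne

theorem elliptic_smooth {k : Type*} [Field k] [CharZero k] {T Z W : k} (hT : T ≠ 0)
    (hd : T^2 + 11 * T - 1 ≠ 0)
    (e0 : W^2 + Z*W - Z^3 + T*(W + Z*W - Z^2) = 0) (ez : W - 3*Z^2 + T*(W - 2*Z) = 0)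
    (ew : 2*W + Z + T*(1+Z) = 0) : False := by
  have hW : W = -(Z + T*(1+Z))/2 := by linear_combination ew/2
  have hf : 4*Z^3 + 4*T*Z^2 + ((1+T)*Z+T)^2 = 0 := by
    linear_combination (-4) * e0 + (2*W + Z + T*(1+Z)) * ew
  have hg : 6*Z^2 + (T^2+6*T+1)*Z + (T^2+T) = 0 := by
    linear_combination (-2) * ez + (1+T) * ew
  have hR : 72 * T^5 * (T^2 + 11*T - 1) = 0 := by
    obtain ⟨p, hp⟩ : ∃ p, p = T^2+6*T+1 := ⟨_, rfl⟩
    obtain ⟨q, hq⟩ : ∃ q, q = T^2+T := ⟨_, rfl⟩
    obtain ⟨α, hα⟩ : ∃ α, α = p^2 - 24*q := ⟨_, rfl⟩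
    obtain ⟨β, hβ⟩ : ∃ β, β = p*q - 18*T^2 := ⟨_, rfl⟩
    have h1 : 6*β^2 - p*α*β + q*α^2 = 0 := by
      have hf' : 4*Z^3 + p*Z^2 + 2*q*Z + T^2 = 0 := by rw [hp, hq]; linear_combination hf
      have hg' : 6*Z^2 + p*Z + q = 0 := by rw [hp, hq]; linear_combination hg
      have hl : α*Z + β = 0 := by
        rw [hα, hβ]
        linear_combination (p + 12*Z) * hg' - 18 * hf'
      linear_combination α^2 * hg' - (6*α*Z + p*α - 6*β) * hl
    rw [hβ, hα, hp, hq] at h1
    linear_combination h1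
  have h5 : T^5 ≠ 0 := pow_ne_zero 5 hT
  exact mul_ne_zero (mul_ne_zero (by norm_num) h5) hd hR

theorem cone_smooth {k : Type*} [Field k] [CharZero k] {x y z w δ ε : k} (hδ : δ ≠ 0)
    (hε : ε ≠ 0) (hd : ε^2 + 11 * δ * ε - δ^2 ≠ 0)
    (q : x * y^5 - δ * (w^2 + x*z*w - z^3) - ε * (x^3*w + x*z*w - x^2*z^2) = 0)
    (q0 : y^5 - δ * (z*w) - ε * (3*x^2*w + z*w - 2*x*z^2) = 0)
    (q1 : 5 * x * y^4 = 0)
    (q2 : δ * (x*w - 3*z^2) + ε * (x*w - 2*x^2*z) = 0)
    (q3 : δ * (2*w + x*z) + ε * (x^3 + x*z) = 0) : x = 0 ∧ y = 0 ∧ z = 0 ∧ w = 0 := by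
  by_cases hx : x = 0
  · subst hx
    have hw : w = 0 := by
      have : 2 * δ * w = 0 := by linear_combination q3
      exact (mul_eq_zero.1 this).resolve_left (mul_ne_zero (by norm_num) hδ)
    subst hw
    have hz : z = 0 := by
      have : δ * z^3 = 0 := by linear_combination q
      exact pow_eq_zero_iff (by norm_num) |>.1 ((mul_eq_zero.1 this).resolve_left hδ)
    subst hz
    have hy : y = 0 := by
      have : y^5 = 0 := by linear_combination q0
      exact pow_eq_zero_iff (by norm_num) |>.1 this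
    exact ⟨rfl, hy, rfl, rfl⟩
  · exfalso
    have hy : y = 0 := by
      have : y^4 = 0 := (mul_eq_zero.1 q1).resolve_left (mul_ne_zero (by norm_num) hx)
      exact pow_eq_zero_iff (by norm_num) |>.1 this
    subst hy
    refine elliptic_smooth (T := ε/δ) (Z := z/x^2) (W := w/x^3) (div_ne_zero hε hδ) ?_ ?_ ?_ ?_
    · intro h
      apply hd
      field_simp at h
      linear_combination h
    · field_simp
      linear_combination (-1) * q
    · field_simp
      linear_combination q2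
    · field_simp
      linear_combination q3

theorem isDelPezzoOne_sextic {u : ℂ} (hu : u^2 + u - 1 = 0) : IsDelPezzoOne (sextic u) where
  sextic := by
    have hX : ∀ i : Fin 4, IsWeightedHomogeneous (![1, 1, 2, 3] : Fin 4 → ℕ)
        (X i : MvPolynomial (Fin 4) FF) (![1, 1, 2, 3] i) :=
      fun i => isWeightedHomogeneous_X _ _ i
    have h0 := hX 0
    have h1 := hX 1
    have h2 := hX 2
    have h3 := hX 3
    simp only [Matrix.cons_val_zero, Matrix.cons_val_one, Matrix.cons_val] at h0 h1 h2 h3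
    have hC : ∀ c : FF, IsWeightedHomogeneous (![1, 1, 2, 3] : Fin 4 → ℕ)
        (C c : MvPolynomial (Fin 4) FF) 0 := fun c => isWeightedHomogeneous_C _ c
    have a1 : IsWeightedHomogeneous (![1, 1, 2, 3] : Fin 4 → ℕ)
        (X 0 * X 1 ^ 5 : MvPolynomial (Fin 4) FF) 6 := h0.mul (h1.pow 5)
    have a2 : IsWeightedHomogeneous (![1, 1, 2, 3] : Fin 4 → ℕ)
        (X 3 ^ 2 : MvPolynomial (Fin 4) FF) 6 := h3.pow 2
    have a3 : IsWeightedHomogeneous (![1, 1, 2, 3] : Fin 4 → ℕ)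
        (X 0 * X 2 * X 3 : MvPolynomial (Fin 4) FF) 6 := (h0.mul h2).mul h3
    have a4 : IsWeightedHomogeneous (![1, 1, 2, 3] : Fin 4 → ℕ)
        (X 2 ^ 3 : MvPolynomial (Fin 4) FF) 6 := h2.pow 3
    have a5 : IsWeightedHomogeneous (![1, 1, 2, 3] : Fin 4 → ℕ)
        (X 0 ^ 3 * X 3 : MvPolynomial (Fin 4) FF) 6 := (h0.pow 3).mul h3
    have a6 : IsWeightedHomogeneous (![1, 1, 2, 3] : Fin 4 → ℕ)
        (X 0 ^ 2 * X 2 ^ 2 : MvPolynomial (Fin 4) FF) 6 := (h0.pow 2).mul (h2.pow 2)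
    have hsub : ∀ {P Q : MvPolynomial (Fin 4) FF},
        IsWeightedHomogeneous (![1, 1, 2, 3] : Fin 4 → ℕ) P 6 →
        IsWeightedHomogeneous (![1, 1, 2, 3] : Fin 4 → ℕ) Q 6 →
        IsWeightedHomogeneous (![1, 1, 2, 3] : Fin 4 → ℕ) (P - Q) 6 := fun hP hQ =>
      Submodule.sub_mem (weightedHomogeneousSubmodule FF (![1, 1, 2, 3] : Fin 4 → ℕ) 6) hP hQ
    have d1 := (hC δF).mul (hsub (a2.add a3) a4)
    have d2 := (hC (εF u)).mul (hsub (a5.add a3) a6)
    rw [zero_add] at d1 d2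
    exact hsub (hsub a1 d1) d2
  smooth := by
    intro p hp hP
    by_contra hcon
    push Not at hcon
    have inj : Function.Injective (algebraMap FF (AlgebraicClosure FF)) :=
      (algebraMap FF (AlgebraicClosure FF)).injective
    have q : p 0 * p 1^5 - (algebraMap FF (AlgebraicClosure FF) δF) * (p 3^2 + p 0*p 2*p 3 - p 2^3)
        - (algebraMap FF (AlgebraicClosure FF) (εF u)) *
          (p 0^3*p 3 + p 0*p 2*p 3 - p 0^2*p 2^2) = 0 := by
      have := hP
      simp only [BrFive.sextic, map_sub, map_add, map_mul, map_pow, aeval_X, aeval_C] at this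
      exact this
    have q0 : p 1^5 - (algebraMap FF (AlgebraicClosure FF) δF) * (p 2*p 3)
        - (algebraMap FF (AlgebraicClosure FF) (εF u)) *
          (3*p 0^2*p 3 + p 2*p 3 - 2*p 0*p 2^2) = 0 := by
      have := hcon 0
      simp [BrFive.sextic, pderiv_X] at this
      linear_combination this
    have q1 : 5 * p 0 * p 1^4 = 0 := by
      have := hcon 1
      simp only [BrFive.sextic, map_sub, Derivation.leibniz, pderiv_X] at this
      simp at this
      rcases this with h | h <;> simp [h]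
    have q2 : (algebraMap FF (AlgebraicClosure FF) δF) * (p 0*p 3 - 3*p 2^2) +
        (algebraMap FF (AlgebraicClosure FF) (εF u)) * (p 0*p 3 - 2*p 0^2*p 2) = 0 := by
      have := hcon 2
      simp [BrFive.sextic, pderiv_X] at this
      linear_combination (-1) * this
    have q3 : (algebraMap FF (AlgebraicClosure FF) δF) * (2*p 3 + p 0*p 2) +
        (algebraMap FF (AlgebraicClosure FF) (εF u)) * (p 0^3 + p 0*p 2) = 0 := by
      have := hcon 3
      simp [BrFive.sextic, pderiv_X] at this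
      linear_combination (-1) * this
    have hne : ∀ a : FF, a ≠ 0 → algebraMap FF (AlgebraicClosure FF) a ≠ 0 := fun a ha h =>
      ha (inj (by rw [h, map_zero]))
    obtain ⟨z0, z1, z2, z3⟩ := cone_smooth (hne _ δF_ne) (hne _ (εF_ne hu)) (by
      have := hne _ (disc_ne hu)
      simpa only [map_sub, map_add, map_mul, map_pow, map_ofNat] using this) q q0 q1 q2 q3
    apply hp
    funext i
    fin_cases i
    · exact z0
    · exact z1
    · exact z2
    · exact z3

end Pool.Agent.BrFive
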