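import Mathlib
import Pool.Agent.BrFive.Smooth
import Pool.Agent.BrFive.NoSol

/-! The function field of the surface. -/

namespace Pool.Agent.BrFive

section

open Polynomial

theorem prime_X_pow_sub {A : Type*} [CommRing A] [IsDomain A] [UniqueFactorizationMonoid A]
    {Θ : A} (h : ∀ c : A, c^5 ≠ Θ) : Prime (X^5 - C Θ : A[X]) := by
  have hirr : Irreducible (X^5 - C Θ : A[X]) := by
    rw [(monic_f0 Θ).irreducible_iff_irreducible_map_fraction_map (K := FractionRing A)]
    rw [Polynomial.map_sub, Polynomial.map_pow, map_X, map_C]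
    refine X_pow_sub_C_irreducible_of_prime (by norm_num) ?_
    intro b hb
    obtain ⟨c, rfl⟩ := IsIntegrallyClosed.isIntegral_iff.1
      (⟨X^5 - C Θ, monic_f0 Θ, by simp [hb]⟩ : IsIntegral A b)
    apply h c
    apply IsFractionRing.injective A (FractionRing A)
    rw [map_pow, hb]
  exact hirr.prime

end

open MvPolynomial

/-- The coordinate ring of the chart. -/
abbrev ChartRing0 {F : Type*} [Field F] (P : MvPolynomial (Fin 4) F) : Type _ :=
  MvPolynomial (Fin 3) F ⧸
    Ideal.span {(aeval ![1, X 0, X 1, X 2] P : MvPolynomial (Fin 3) F)}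

/-- The right hand side of the affine equation. -/
noncomputable def ΘA (u : ℂ) : MvPolynomial (Fin 2) FF :=
  C δF * (X 1 ^ 2 + X 0 * X 1 - X 0 ^ 3) + C (εF u) * ((1 + X 0) * X 1 - X 0 ^ 2)

theorem finSucc_C (c : FF) : finSuccEquiv FF 2 (C c) = Polynomial.C (C c) := by
  have := RingHom.congr_fun (finSuccEquiv_comp_C_eq_C (R := FF) 2) c
  rw [← this]
  simp

theorem finSuccEquiv_chart (u : ℂ) :
    finSuccEquiv FF 2 (aeval ![1, X 0, X 1, X 2] (sextic u)) =
      Polynomial.X^5 - Polynomial.C (ΘA u) := by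
  have h1 : (X 1 : MvPolynomial (Fin 3) FF) = X (Fin.succ 0) := rfl
  have h2 : (X 2 : MvPolynomial (Fin 3) FF) = X (Fin.succ 1) := rfl
  have hC := finSucc_C
  have e : aeval ![1, X 0, X 1, X 2] (sextic u) = (X 0 ^ 5 - C δF * (X (Fin.succ 1) ^ 2 +
      X (Fin.succ 0) * X (Fin.succ 1) - X (Fin.succ 0) ^ 3) - C (εF u) * (X (Fin.succ 1) +
      X (Fin.succ 0) * X (Fin.succ 1) - X (Fin.succ 0) ^ 2) : MvPolynomial (Fin 3) FF) := by
    rw [← h1, ← h2]
    simp only [sextic, map_sub, map_add, map_mul, map_pow, aeval_X, algHom_C, algebraMap_eq]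
    simp
  rw [e]
  simp only [map_sub, map_add, map_mul, map_pow, finSuccEquiv_X_zero, finSuccEquiv_X_succ, hC,
    ΘA, Polynomial.C_1]
  ring

theorem ΘA_not_pow {u : ℂ} (c : MvPolynomial (Fin 2) FF) : c^5 ≠ ΘA u := by
  intro h
  have h1 := congrArg (eval₂Hom (Polynomial.C : FF →+* Polynomial FF) ![0, Polynomial.X]) h
  rw [map_pow] at h1
  have h2 : (eval₂Hom (Polynomial.C : FF →+* Polynomial FF) ![0, Polynomial.X]) (ΘA u) =
      Polynomial.C δF * Polynomial.X^2 + Polynomial.C (εF u) * Polynomial.X := by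
    simp [ΘA]
  rw [h2] at h1
  have h3 := congrArg Polynomial.natDegree h1
  have h4 : (Polynomial.C δF * Polynomial.X^2 + Polynomial.C (εF u) * Polynomial.X :
      Polynomial FF).natDegree = 2 := by
    have := δF_ne
    compute_degree!
  rw [Polynomial.natDegree_pow, h4] at h3
  omega

theorem prime_chart (u : ℂ) :
    Prime (aeval ![1, X 0, X 1, X 2] (sextic u) : MvPolynomial (Fin 3) FF) := by
  rw [← MulEquiv.prime_iff (finSuccEquiv FF 2)]
  rw [finSuccEquiv_chart]
  exact prime_X_pow_sub fun c => ΘA_not_pow c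

instance isDomain_chart (u : ℂ) : IsDomain (ChartRing0 (sextic u)) := by
  rw [Ideal.Quotient.isDomain_iff_prime, Ideal.span_singleton_prime (prime_chart u).ne_zero]
  exact prime_chart u

/-- The inclusion of `ℂ[t, X, Y]` in `ℂ(t)[X, Y]`. -/
noncomputable def θH : MvPolynomial (Fin 3) ℂ →+* MvPolynomial (Fin 2) FF :=
  eval₂Hom ((C : FF →+* MvPolynomial (Fin 2) FF).comp (algebraMap ℂ FF)) ![C tF, X 0, X 1]

noncomputable def nest3 : MvPolynomial (Fin 3) ℂ →+* Polynomial (Polynomial (Polynomial ℂ)) :=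
  eval₂Hom ((Polynomial.C).comp ((Polynomial.C).comp (Polynomial.C : ℂ →+* Polynomial ℂ)))
    (![Polynomial.C (Polynomial.C Polynomial.X), Polynomial.C Polynomial.X, Polynomial.X] :
      Fin 3 → Polynomial (Polynomial (Polynomial ℂ)))

noncomputable def unnest3 : Polynomial (Polynomial (Polynomial ℂ)) →+* MvPolynomial (Fin 3) ℂ :=
  Polynomial.eval₂RingHom (Polynomial.eval₂RingHom (Polynomial.eval₂RingHom C (X 0)) (X 1)) (X 2)

theorem nest3_injective : Function.Injective nest3 := by
  have h : unnest3.comp nest3 = RingHom.id _ := by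
    apply MvPolynomial.ringHom_ext
    · intro r
      simp [nest3, unnest3]
    · intro i
      fin_cases i <;> simp [nest3, unnest3]
  exact Function.LeftInverse.injective (g := unnest3) (fun x => RingHom.congr_fun h x)

noncomputable def unnest2 : Polynomial (Polynomial FF) →+* MvPolynomial (Fin 2) FF :=
  Polynomial.eval₂RingHom (Polynomial.eval₂RingHom C (X 0)) (X 1)

noncomputable def nest2 : MvPolynomial (Fin 2) FF →+* Polynomial (Polynomial FF) :=
  eval₂Hom ((Polynomial.C).comp (Polynomial.C : FF →+* Polynomial FF))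
    (![Polynomial.C Polynomial.X, Polynomial.X] : Fin 2 → Polynomial (Polynomial FF))

theorem unnest2_injective : Function.Injective unnest2 := by
  have h : nest2.comp unnest2 = RingHom.id _ := by
    apply Polynomial.ringHom_ext'
    · apply Polynomial.ringHom_ext
      · intro a
        simp [nest2, unnest2]
      · simp [nest2, unnest2]
    · simp [nest2, unnest2]
  exact Function.LeftInverse.injective (g := nest2) (fun x => RingHom.congr_fun h x)

theorem θH_injective : Function.Injective θH := by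
  have h : θH = unnest2.comp ((Polynomial.mapRingHom (Polynomial.mapRingHom
      (algebraMap (Polynomial ℂ) FF))).comp nest3) := by
    apply MvPolynomial.ringHom_ext
    · intro r
      simp only [θH, unnest2, nest3, RingHom.comp_apply, coe_eval₂Hom, eval₂_C,
        Polynomial.coe_mapRingHom, Polynomial.map_C, Polynomial.coe_eval₂RingHom,
        Polynomial.eval₂_C, algebraMap_C]
    · intro i
      fin_cases i <;> simp [θH, unnest2, nest3, tF]
  rw [h]
  have h1 : Function.Injective (Polynomial.mapRingHom (Polynomial.mapRingHom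
      (algebraMap (Polynomial ℂ) FF))) :=
    Polynomial.map_injective _ (Polynomial.map_injective _
      (IsFractionRing.injective (Polynomial ℂ) FF))
  exact (unnest2_injective.comp h1).comp nest3_injective

theorem θH_ΘM (u : ℂ) : θH (ΘM u) = ΘA u := by
  simp only [ΘM, UM, VM, ΦM, gM, bM, ΘA, θH, map_sub, map_add, map_mul, map_pow, map_one,
    map_ofNat, coe_eval₂Hom, eval₂_C, eval₂_X, δF, εF, bF, uF, RingHom.comp_apply]
  simp only [Matrix.cons_val_zero, Matrix.cons_val_one, Matrix.cons_val]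
  ring

/-- The inclusion of `ℂ(t)[X, Y]` in the coordinate ring of the chart. -/
noncomputable def jA (u : ℂ) : MvPolynomial (Fin 2) FF →+* ChartRing0 (sextic u) :=
  (Ideal.Quotient.mk _).comp (rename Fin.succ : _ →ₐ[FF] MvPolynomial (Fin 3) FF).toRingHom

noncomputable def yC (u : ℂ) : ChartRing0 (sextic u) := Ideal.Quotient.mk _ (X 0)

theorem finSucc_rename (p : MvPolynomial (Fin 2) FF) :
    finSuccEquiv FF 2 (rename Fin.succ p) = Polynomial.C p := by
  have h : ((finSuccEquiv FF 2).toRingEquiv.toRingHom).comp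
      (rename Fin.succ : MvPolynomial (Fin 2) FF →ₐ[FF] MvPolynomial (Fin 3) FF).toRingHom =
      Polynomial.C := by
    apply MvPolynomial.ringHom_ext
    · intro r
      have := finSucc_C r
      simpa using this
    · intro i
      have : finSuccEquiv FF 2 (X (Fin.succ i)) = Polynomial.C (X i) := finSuccEquiv_X_succ
      simpa using this
  exact RingHom.congr_fun h p

theorem eval₂_jA (u : ℂ) (p : Polynomial (MvPolynomial (Fin 2) FF)) :
    Polynomial.eval₂ (jA u) (yC u) p = Ideal.Quotient.mk _ ((finSuccEquiv FF 2).symm p) := by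
  have h : Polynomial.eval₂RingHom (jA u) (yC u) =
      (Ideal.Quotient.mk (Ideal.span {(aeval ![1, X 0, X 1, X 2] (sextic u) :
        MvPolynomial (Fin 3) FF)})).comp ((finSuccEquiv FF 2).symm.toRingEquiv.toRingHom) := by
    apply Polynomial.ringHom_ext
    · intro a
      have h1 : (finSuccEquiv FF 2).symm (Polynomial.C a) = rename Fin.succ a := by
        rw [← finSucc_rename a, AlgEquiv.symm_apply_apply]
      simp only [Polynomial.coe_eval₂RingHom, Polynomial.eval₂_C, RingHom.comp_apply]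
      exact (congrArg (Ideal.Quotient.mk _) h1).symm
    · have h1 : (finSuccEquiv FF 2).symm Polynomial.X = X 0 := by
        rw [← finSuccEquiv_X_zero, AlgEquiv.symm_apply_apply]
      simp only [Polynomial.coe_eval₂RingHom, Polynomial.eval₂_X, RingHom.comp_apply]
      exact (congrArg (Ideal.Quotient.mk _) h1).symm
  exact RingHom.congr_fun h p

theorem eval₂_jA_eq_zero (u : ℂ) (p : Polynomial (MvPolynomial (Fin 2) FF)) :
    Polynomial.eval₂ (jA u) (yC u) p = 0 ↔ (Polynomial.X^5 - Polynomial.C (ΘA u)) ∣ p := by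
  rw [eval₂_jA, Ideal.Quotient.eq_zero_iff_mem, Ideal.mem_span_singleton,
    ← finSuccEquiv_chart]
  constructor
  · rintro ⟨q, hq⟩
    refine ⟨finSuccEquiv FF 2 q, ?_⟩
    rw [← map_mul, ← hq, AlgEquiv.apply_symm_apply]
  · rintro ⟨q, hq⟩
    refine ⟨(finSuccEquiv FF 2).symm q, ?_⟩
    rw [hq, map_mul, AlgEquiv.symm_apply_apply]

theorem jA_injective (u : ℂ) : Function.Injective (jA u) := by
  rw [injective_iff_map_eq_zero]
  intro a ha
  have h1 := (eval₂_jA_eq_zero u (Polynomial.C a)).1 (by rw [Polynomial.eval₂_C, ha])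
  by_contra hne
  have h2 := Polynomial.natDegree_le_of_dvd h1 (by rwa [Ne, Polynomial.C_eq_zero])
  rw [natDegree_f0, Polynomial.natDegree_C] at h2
  omega

theorem yC_pow (u : ℂ) : yC u ^ 5 = jA u (ΘA u) := by
  have h1 := (eval₂_jA_eq_zero u (Polynomial.X^5 - Polynomial.C (ΘA u))).2 dvd_rfl
  rw [Polynomial.eval₂_sub, Polynomial.eval₂_pow, Polynomial.eval₂_X, Polynomial.eval₂_C] at h1
  exact sub_eq_zero.1 h1

/-- The function field. -/
abbrev KK (u : ℂ) := FractionRing (ChartRing0 (sextic u))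

noncomputable def φK (u : ℂ) : MvPolynomial (Fin 3) ℂ →+* KK u :=
  (algebraMap (ChartRing0 (sextic u)) (KK u)).comp ((jA u).comp θH)

noncomputable def yK (u : ℂ) : KK u := algebraMap (ChartRing0 (sextic u)) (KK u) (yC u)

theorem φK_injective (u : ℂ) : Function.Injective (φK u) :=
  (IsFractionRing.injective (ChartRing0 (sextic u)) (KK u)).comp
    ((jA_injective u).comp θH_injective)

theorem yK_pow (u : ℂ) : yK u ^ 5 = φK u (ΘM u) := by
  rw [yK, ← map_pow, yC_pow, ← θH_ΘM]
  rfl

theorem indepK (u : ℂ) (p : Polynomial (MvPolynomial (Fin 3) ℂ))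
    (hp : Polynomial.eval₂ (φK u) (yK u) p = 0) :
    (Polynomial.X^5 - Polynomial.C (ΘM u)) ∣ p := by
  have h1 : algebraMap (ChartRing0 (sextic u)) (KK u)
      (Polynomial.eval₂ (jA u) (yC u) (p.map θH)) = 0 := by
    rw [← hp, Polynomial.hom_eval₂, Polynomial.eval₂_map]
    rfl
  have h2 : Polynomial.eval₂ (jA u) (yC u) (p.map θH) = 0 :=
    IsFractionRing.injective (ChartRing0 (sextic u)) (KK u) (by rw [h1, map_zero])
  rw [eval₂_jA_eq_zero, ← θH_ΘM] at h2
  rw [← Polynomial.modByMonic_eq_zero_iff_dvd (monic_f0 _)] at h2 ⊢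
  apply Polynomial.map_injective θH θH_injective
  rw [Polynomial.map_modByMonic _ (monic_f0 _), Polynomial.map_zero, ← h2]
  simp

/-- `c` is a polynomial in `y` over `ℂ[t, X, Y]` divided by an element of `ℂ[t, X, Y]`. -/
def GenK (u : ℂ) (c : KK u) : Prop :=
  ∃ (p : Polynomial (MvPolynomial (Fin 3) ℂ)) (D : MvPolynomial (Fin 3) ℂ),
    φK u D ≠ 0 ∧ c * φK u D = Polynomial.eval₂ (φK u) (yK u) p

theorem GenK.add {u : ℂ} {c d : KK u} (hc : GenK u c) (hd : GenK u d) : GenK u (c + d) := by
  obtain ⟨p, D, hD, h⟩ := hc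
  obtain ⟨q, E, hE, h'⟩ := hd
  refine ⟨p * Polynomial.C E + q * Polynomial.C D, D * E, ?_, ?_⟩
  · rw [map_mul]; exact mul_ne_zero hD hE
  · rw [Polynomial.eval₂_add, Polynomial.eval₂_mul, Polynomial.eval₂_mul, Polynomial.eval₂_C,
      Polynomial.eval₂_C, ← h, ← h', map_mul]
    ring

theorem GenK.mul {u : ℂ} {c d : KK u} (hc : GenK u c) (hd : GenK u d) : GenK u (c * d) := by
  obtain ⟨p, D, hD, h⟩ := hc
  obtain ⟨q, E, hE, h'⟩ := hd
  refine ⟨p * q, D * E, ?_, ?_⟩
  · rw [map_mul]; exact mul_ne_zero hD hE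
  · rw [Polynomial.eval₂_mul, ← h, ← h', map_mul]
    ring

theorem GenK.base (u : ℂ) (a : MvPolynomial (Fin 3) ℂ) : GenK u (φK u a) :=
  ⟨Polynomial.C a, 1, by rw [map_one]; exact one_ne_zero, by
    rw [map_one, mul_one, Polynomial.eval₂_C]⟩

theorem GenK.y (u : ℂ) : GenK u (yK u) :=
  ⟨Polynomial.X, 1, by rw [map_one]; exact one_ne_zero, by
    rw [map_one, mul_one, Polynomial.eval₂_X]⟩

theorem θH_poly (a : Polynomial ℂ) :
    θH (Polynomial.eval₂RingHom C (X 0) a) = C (algebraMap (Polynomial ℂ) FF a) := by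
  have h : θH.comp (Polynomial.eval₂RingHom C (X 0)) =
      (C : FF →+* MvPolynomial (Fin 2) FF).comp (algebraMap (Polynomial ℂ) FF) := by
    apply Polynomial.ringHom_ext
    · intro r
      simp only [RingHom.comp_apply, Polynomial.coe_eval₂RingHom, Polynomial.eval₂_C,
        algebraMap_C]
      simp [θH]
    · simp [θH, tF]
  exact RingHom.congr_fun h a

theorem GenK.const (u : ℂ) (f : FF) :
    GenK u (algebraMap (ChartRing0 (sextic u)) (KK u) (jA u (C f))) := by
  obtain ⟨a, b, hb, rfl⟩ := IsFractionRing.div_surjective (A := Polynomial ℂ) f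
  have hb0 : algebraMap (Polynomial ℂ) FF b ≠ 0 := by
    rw [Ne, FaithfulSMul.algebraMap_eq_zero_iff]
    exact nonZeroDivisors.ne_zero hb
  have hφ : ∀ a : Polynomial ℂ, φK u (Polynomial.eval₂RingHom C (X 0) a) =
      algebraMap (ChartRing0 (sextic u)) (KK u) (jA u (C (algebraMap (Polynomial ℂ) FF a))) := by
    intro a
    rw [← θH_poly]
    rfl
  refine ⟨Polynomial.C (Polynomial.eval₂RingHom C (X 0) a), Polynomial.eval₂RingHom C (X 0) b,
    ?_, ?_⟩
  · rw [hφ]
    intro h
    have h1 := IsFractionRing.injective (ChartRing0 (sextic u)) (KK u) (h.trans (map_zero _).symm)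
    have h2 := jA_injective u (h1.trans (map_zero _).symm)
    rw [C_eq_zero] at h2
    exact hb0 h2
  · rw [Polynomial.eval₂_C, hφ, hφ, ← map_mul, ← map_mul, ← C_mul, div_mul_cancel₀ _ hb0]

theorem GenK.chart (u : ℂ) (r : ChartRing0 (sextic u)) :
    GenK u (algebraMap (ChartRing0 (sextic u)) (KK u) r) := by
  obtain ⟨q, rfl⟩ := Ideal.Quotient.mk_surjective r
  induction q using MvPolynomial.induction_on with
  | C f =>
    have : (Ideal.Quotient.mk (Ideal.span {(aeval ![1, X 0, X 1, X 2] (sextic u) :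
        MvPolynomial (Fin 3) FF)})) (C f) = jA u (C f) :=
      congrArg (Ideal.Quotient.mk _) (rename_C Fin.succ f).symm
    rw [this]
    exact GenK.const u f
  | add p q hp hq =>
    rw [map_add, map_add]
    exact hp.add hq
  | mul_X p i hp =>
    rw [map_mul, map_mul]
    refine hp.mul ?_
    fin_cases i
    · exact GenK.y u
    · have : algebraMap (ChartRing0 (sextic u)) (KK u) ((Ideal.Quotient.mk (Ideal.span
          {(aeval ![1, X 0, X 1, X 2] (sextic u) : MvPolynomial (Fin 3) FF)})) (X 1)) =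
          φK u (X 1) := by
        simp only [φK, RingHom.comp_apply]
        congr 1
        simp only [θH, coe_eval₂Hom, eval₂_X, jA, RingHom.comp_apply]
        simp only [Matrix.cons_val_one, Matrix.cons_val_zero]
        congr 1
        simp
      have h2 := GenK.base u (X 1)
      rw [← this] at h2
      exact h2
    · have : algebraMap (ChartRing0 (sextic u)) (KK u) ((Ideal.Quotient.mk (Ideal.span
          {(aeval ![1, X 0, X 1, X 2] (sextic u) : MvPolynomial (Fin 3) FF)})) (X 2)) =
          φK u (X 2) := by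
        simp only [φK, RingHom.comp_apply]
        congr 1
        simp only [θH, coe_eval₂Hom, eval₂_X, jA, RingHom.comp_apply]
        simp only [Matrix.cons_val]
        congr 1
        simp
      have h2 := GenK.base u (X 2)
      rw [← this] at h2
      exact h2

theorem GenK.inv {u : ℂ} {c : KK u} (hc : GenK u c) (hc0 : c ≠ 0) : GenK u c⁻¹ := by
  obtain ⟨p, D, hD, h⟩ := hc
  let _ : Algebra (MvPolynomial (Fin 3) ℂ) (KK u) := (φK u).toAlgebra
  have hmap : algebraMap (MvPolynomial (Fin 3) ℂ) (KK u) = φK u := rfl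
  have hy : IsIntegral (MvPolynomial (Fin 3) ℂ) (yK u) := by
    refine ⟨Polynomial.X^5 - Polynomial.C (ΘM u), monic_f0 _, ?_⟩
    rw [hmap]
    simp [yK_pow]
  set β := Polynomial.eval₂ (φK u) (yK u) p with hβ
  have hβ0 : β ≠ 0 := by
    rw [← h]; exact mul_ne_zero hc0 hD
  have hmem : ∀ q : Polynomial (MvPolynomial (Fin 3) ℂ),
      Polynomial.eval₂ (φK u) (yK u) q ∈ Algebra.adjoin (MvPolynomial (Fin 3) ℂ) {yK u} := by
    intro q
    exact Polynomial.aeval_mem_adjoin_singleton _ _
  have hβint : IsIntegral (MvPolynomial (Fin 3) ℂ) β := adjoin_le_integralClosure hy (hmem p)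
  obtain ⟨s, hs, r, hr, hsr⟩ := hβint.isAlgebraic.exists_nonzero_eq_adjoin_mul
    (mem_nonZeroDivisors_of_ne_zero hβ0)
  have hs' : s ∈ Algebra.adjoin (MvPolynomial (Fin 3) ℂ) {yK u} := by
    refine Algebra.adjoin_le ?_ hs
    rw [Set.singleton_subset_iff]
    exact hmem p
  rw [Algebra.adjoin_singleton_eq_range_aeval] at hs'
  obtain ⟨q, hq⟩ := hs'
  have hq' : Polynomial.eval₂ (φK u) (yK u) q = s := hq
  refine ⟨Polynomial.C D * q, r, ?_, ?_⟩
  · intro h0
    exact hr (φK_injective u (h0.trans (map_zero _).symm))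
  · rw [Polynomial.eval₂_mul, Polynomial.eval₂_C, hq']
    rw [hmap] at hsr
    rw [← hsr, ← h]
    field_simp

theorem genK (u : ℂ) (c : KK u) : GenK u c := by
  obtain ⟨a, b, hb, rfl⟩ := IsFractionRing.div_surjective (A := ChartRing0 (sextic u)) c
  rw [div_eq_mul_inv]
  refine (GenK.chart u a).mul ((GenK.chart u b).inv ?_)
  rw [Ne, FaithfulSMul.algebraMap_eq_zero_iff]
  exact nonZeroDivisors.ne_zero hb

/-- No solution of the norm equation in the function field. -/
theorem noSolK {u : ℂ} (hu : u^2 + u - 1 = 0) (c0 c1 c2 c3 c4 : KK u)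
    (h : nf c0 c1 c2 c3 c4 (φK u (X 0)) = φK u (UM u)) : False :=
  noSol (φK u) (yK u) hu (yK_pow u) (genK u) (indepK u) c0 c1 c2 c3 c4 h

end Pool.Agent.BrFive
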