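import Mathlib
import Pool.Agent.BrFive.FunctionField

/-! The Brauer class of the surface. -/

namespace Pool.Agent.BrFive

open MvPolynomial TensorProduct

theorem algebraMap_KK (u c : ℂ) : algebraMap ℂ (KK u) c = φK u (C c) := by
  have h1 : θH (C c) = C (algebraMap ℂ FF c) := by simp [θH]
  have h2 : φK u (C c) = algebraMap (ChartRing0 (sextic u)) (KK u) (jA u (θH (C c))) := rfl
  rw [h2, h1]
  have h3 : jA u (C (algebraMap ℂ FF c)) = Ideal.Quotient.mk _ (C (algebraMap ℂ FF c)) :=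
    congrArg (Ideal.Quotient.mk _) (rename_C Fin.succ _)
  rw [h3]
  rfl

theorem gM_ne : gM ℂ ≠ 0 := by
  intro h
  have h1 := congrArg (eval ![0, 0, 1]) h
  simp [gM] at h1

theorem UM_ne (u : ℂ) : UM u ≠ 0 := UM_ne_zero u

theorem VM_ne (u : ℂ) : VM u ≠ 0 := by
  intro h
  have h1 := congrArg (eval ![0, 0, 1]) h
  have h2 := congrArg (eval ![0, 0, -1]) h
  simp [VM, ΦM, gM] at h1 h2
  norm_num at h1 h2
  have : (2:ℂ) = 0 := by linear_combination h1 + h2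
  norm_num at this

theorem nf_U {K : Type*} [CommRing K] {u X Y : K} (hu : u^2 + u - 1 = 0) :
    nf (-X) u 1 0 0 ((1 + X) * Y - X^2) =
      (1+X)^2 * ((Y^2 + X*Y - X^3) + (5*u-3) * ((1 + X) * Y - X^2)) := by
  unfold nf
  linear_combination (((1 + X) * Y - X^2) * (u^3 - u^2 + 2*u - 3)
    + 5 * ((1 + X) * Y - X^2) * X * (u - 1)) * hu

theorem nf_V {K : Type*} [CommRing K] {u X Y : K} (hu : u^2 + u - 1 = 0) :
    nf (-X) (-1-u) 1 0 0 ((1 + X) * Y - X^2) =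
      (1+X)^2 * ((Y^2 + X*Y - X^3) - (5*u+8) * ((1 + X) * Y - X^2)) := by
  rw [nf_U (u := -1-u) (by linear_combination hu)]
  ring

section

variable (u : ℂ)

theorem φK_ne {a : MvPolynomial (Fin 3) ℂ} (ha : a ≠ 0) : φK u a ≠ 0 := by
  intro h
  exact ha (φK_injective u (h.trans (map_zero _).symm))

theorem yK_ne : yK u ≠ 0 := by
  intro h
  have h1 := indepK u Polynomial.X (by rw [Polynomial.eval₂_X, h])
  have h2 := Polynomial.natDegree_le_of_dvd h1 Polynomial.X_ne_zero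
  rw [natDegree_f0, Polynomial.natDegree_X] at h2
  omega

theorem φK_U : φK u (UM u) = ((φK u (X 2))^2 + φK u (X 1) * φK u (X 2) - (φK u (X 1))^3) +
    (5 * algebraMap ℂ (KK u) u - 3) * φK u (gM ℂ) := by
  rw [algebraMap_KK]
  simp only [UM, ΦM, map_add, map_sub, map_mul, map_pow, map_ofNat]

theorem φK_V : φK u (VM u) = ((φK u (X 2))^2 + φK u (X 1) * φK u (X 2) - (φK u (X 1))^3) -
    (5 * algebraMap ℂ (KK u) u + 8) * φK u (gM ℂ) := by
  rw [algebraMap_KK]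
  simp only [VM, ΦM, map_add, map_sub, map_mul, map_pow, map_ofNat]

theorem φK_g : φK u (gM ℂ) = (1 + φK u (X 1)) * φK u (X 2) - (φK u (X 1))^2 := by
  simp only [gM, map_add, map_sub, map_mul, map_pow, map_one]

theorem uK_eq {u : ℂ} (hu : u^2 + u - 1 = 0) :
    (algebraMap ℂ (KK u) u)^2 + algebraMap ℂ (KK u) u - 1 = 0 := by
  have := congrArg (algebraMap ℂ (KK u)) hu
  simpa only [map_sub, map_add, map_pow, map_one, map_zero] using this

/-- The data of the surface in its function field. -/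
noncomputable def dataK {u : ℂ} (hu : u^2 + u - 1 = 0) {μ0 ρ0 : ℂ} (hμ : μ0^5 = 7)
    (hρ : ρ0^5 = 5 * (2*u+1)) : Data (KK u) where
  t := φK u (X 0)
  b := φK u (bM ℂ)
  lam := algebraMap ℂ (KK u) 7
  μ := algebraMap ℂ (KK u) μ0
  ρ := algebraMap ℂ (KK u) ρ0
  u := algebraMap ℂ (KK u) u
  X := φK u (X 1)
  g := φK u (gM ℂ)
  U := φK u (UM u)
  V := φK u (VM u)
  y := yK u
  hμ := by rw [← map_pow, hμ]
  hρ := by
    rw [← map_pow, hρ]
    simp only [map_mul, map_add, map_one, map_ofNat]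
  hb := by
    simp only [bM, map_mul, map_sub, map_pow, map_one, map_ofNat]
  hS := by
    rw [yK_pow]
    simp only [ΘM, map_mul, map_sub]
  hUV := by
    rw [φK_U, φK_V]
    ring
  hU := by
    rw [φK_U, φK_g]
    exact nf_U (uK_eq hu)
  hV := by
    rw [φK_V, φK_g]
    exact nf_V (uK_eq hu)
  y0 := yK_ne u
  t0 := φK_ne u (X_ne_zero 0)
  b0 := by
    apply φK_ne
    intro h
    have h1 := congrArg (eval ![0, 0, 0]) h
    simp [bM] at h1
  g0 := φK_ne u gM_ne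
  U0 := φK_ne u (UM_ne u)
  V0 := φK_ne u (VM_ne u)
  X1 := by
    have h1 : 1 + φK u (X 1) = φK u (1 + X 1) := by rw [map_add, map_one]
    rw [h1]
    apply φK_ne
    intro h
    have h1 := congrArg (eval ![0, 0, 0]) h
    simp at h1
  lam0 := (map_ne_zero _).2 (by norm_num)
  ρ0 := by
    apply (map_ne_zero _).2
    rintro rfl
    apply two_u_ne hu
    rw [← hρ]; norm_num

end

theorem main (u : ℂ) (hu : u^2 + u - 1 = 0) :
    ∃ (A : Type) (_ : Ring A) (_ : Algebra (KK u) A),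
      Nontrivial A ∧ Module.finrank (KK u) A = 25 ∧ IsAzumaya (KK u) A ∧
      (∃ (ζ h a : KK u), 1 + ζ + ζ^2 + ζ^3 + ζ^4 = 0 ∧ h ≠ 0 ∧ a ≠ 0 ∧ HasPair ζ A h a) ∧
      (∀ n m : ℕ, n ≠ 0 → IsEmpty (Matrix (Fin n) (Fin n) A ≃ₐ[KK u]
        Matrix (Fin m) (Fin m) (KK u))) ∧
      ∀ R : ValuationSubring (KK u), IsDiscreteValuationRing R →
        (∀ c : ℂ, algebraMap ℂ (KK u) c ∈ R) → GoodAt (KK u) A R := by
  obtain ⟨μ0, hμ⟩ := IsAlgClosed.exists_pow_nat_eq (7 : ℂ) (n := 5) (by norm_num)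
  obtain ⟨ρ0, hρ⟩ := IsAlgClosed.exists_pow_nat_eq (5 * (2*u+1) : ℂ) (n := 5) (by norm_num)
  obtain ⟨ζ0, hζ0⟩ : ∃ ζ : ℂ, 1 + ζ + ζ^2 + ζ^3 + ζ^4 = 0 := by
    obtain ⟨ζ, hζ⟩ := IsAlgClosed.exists_root (k := ℂ)
      (Polynomial.X^4 + Polynomial.X^3 + Polynomial.X^2 + Polynomial.X + 1) (by
        have : (Polynomial.X^4 + Polynomial.X^3 + Polynomial.X^2 + Polynomial.X + 1 :
          Polynomial ℂ).degree = 4 := by compute_degree!
        rw [this]; norm_num)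
    refine ⟨ζ, ?_⟩
    simp only [Polynomial.IsRoot.def, Polynomial.eval_add, Polynomial.eval_pow,
      Polynomial.eval_X, Polynomial.eval_one] at hζ
    linear_combination hζ
  let D := dataK hu hμ hρ
  have hζK : 1 + algebraMap ℂ (KK u) ζ0 + (algebraMap ℂ (KK u) ζ0)^2
      + (algebraMap ℂ (KK u) ζ0)^3 + (algebraMap ℂ (KK u) ζ0)^4 = 0 := by
    have := congrArg (algebraMap ℂ (KK u)) hζ0
    simpa only [map_add, map_one, map_pow, map_zero] using this
  have hch : CharZero (KK u) := algebraRat.charZero _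
  have h5 : (5 : KK u) ≠ 0 := by norm_num
  obtain ⟨A, iA1, iA2, hA, hAz, hnt, HA⟩ := exists_symbol hζK h5 D.U0 D.t0
  refine ⟨A, iA1, iA2, hnt, hA, hAz, ⟨_, _, _, hζK, D.U0, D.t0, HA⟩, ?_, ?_⟩
  · intro n m hn
    refine ⟨fun e => ?_⟩
    obtain ⟨c0, c1, c2, c3, c4, hc⟩ := nf_of_split hζK D.U0 D.t0 hA HA hn e
    exact noSolK hu c0 c1 c2 c3 c4 hc
  · intro R hR hC
    exact unramified D (φK u (X 2)) hζ0 hu rfl rfl hμ rfl (φK_g u) (φK_U u) (φK_V u) hA HA R hC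

end Pool.Agent.BrFive
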