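import Mathlib
import Pool.Agent.BrFive.BrauerGp

/-! The unramified Brauer group of a field extension. -/

namespace Pool.Agent.BrFive

open TensorProduct

universe u

/-- The class `α` in the Brauer group of `K` is in the image of the Brauer group of the valuation
ring `R` of `K`: it is the class of `K ⊗ B` for an Azumaya algebra `B` over `R`. -/
def IsUnramifiedAt {K : Type u} [Field K] (R : ValuationSubring K)
    (α : BrauerGroup.{u, u} K) : Prop :=
  ∃ (B : Type u) (_ : Ring B) (_ : Algebra R B) (A : CSA.{u, u} K),
    IsAzumaya R B ∧ Nonempty ((K ⊗[R] B) ≃ₐ[K] A) ∧ α = brClass K A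

/-- The unramified Brauer group of `K` over the subfield `k`: the classes that are in the image of
the Brauer group of `R` for every discrete valuation ring `R` with `k ⊆ R ⊆ K` whose fraction field
is `K`. -/
def unramifiedBrauer (k : Type*) (K : Type u) [Field k] [Field K] [Algebra k K] :
    Set (BrauerGroup.{u, u} K) :=
  {α | ∀ R : ValuationSubring K, IsDiscreteValuationRing R →
    (∀ c : k, algebraMap k K c ∈ R) → IsUnramifiedAt R α}

end Pool.Agent.BrFive
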