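import Mathlib
import Pool.Agent.BrFive.Main
import Pool.Agent.BrFive.UnramBrauer

/-! The class of order five in the unramified Brauer group. -/

namespace Pool.Agent.BrFive

open TensorProduct

universe u

section

variable {K : Type u} [Field K]

/-- The central simple algebra given by an Azumaya algebra over a field. -/
def mkCSA (A : Type u) [Ring A] [Algebra K A] [Nontrivial A] [IsAzumaya K A] : CSA.{u, u} K :=
  @csaOf K _ A _ _ _ (isSimpleRing_of_isAzumaya (K := K) (A := A)) _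

theorem class_pow_five {ζ h a : K} (hζ : 1 + ζ + ζ^2 + ζ^3 + ζ^4 = 0) (h5 : (5 : K) ≠ 0)
    (hh : h ≠ 0) (ha : a ≠ 0) (A : CSA.{u, u} K) (hA : Module.finrank K A = 25)
    (HA : HasPair ζ A h a) :
    (brClass K A)^5 = 1 := by
  have hnt : Nontrivial A := Module.nontrivial_of_finrank_pos (R := K) (by rw [hA]; norm_num)
  let T2 := csaTensor K A A
  let T3 := csaTensor K A T2
  let T4 := csaTensor K A T3
  let T5 := csaTensor K A T4
  have M1 : MatPair ζ a A h := MatPair.self hA HA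
  have M2 : MatPair ζ a T2 (h * h) := MatPair.tensor hζ h5 hh hh ha hA HA M1
  have M3 : MatPair ζ a T3 (h * (h * h)) := MatPair.tensor hζ h5 hh (mul_ne_zero hh hh) ha hA HA M2
  have M4 : MatPair ζ a T4 (h * (h * (h * h))) :=
    MatPair.tensor hζ h5 hh (mul_ne_zero hh (mul_ne_zero hh hh)) ha hA HA M3
  have M5 : MatPair ζ a T5 (h * (h * (h * (h * h)))) :=
    MatPair.tensor hζ h5 hh (mul_ne_zero hh (mul_ne_zero hh (mul_ne_zero hh hh))) ha hA HA M4
  obtain ⟨m, hm, ⟨e⟩⟩ := M5.split hζ h5 hh ha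
  have hT : brClass K T5 = 1 :=
    brClass_eq (A := T5) (B := csaOne K)
      ⟨1, m, one_ne_zero, hm, ⟨(matrixFinOne K T5).trans e⟩⟩
  have hpow : (brClass K A)^5 =
      brClass K A * (brClass K A * (brClass K A * (brClass K A * brClass K A))) := by
    simp only [pow_succ, pow_zero, one_mul, mul_assoc]
  rw [hpow]
  exact hT

theorem class_ne_one (A : CSA.{u, u} K)
    (hA : ∀ n m : ℕ, n ≠ 0 → IsEmpty (Matrix (Fin n) (Fin n) A ≃ₐ[K] Matrix (Fin m) (Fin m) K)) :
    (brClass K A) ≠ 1 := by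
  intro h
  obtain ⟨n, m, hn, -, ⟨e⟩⟩ := Quotient.exact (s := Brauer.CSA_Setoid K) (a := A) (b := csaOne K) h
  exact (hA n m hn).false e

end

theorem order_five {u : ℂ} (hu : u^2 + u - 1 = 0) :
    ∃ α ∈ unramifiedBrauer ℂ (KK u), orderOf α = 5 := by
  obtain ⟨A, iA1, iA2, hnt, hA, hAz, ⟨ζ, h, a, hζ, hh, ha, HA⟩, hns, hR⟩ := main u hu
  have hch : CharZero (KK u) := algebraRat.charZero _
  have h5 : (5 : KK u) ≠ 0 := by norm_num
  let A' : CSA.{0, 0} (KK u) := mkCSA A
  refine ⟨brClass (KK u) A', ?_, ?_⟩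
  · intro R hdvr hC
    obtain ⟨B, iB1, iB2, hB, hiso⟩ := hR R hdvr hC
    exact ⟨B, iB1, iB2, A', hB, hiso, rfl⟩
  · have : Fact (Nat.Prime 5) := ⟨by norm_num⟩
    exact orderOf_eq_prime (class_pow_five hζ h5 hh ha A' hA HA) (class_ne_one A' hns)

end Pool.Agent.BrFive
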